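import Pool.Agent.H16.GPS.Rel.Sep

/-!
JOB GPS-DM (MP_c183ae_nt). Dense model theorem (Green-Tao, Gowers, Reingold-Trevisan-Tulsiani-Vadhan).

PROOF. Let `p` be the polynomial of `relu_poly` for `ε/8`, `K₀ = p.natDegree`, `B = ∑ |coefficients|`, and
`η = min 1 (ε / (8 (B + 1)))`. (A) finite `Φ = {φ 1, .., φ M}`: if the second alternative of `sep_finite` (with `ε`) holds put
`ψ = ∑ a i φ i`, `|ψ| ≤ 1`, and `g = 1_{ψ ≥ 0}`: `ε < ∑ w (f - g) ψ = ∑ w f ψ - ∑ w ψ₊`, `f ψ ≤ f ψ₊ ≤ ν ψ₊`, so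
`ε < ∑ w (ν - 1) ψ₊`. Now `|∑ w (ν-1)(ψ₊ - p(ψ))| ≤ (ε/8) ∑ w (ν + 1) ≤ (ε/8)(2 + η) ≤ 3ε/8` (`K = 0` of the hypothesis gives
`∑ w ν ≤ 1 + η`), and `∑ w (ν-1) p(ψ) = ∑_c coeff_c ∑ w (ν-1) ψ^c`, `ψ^c = ∑_{i₁..i_c} ∏ a_{i_l} ∏ φ_{i_l}`
(`Finset.sum_pow'`/`Fintype.sum_pow`), so `|∑ w (ν-1) ψ^c| ≤ η (∑ |a i|)^c ≤ η` for `c ≤ K₀`, total `≤ B η ≤ ε/8`.
Contradiction. (B) general `Φ`: the sets `{g ∈ [0,1]^Ω | |∑ w (f-g) φ| ≤ ε}`, `φ ∈ Φ`, are closed in the compact cube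
`[0,1]^Ω`, finite intersections are nonempty by (A) (`IsCompact.inter_iInter_nonempty`). ~180 lines.
-/

set_option autoImplicit false

open Finset

namespace Pool.Agent.H16.GPS

/-- the pseudorandomness of `ν - 1` against powers of a convex combination of test functions -/
private theorem dm_pow {Ω : Type} [Fintype Ω] (w ν : Ω → ℝ) (M c : ℕ) (φ : Fin M → Ω → ℝ)
    (a : Fin M → ℝ) (ha : ∑ i, |a i| ≤ 1) (η : ℝ) (hη0 : 0 < η)
    (hK : ∀ j : Fin c → Fin M, |∑ x, w x * ((ν x - 1) * ∏ i, φ (j i) x)| ≤ η) :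
    |∑ x, w x * ((ν x - 1) * (∑ i, a i * φ i x) ^ c)| ≤ η := by
  have e1 : ∑ x, w x * ((ν x - 1) * (∑ i, a i * φ i x) ^ c) =
      ∑ j : Fin c → Fin M, (∏ i, a (j i)) * ∑ x, w x * ((ν x - 1) * ∏ i, φ (j i) x) := by
    have e2 : ∀ x, w x * ((ν x - 1) * (∑ i, a i * φ i x) ^ c) =
        ∑ j : Fin c → Fin M, (∏ i, a (j i)) * (w x * ((ν x - 1) * ∏ i, φ (j i) x)) := by
      intro x
      rw [Fintype.sum_pow, Finset.mul_sum, Finset.mul_sum]
      refine Finset.sum_congr rfl fun j _ => ?_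
      rw [Finset.prod_mul_distrib]
      ring
    rw [Finset.sum_congr rfl fun x _ => e2 x, Finset.sum_comm]
    refine Finset.sum_congr rfl fun j _ => ?_
    rw [Finset.mul_sum]
  rw [e1]
  calc |∑ j : Fin c → Fin M, (∏ i, a (j i)) * ∑ x, w x * ((ν x - 1) * ∏ i, φ (j i) x)|
      ≤ ∑ j : Fin c → Fin M, |(∏ i, a (j i)) * ∑ x, w x * ((ν x - 1) * ∏ i, φ (j i) x)| :=
        Finset.abs_sum_le_sum_abs _ _
    _ ≤ ∑ j : Fin c → Fin M, (∏ i, |a (j i)|) * η := by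
        refine Finset.sum_le_sum fun j _ => ?_
        rw [abs_mul, Finset.abs_prod]
        exact mul_le_mul_of_nonneg_left (hK j) (Finset.prod_nonneg fun i _ => abs_nonneg _)
    _ = (∑ i, |a i|) ^ c * η := by rw [Fintype.sum_pow, Finset.sum_mul]
    _ ≤ 1 * η := by
        refine mul_le_mul_of_nonneg_right ?_ hη0.le
        exact pow_le_one₀ (Finset.sum_nonneg fun i _ => abs_nonneg _) ha
    _ = η := one_mul _

private theorem dm_finite (ε : ℝ) (hε : 0 < ε) (p : Polynomial ℝ)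
    (hp : ∀ t : ℝ, -1 ≤ t → t ≤ 1 → |p.eval t - max t 0| ≤ ε / 8)
    (η : ℝ) (hη0 : 0 < η) (hη1 : η ≤ 1)
    (hηB : η * (∑ c ∈ range (p.natDegree + 1), |p.coeff c|) ≤ ε / 8)
    {Ω : Type} [Fintype Ω] (w : Ω → ℝ) (hw : IsPW w) (ν f : Ω → ℝ)
    (hf : ∀ x, 0 ≤ f x ∧ f x ≤ ν x)
    (M : ℕ) (φ : Fin M → Ω → ℝ) (hφ : ∀ i x, |φ i x| ≤ 1)
    (hK : ∀ K ≤ p.natDegree, ∀ j : Fin K → Fin M,
      |∑ x, w x * ((ν x - 1) * ∏ i, φ (j i) x)| ≤ η) :
    ∃ g : Ω → ℝ, (∀ x, 0 ≤ g x ∧ g x ≤ 1) ∧ ∀ i, |∑ x, w x * ((f x - g x) * φ i x)| ≤ ε := by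
  rcases sep_finite w M φ f ε hε with h | ⟨a, ha, hag⟩
  · exact h
  exfalso
  have hψ : ∀ x, |∑ i, a i * φ i x| ≤ 1 := by
    intro x
    calc |∑ i, a i * φ i x| ≤ ∑ i, |a i * φ i x| := Finset.abs_sum_le_sum_abs _ _
      _ ≤ ∑ i, |a i| := by
          refine Finset.sum_le_sum fun i _ => ?_
          rw [abs_mul]
          exact mul_le_of_le_one_right (abs_nonneg _) (hφ i x)
      _ ≤ 1 := ha
  set ψ : Ω → ℝ := fun x => ∑ i, a i * φ i x with hψdef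
  have h1 : ε < ∑ x, w x * ((ν x - 1) * max (ψ x) 0) := by
    have h2 := hag (fun x => if 0 ≤ ψ x then 1 else 0) (fun x => by
      split_ifs <;> norm_num)
    refine lt_of_lt_of_le h2 (Finset.sum_le_sum fun x _ => ?_)
    refine mul_le_mul_of_nonneg_left ?_ (hw.1 x)
    change (f x - if 0 ≤ ψ x then 1 else 0) * ψ x ≤ _
    split_ifs with h3
    · rw [max_eq_left h3]
      exact mul_le_mul_of_nonneg_right (by linarith [(hf x).2]) h3
    · rw [max_eq_right (not_le.1 h3).le, mul_zero, sub_zero]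
      exact mul_nonpos_of_nonneg_of_nonpos (hf x).1 (not_le.1 h3).le
  have h0 : |∑ x, w x * (ν x - 1)| ≤ η := by
    have := hK 0 (Nat.zero_le _) Fin.elim0
    simpa using this
  have hν : ∑ x, w x * (ν x + 1) ≤ 3 := by
    have e : ∑ x, w x * (ν x + 1) = ∑ x, w x * (ν x - 1) + 2 * ∑ x, w x := by
      rw [Finset.mul_sum, ← Finset.sum_add_distrib]
      refine Finset.sum_congr rfl fun x _ => ?_
      ring
    rw [e, hw.2]
    linarith [(abs_le.1 h0).2]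
  have h2 : |∑ x, w x * ((ν x - 1) * (max (ψ x) 0 - p.eval (ψ x)))| ≤ 3 * (ε / 8) := by
    calc |∑ x, w x * ((ν x - 1) * (max (ψ x) 0 - p.eval (ψ x)))|
        ≤ ∑ x, |w x * ((ν x - 1) * (max (ψ x) 0 - p.eval (ψ x)))| :=
          Finset.abs_sum_le_sum_abs _ _
      _ ≤ ∑ x, w x * (ν x + 1) * (ε / 8) := by
          refine Finset.sum_le_sum fun x _ => ?_
          rw [abs_mul, abs_mul, abs_of_nonneg (hw.1 x), mul_assoc]
          refine mul_le_mul_of_nonneg_left ?_ (hw.1 x)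
          refine mul_le_mul ?_ ?_ (abs_nonneg _) ?_
          · rw [abs_le]
            constructor <;> linarith [(hf x).1, (hf x).2]
          · rw [abs_sub_comm]
            exact hp _ (abs_le.1 (hψ x)).1 (abs_le.1 (hψ x)).2
          · linarith [(hf x).1, (hf x).2]
      _ = (∑ x, w x * (ν x + 1)) * (ε / 8) := by rw [Finset.sum_mul]
      _ ≤ 3 * (ε / 8) := mul_le_mul_of_nonneg_right hν (by linarith)
  have h3 : |∑ x, w x * ((ν x - 1) * p.eval (ψ x))| ≤ ε / 8 := by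
    have e1 : ∑ x, w x * ((ν x - 1) * p.eval (ψ x)) =
        ∑ c ∈ range (p.natDegree + 1), p.coeff c * ∑ x, w x * ((ν x - 1) * ψ x ^ c) := by
      have e2 : ∀ x, w x * ((ν x - 1) * p.eval (ψ x)) =
          ∑ c ∈ range (p.natDegree + 1), p.coeff c * (w x * ((ν x - 1) * ψ x ^ c)) := by
        intro x
        rw [Polynomial.eval_eq_sum_range, Finset.mul_sum, Finset.mul_sum]
        refine Finset.sum_congr rfl fun c _ => ?_
        ring
      rw [Finset.sum_congr rfl fun x _ => e2 x, Finset.sum_comm]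
      refine Finset.sum_congr rfl fun j _ => ?_
      rw [Finset.mul_sum]
    rw [e1]
    calc |∑ c ∈ range (p.natDegree + 1), p.coeff c * ∑ x, w x * ((ν x - 1) * ψ x ^ c)|
        ≤ ∑ c ∈ range (p.natDegree + 1), |p.coeff c * ∑ x, w x * ((ν x - 1) * ψ x ^ c)| :=
          Finset.abs_sum_le_sum_abs _ _
      _ ≤ ∑ c ∈ range (p.natDegree + 1), η * |p.coeff c| := by
          refine Finset.sum_le_sum fun c hc => ?_
          rw [abs_mul, mul_comm]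
          refine mul_le_mul_of_nonneg_right ?_ (abs_nonneg _)
          have hc' : c ≤ p.natDegree := by
            have := Finset.mem_range.1 hc
            omega
          exact dm_pow w ν M c φ a ha η hη0 (hK c hc')
      _ = η * (∑ c ∈ range (p.natDegree + 1), |p.coeff c|) := by rw [Finset.mul_sum]
      _ ≤ ε / 8 := hηB
  have h4 : ∑ x, w x * ((ν x - 1) * max (ψ x) 0) =
      ∑ x, w x * ((ν x - 1) * (max (ψ x) 0 - p.eval (ψ x))) +
        ∑ x, w x * ((ν x - 1) * p.eval (ψ x)) := by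
    rw [← Finset.sum_add_distrib]
    refine Finset.sum_congr rfl fun x _ => ?_
    ring
  rw [h4] at h1
  linarith [(abs_le.1 h2).2, (abs_le.1 h3).2]

theorem dense_model (ε : ℝ) (hε : 0 < ε) : ∃ (K₀ : ℕ) (η : ℝ), 0 < η ∧
    ∀ (Ω : Type) [Fintype Ω] (w : Ω → ℝ), IsPW w → ∀ ν f : Ω → ℝ, (∀ x, 0 ≤ f x ∧ f x ≤ ν x) →
    ∀ Φ : Set (Ω → ℝ), (∀ φ ∈ Φ, ∀ x, |φ x| ≤ 1) →
    (∀ K : ℕ, K ≤ K₀ → ∀ φ : Fin K → Ω → ℝ, (∀ i, φ i ∈ Φ) →
      |∑ x, w x * ((ν x - 1) * ∏ i, φ i x)| ≤ η) →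
    ∃ ft : Ω → ℝ, (∀ x, 0 ≤ ft x ∧ ft x ≤ 1) ∧
      ∀ φ ∈ Φ, |∑ x, w x * ((f x - ft x) * φ x)| ≤ ε := by
  obtain ⟨p, hp⟩ := relu_poly (ε / 8) (by linarith)
  set B : ℝ := ∑ c ∈ range (p.natDegree + 1), |p.coeff c| with hB
  have hB0 : 0 ≤ B := Finset.sum_nonneg fun c _ => abs_nonneg _
  have hη0 : 0 < min 1 (ε / (8 * (B + 1))) := lt_min one_pos (by positivity)
  refine ⟨p.natDegree, min 1 (ε / (8 * (B + 1))), hη0, ?_⟩
  intro Ω _ w hw ν f hf Φ hΦ hK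
  have hηB : min 1 (ε / (8 * (B + 1))) * B ≤ ε / 8 := by
    calc min 1 (ε / (8 * (B + 1))) * B ≤ (ε / (8 * (B + 1))) * (B + 1) :=
          mul_le_mul (min_le_right _ _) (by linarith) hB0 (by positivity)
      _ = ε / 8 := by field_simp
  have hcomp : IsCompact (Set.pi Set.univ (fun _ : Ω => Set.Icc (0 : ℝ) 1)) :=
    isCompact_univ_pi fun _ => isCompact_Icc
  have hne := hcomp.inter_iInter_nonempty
    (fun φ : Φ => {g : Ω → ℝ | |∑ x, w x * ((f x - g x) * φ.1 x)| ≤ ε})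
    (fun φ => by
      refine isClosed_le ?_ continuous_const
      refine continuous_abs.comp ?_
      refine continuous_finsetSum _ fun x _ => ?_
      exact continuous_const.mul ((continuous_const.sub (continuous_apply x)).mul continuous_const))
    (fun u => by
      obtain ⟨g, hg1, hg2⟩ := dm_finite ε hε p hp _ hη0 (min_le_left _ _) hηB w hw ν f hf u.card
        (fun i => (u.equivFin.symm i).1.1) (fun i x => hΦ _ (u.equivFin.symm i).1.2 x)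
        (fun K hKK j => hK K hKK (fun i => (u.equivFin.symm (j i)).1.1)
          (fun i => (u.equivFin.symm (j i)).1.2))
      refine ⟨g, ?_, ?_⟩
      · exact fun x _ => ⟨(hg1 x).1, (hg1 x).2⟩
      · simp only [Set.mem_iInter]
        intro φ hφ
        have h1 := hg2 (u.equivFin ⟨φ, hφ⟩)
        simpa using h1)
  obtain ⟨g, hg1, hg2⟩ := hne
  refine ⟨g, fun x => ?_, fun φ hφ => ?_⟩
  · exact ⟨(hg1 x (Set.mem_univ x)).1, (hg1 x (Set.mem_univ x)).2⟩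
  · have := Set.mem_iInter.1 hg2 ⟨φ, hφ⟩
    exact this

end Pool.Agent.H16.GPS
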