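import Pool.Agent.H16.GPS.Rel.Basic

/-!
JOB GPS-ABSORB (MP_c183ae_nt). Absorbing the shift in a test function.

PROOF of `absorb`. For `φ = 1` take `v = 1`. For `φ` of type `(j, u)` let `D = κ!`, `i₀ ≠ j` a fixed index (`κ ≥ 2`), and
`sh y i = (D / (j - i)) • y i` for `i ≠ j, i₀` (exact division in `ℤ`: `|j - i| < κ` divides `κ!`),
`sh y i₀ = (D / (j - i₀)) • (y i₀ + y j)`, `sh y j = 0`. Then `LL j (sh y) = D • ∑ c, y c`. Substituting `h = g + sh y` in
`φ (A, z + D ∑ y) = ∑ h, ∏ lam (h i) ∏_{i≠j} u i (A, z + D ∑ y - LL j h) h` gives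
`∑ g, ∏ lam (g i + sh y i) ∏_{i≠j} u i (A, z - LL j g) (g + sh y)`. Replace the weight by `∏ lam (g i)`: the error is at most
`∑ g, |∏ lam (g i + sh y i) - ∏ lam (g i)| ≤ ∑ i, ∑ g, |lam (g + sh y i) - lam g| ≤ (κ + 1) τ` (hybrid argument; for `i₀` use
the triangle inequality with the two shifts; `c • y` with `|c| ≤ κ!`, shift by `-c`). Put
`v i (A,z) g y = u i (A, z - LL j g) (g + sh y)` for `i ≠ j` (it does not depend on `y i`: only the coordinate `i` of
`g + sh y` depends on `y i` (for `i = i₀` too), and `u i` is independent of coordinate `i`), `v j = 1`. ~150 lines.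
-/

set_option autoImplicit false

open Finset

namespace Pool.Agent.H16.GPS

/-- product formula for sums over functions -/
lemma ab_sum_prod {n : ℕ} {Γ : Type} [Fintype Γ] (F : Fin n → Γ → ℝ) :
    ∑ h : Fin n → Γ, ∏ i, F i (h i) = ∏ i, ∑ g, F i g := by
  classical
  rw [Finset.prod_univ_sum, Fintype.piFinset_univ]

/-- changing one factor -/
lemma ab_one {n : ℕ} {Γ : Type} [Fintype Γ] (c c' : Fin n → Γ → ℝ) (k : Fin n)
    (hc0 : ∀ i g, 0 ≤ c i g) (hc1 : ∀ i, ∑ g, c i g = 1) (hcc : ∀ i, i ≠ k → c' i = c i) :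
    ∑ h : Fin n → Γ, |∏ i, c i (h i) - ∏ i, c' i (h i)| = ∑ g, |c k g - c' k g| := by
  classical
  have h1 : ∀ h : Fin n → Γ, |∏ i, c i (h i) - ∏ i, c' i (h i)| =
      ∏ i, (if i = k then (fun g => |c k g - c' k g|) else c i) (h i) := by
    intro h
    rw [← Finset.mul_prod_erase univ (fun i => c i (h i)) (mem_univ k),
      ← Finset.mul_prod_erase univ (fun i => c' i (h i)) (mem_univ k),
      ← Finset.mul_prod_erase univ
        (fun i => (if i = k then (fun g => |c k g - c' k g|) else c i) (h i)) (mem_univ k)]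
    have e1 : ∏ i ∈ univ.erase k, c' i (h i) = ∏ i ∈ univ.erase k, c i (h i) := by
      refine Finset.prod_congr rfl fun i hi => ?_
      rw [hcc i (Finset.ne_of_mem_erase hi)]
    have e2 : ∏ i ∈ univ.erase k, (if i = k then (fun g => |c k g - c' k g|) else c i) (h i) =
        ∏ i ∈ univ.erase k, c i (h i) := by
      refine Finset.prod_congr rfl fun i hi => ?_
      rw [if_neg (Finset.ne_of_mem_erase hi)]
    rw [e1, e2, ← sub_mul, abs_mul, abs_of_nonneg (Finset.prod_nonneg fun i _ => hc0 i (h i)),
      if_pos rfl]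
  rw [Finset.sum_congr rfl fun h _ => h1 h, ab_sum_prod,
    ← Finset.mul_prod_erase univ _ (mem_univ k)]
  have e3 : ∏ i ∈ univ.erase k, ∑ g, (if i = k then (fun g => |c k g - c' k g|) else c i) g = 1 := by
    refine Finset.prod_eq_one fun i hi => ?_
    rw [if_neg (Finset.ne_of_mem_erase hi)]
    exact hc1 i
  rw [e3, mul_one, if_pos rfl]

/-- the hybrid argument -/
lemma ab_hybrid {n : ℕ} {Γ : Type} [Fintype Γ] (a b : Fin n → Γ → ℝ)
    (ha0 : ∀ i g, 0 ≤ a i g) (ha1 : ∀ i, ∑ g, a i g = 1)
    (hb0 : ∀ i g, 0 ≤ b i g) (hb1 : ∀ i, ∑ g, b i g = 1) :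
    ∑ h : Fin n → Γ, |∏ i, a i (h i) - ∏ i, b i (h i)| ≤ ∑ i, ∑ g, |a i g - b i g| := by
  classical
  have key : ∀ s : Finset (Fin n),
      ∑ h : Fin n → Γ, |∏ i, (if i ∈ s then a i else b i) (h i) - ∏ i, b i (h i)| ≤
        ∑ i ∈ s, ∑ g, |a i g - b i g| := by
    intro s
    induction s using Finset.induction_on with
    | empty => simp
    | insert k s hk ih =>
      rw [Finset.sum_insert hk]
      have h1 := ab_one (fun i => if i ∈ insert k s then a i else b i)
        (fun i => if i ∈ s then a i else b i) k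
        (fun i g => by
          split_ifs
          · exact ha0 i g
          · exact hb0 i g)
        (fun i => by
          split_ifs
          · exact ha1 i
          · exact hb1 i)
        (fun i hi => by
          have : i ∈ insert k s ↔ i ∈ s := by
            rw [Finset.mem_insert]
            constructor
            · rintro (h | h)
              · exact absurd h hi
              · exact h
            · exact Or.inr
          by_cases his : i ∈ s
          · rw [if_pos his, if_pos (this.2 his)]
          · rw [if_neg his, if_neg (fun h => his (this.1 h))])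
      rw [if_pos (Finset.mem_insert_self k s), if_neg hk] at h1
      calc ∑ h : Fin n → Γ, |∏ i, (if i ∈ insert k s then a i else b i) (h i) - ∏ i, b i (h i)|
          ≤ ∑ h : Fin n → Γ, (|∏ i, (if i ∈ insert k s then a i else b i) (h i) -
              ∏ i, (if i ∈ s then a i else b i) (h i)| +
              |∏ i, (if i ∈ s then a i else b i) (h i) - ∏ i, b i (h i)|) :=
            Finset.sum_le_sum fun h _ => abs_sub_le _ _ _
        _ = (∑ g, |a k g - b k g|) + ∑ h : Fin n → Γ,
              |∏ i, (if i ∈ s then a i else b i) (h i) - ∏ i, b i (h i)| := by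
            rw [Finset.sum_add_distrib, h1]
        _ ≤ (∑ g, |a k g - b k g|) + ∑ i ∈ s, ∑ g, |a i g - b i g| := by
            gcongr
  have := key univ
  simpa using this

theorem absorb (κ : ℕ) (hκ : 2 ≤ κ) {Θ Γ : Type} [Fintype Θ] [Fintype Γ] [AddCommGroup Γ]
    (lam lam' : Γ → ℝ) (hl : IsPW lam) (τ : ℝ) (hτ : 0 ≤ τ) (hN : NearInv κ lam lam' τ)
    (φ : Θ × Γ → ℝ) (hφ : φ ∈ TestFn κ lam) :
    ∃ v : Fin κ → Θ × Γ → (Fin κ → Γ) → (Fin κ → Γ) → ℝ,
      (∀ i p h, Indep i (v i p h)) ∧ (∀ i p h y, 0 ≤ v i p h y ∧ v i p h y ≤ 1) ∧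
      ∀ (p : Θ × Γ) (y : Fin κ → Γ), (∀ c, lam' (y c) ≠ 0) →
        |φ (p.1, p.2 + κ.factorial • ∑ c, y c) -
          ∑ h : Fin κ → Γ, (∏ i, lam (h i)) * ∏ i, v i p h y| ≤ (κ + 1) * τ := by
  classical
  rcases hφ with hφ | ⟨j, u, hu1, hu2, hφ⟩
  · refine ⟨fun _ _ _ _ => 1, fun _ _ _ _ _ => rfl, fun _ _ _ _ => ⟨zero_le_one, le_rfl⟩,
      fun p y _ => ?_⟩
    have h1 : ∑ h : Fin κ → Γ, (∏ i, lam (h i)) * ∏ i : Fin κ, (1 : ℝ) = 1 := by
      simp only [Finset.prod_const_one, mul_one]
      exact sum_pi_weight lam hl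
    rw [h1, hφ]
    simp only [sub_self, abs_zero]
    positivity
  -- the index i₀
  obtain ⟨i₀, hi₀⟩ : ∃ i₀ : Fin κ, i₀ ≠ j := by
    by_cases hj : (j : ℕ) = 0
    · exact ⟨⟨1, by omega⟩, fun h => by
        have := congrArg Fin.val h
        simp only at this
        omega⟩
    · exact ⟨⟨0, by omega⟩, fun h => hj (by
        have := congrArg Fin.val h
        simp only at this
        omega)⟩
  -- the exact quotients
  have hex : ∀ i : Fin κ, ∃ c : ℤ, i ≠ j →
      (((j : ℕ) : ℤ) - ((i : ℕ) : ℤ)) * c = (κ.factorial : ℤ) ∧ |c| ≤ (κ.factorial : ℤ) := by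
    intro i
    by_cases hij : i = j
    · exact ⟨0, fun h => absurd hij h⟩
    have hne : (((j : ℕ) : ℤ) - ((i : ℕ) : ℤ)) ≠ 0 := by
      intro h
      apply hij
      apply Fin.ext
      omega
    have hdvd : (((j : ℕ) : ℤ) - ((i : ℕ) : ℤ)) ∣ (κ.factorial : ℤ) := by
      rw [← Int.natAbs_dvd_natAbs, Int.natAbs_natCast]
      apply Nat.dvd_factorial
      · exact Int.natAbs_pos.mpr hne
      · have := j.2
        have := i.2
        omega
    obtain ⟨c, hc⟩ := hdvd
    refine ⟨c, fun _ => ⟨hc.symm, ?_⟩⟩
    have h1 : |(((j : ℕ) : ℤ) - ((i : ℕ) : ℤ))| * |c| = (κ.factorial : ℤ) := by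
      rw [← abs_mul, ← hc]
      exact abs_of_nonneg (by positivity)
    have h2 : 1 ≤ |(((j : ℕ) : ℤ) - ((i : ℕ) : ℤ))| := Int.one_le_abs hne
    nlinarith [abs_nonneg c]
  choose c hc using hex
  let sh : (Fin κ → Γ) → Fin κ → Γ := fun y i =>
    if i = j then 0 else if i = i₀ then c i • (y i + y j) else c i • y i
  have hsh : ∀ y : Fin κ → Γ, LL j (sh y) = κ.factorial • ∑ c, y c := by
    intro y
    have h1 : ∀ i : Fin κ, (((j : ℕ) : ℤ) - ((i : ℕ) : ℤ)) • sh y i =
        (if i = j then 0 else κ.factorial • y i) + (if i = i₀ then κ.factorial • y j else 0) := by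
      intro i
      by_cases hij : i = j
      · have hji : i ≠ i₀ := fun h => hi₀ (h ▸ hij)
        simp only [sh, if_pos hij, if_neg hji, smul_zero, add_zero]
      · have h2 := (hc i hij).1
        by_cases hi : i = i₀
        · simp only [sh, if_neg hij, if_pos hi]
          rw [← mul_smul, h2, natCast_zsmul, nsmul_add]
        · simp only [sh, if_neg hij, if_neg hi, add_zero]
          rw [← mul_smul, h2, natCast_zsmul]
    unfold LL
    rw [Finset.sum_congr rfl fun i _ => h1 i, Finset.sum_add_distrib]
    rw [Finset.sum_ite_eq' univ i₀, if_pos (mem_univ _)]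
    rw [← Finset.add_sum_erase univ (fun c => y c) (mem_univ j),
      ← Finset.add_sum_erase univ
        (fun i => if i = j then (0 : Γ) else κ.factorial • y i) (mem_univ j)]
    rw [if_pos rfl, zero_add, nsmul_add, Finset.sum_congr rfl
      (g := fun i => κ.factorial • y i) (fun i hi => if_neg (Finset.ne_of_mem_erase hi)),
      Finset.smul_sum, add_comm]
  have hLLadd : ∀ g h : Fin κ → Γ, LL j (g + h) = LL j g + LL j h := by
    intro g h
    simp only [LL, Pi.add_apply, smul_add, Finset.sum_add_distrib]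
  -- the functions v
  refine ⟨fun i p g y => if i = j then 1 else u i (p.1, p.2 - LL j g) (g + sh y), ?_, ?_, ?_⟩
  · intro i p g y x
    dsimp only
    by_cases hij : i = j
    · rw [if_pos hij, if_pos hij]
    · rw [if_neg hij, if_neg hij]
      have h1 : g + sh (Function.update y i x) =
          Function.update (g + sh y) i ((g + sh (Function.update y i x)) i) := by
        funext l
        by_cases hl' : l = i
        · subst hl'
          rw [Function.update_self]
        · rw [Function.update_of_ne hl']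
          simp only [Pi.add_apply]
          congr 1
          simp only [sh]
          by_cases hlj : l = j
          · rw [if_pos hlj, if_pos hlj]
          · rw [if_neg hlj, if_neg hlj]
            have e1 : Function.update y i x l = y l := Function.update_of_ne hl' _ _
            have e2 : Function.update y i x j = y j := Function.update_of_ne (Ne.symm hij) _ _
            rw [e1, e2]
      rw [h1]
      exact hu1 i _ _ _
  · intro i p g y
    dsimp only
    by_cases hij : i = j
    · rw [if_pos hij]
      exact ⟨zero_le_one, le_rfl⟩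
    · rw [if_neg hij]
      exact hu2 i _ _
  · intro p y hy
    dsimp only
    -- rewrite the product
    have hprod : ∀ g : Fin κ → Γ,
        (∏ i, if i = j then (1 : ℝ) else u i (p.1, p.2 - LL j g) (g + sh y)) =
          ∏ i ∈ univ.erase j, u i (p.1, p.2 - LL j g) (g + sh y) := by
      intro g
      rw [← Finset.mul_prod_erase univ _ (mem_univ j), if_pos rfl, one_mul]
      exact Finset.prod_congr rfl fun i hi => if_neg (Finset.ne_of_mem_erase hi)
    have h1 : φ (p.1, p.2 + κ.factorial • ∑ c, y c) =
        ∑ g : Fin κ → Γ, (∏ i, lam (g i + sh y i)) *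
          ∏ i ∈ univ.erase j, u i (p.1, p.2 - LL j g) (g + sh y) := by
      rw [hφ, ← Equiv.sum_comp (Equiv.addRight (sh y))]
      refine Finset.sum_congr rfl fun g _ => ?_
      simp only [Equiv.coe_addRight, Pi.add_apply]
      congr 1
      refine Finset.prod_congr rfl fun i _ => ?_
      rw [hLLadd, hsh]
      congr 2
      abel
    have h1' : ∑ g : Fin κ → Γ, (∏ i, lam (g i)) *
        (∏ i, if i = j then (1 : ℝ) else u i (p.1, p.2 - LL j g) (g + sh y)) =
        ∑ g : Fin κ → Γ, (∏ i, lam (g i)) *
          ∏ i ∈ univ.erase j, u i (p.1, p.2 - LL j g) (g + sh y) :=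
      Finset.sum_congr rfl fun g _ => by rw [hprod g]
    rw [h1, h1', ← Finset.sum_sub_distrib]
    have h2 : |∑ g : Fin κ → Γ, ((∏ i, lam (g i + sh y i)) *
          ∏ i ∈ univ.erase j, u i (p.1, p.2 - LL j g) (g + sh y) -
        (∏ i, lam (g i)) * ∏ i ∈ univ.erase j, u i (p.1, p.2 - LL j g) (g + sh y))| ≤
        ∑ g : Fin κ → Γ, |∏ i, lam (g i + sh y i) - ∏ i, lam (g i)| := by
      refine (Finset.abs_sum_le_sum_abs _ _).trans (Finset.sum_le_sum fun g _ => ?_)
      rw [← sub_mul, abs_mul]
      have h3 : |∏ i ∈ univ.erase j, u i (p.1, p.2 - LL j g) (g + sh y)| ≤ 1 := by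
        rw [abs_of_nonneg (Finset.prod_nonneg fun i _ => (hu2 i _ _).1)]
        exact Finset.prod_le_one (fun i _ => (hu2 i _ _).1) (fun i _ => (hu2 i _ _).2)
      exact mul_le_of_le_one_right (abs_nonneg _) h3
    refine h2.trans ?_
    have hshift : ∀ t : Γ, ∑ g, lam (g + t) = 1 := by
      intro t
      rw [← hl.2]
      exact Equiv.sum_comp (Equiv.addRight t) lam
    have h4 := ab_hybrid (fun i g => lam (g + sh y i)) (fun _ g => lam g)
      (fun i g => hl.1 _) (fun i => hshift _) (fun i g => hl.1 _) (fun i => hl.2)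
    refine h4.trans ?_
    -- bound each shift
    have hone : ∀ (i l : Fin κ), i ≠ j → ∑ g, |lam (g + c i • y l) - lam g| ≤ τ := by
      intro i l hij
      have h5 := hN (y l) (hy l) (-(c i)) (by rw [abs_neg]; exact (hc i hij).2)
      refine le_trans (le_of_eq ?_) h5
      refine Finset.sum_congr rfl fun g _ => ?_
      rw [neg_smul, sub_neg_eq_add, abs_sub_comm]
    have hb : ∀ i : Fin κ, ∑ g, |lam (g + sh y i) - lam g| ≤ τ + if i = i₀ then τ else 0 := by
      intro i
      by_cases hij : i = j
      · have h0 : sh y i = 0 := by simp only [sh, if_pos hij]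
        rw [h0]
        simp only [add_zero, sub_self, abs_zero, Finset.sum_const_zero]
        split_ifs <;> linarith
      · by_cases hi : i = i₀
        · have h0 : sh y i = c i • y i + c i • y j := by
            simp only [sh, if_neg hij, if_pos hi, smul_add]
          rw [h0, if_pos hi]
          calc ∑ g, |lam (g + (c i • y i + c i • y j)) - lam g|
              ≤ ∑ g, (|lam (g + (c i • y i + c i • y j)) - lam (g + c i • y j)| +
                  |lam (g + c i • y j) - lam g|) :=
                Finset.sum_le_sum fun g _ => abs_sub_le _ _ _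
            _ = ∑ g, |lam (g + (c i • y i + c i • y j)) - lam (g + c i • y j)| +
                  ∑ g, |lam (g + c i • y j) - lam g| := Finset.sum_add_distrib
            _ ≤ τ + τ := by
                refine add_le_add ?_ (hone i j hij)
                refine le_trans (le_of_eq ?_) (hone i i hij)
                rw [← Equiv.sum_comp (Equiv.addRight (c i • y j))
                  (fun g => |lam (g + c i • y i) - lam g|)]
                refine Finset.sum_congr rfl fun g _ => ?_
                simp only [Equiv.coe_addRight]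
                congr 3
                abel
        · have h0 : sh y i = c i • y i := by simp only [sh, if_neg hij, if_neg hi]
          rw [h0, if_neg hi, add_zero]
          exact hone i i hij
    calc ∑ i, ∑ g, |lam (g + sh y i) - lam g|
        ≤ ∑ i : Fin κ, (τ + if i = i₀ then τ else 0) := Finset.sum_le_sum fun i _ => hb i
      _ = (κ + 1) * τ := by
          rw [Finset.sum_add_distrib, Finset.sum_ite_eq' univ i₀, if_pos (mem_univ _)]
          simp
          ring

end Pool.Agent.H16.GPS
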