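import Pool.Agent.H16.GPS.Rel.Bcs
import Pool.Agent.H16.GPS.Rel.Absorb

/-!
JOB GPS-DUAL (MP_c183ae_nt). `ν - 1` is nearly orthogonal to products of test functions.

PROOF of `dual_products`. `∑ (A,z) (ν - 1)(A,z) ∏ φ = ` (translate `z` by `D ∑ c, y c`, average over `y` with weight `lam'`)
`E_{(A,z)} E_y (ν-1)(A, z + D ∑ y) ∏_a φ_a (A, z + D ∑ y)`. Replace each `φ_a` by `∑ h ∏ lam (h i) ∏ i, v_a i (A,z) h y`: the
total error is `≤ K (κ+1) τ * E (ν + 1) ≤ 3 K (κ+1) τ` (`LFd` with one-element and empty sets gives `E ν ≤ 1 + η ≤ 2`).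
The product over `a` of the sums over `h^{(a)}` is `E` over the parameter `(A, z, (h^{(a)})_a)` of
`∏ i, c i`, `c i = ∏_a v_a i (A,z) (h^{(a)}) y`, independent of `y i`, `|c i| ≤ 1`. Apply `bcs` (weight `lam'`, variables
`y : Fin κ → Γ`, `J = univ`, `M = 1`, `C = 1`, `G = ν(A, z + D ∑ y) - 1`): the `2^κ`-th power is at most
`EE2 ∏ ω, (ν (A, z + D ∑ c, mix y y' ω c) - 1)`; expand: by `LFd` it is `≤ 2^(2^κ) η`. ~200 lines.
-/

set_option autoImplicit false

open Finset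

namespace Pool.Agent.H16.GPS

lemma du_trans {Θ Γ : Type} [Fintype Θ] [Fintype Γ] [AddCommGroup Γ] (F : Θ × Γ → ℝ) (t : Γ) :
    ∑ p : Θ × Γ, unif (Θ × Γ) p * F (p.1, p.2 + t) = ∑ p, unif (Θ × Γ) p * F p := by
  have := Equiv.sum_comp ((Equiv.refl Θ).prodCongr (Equiv.addRight t))
    (fun p => unif (Θ × Γ) p * F p)
  rw [← this]
  rfl

lemma du_EE_shift {Θ Γ : Type} [Fintype Θ] [Fintype Γ] [AddCommGroup Γ] {κ : ℕ}
    (lam' : Γ → ℝ) (hl' : IsPW lam') (F : Θ × Γ → ℝ) (t : (Fin κ → Γ) → Γ) :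
    EE (unif (Θ × Γ)) lam' (fun p (y : Fin κ → Γ) => F (p.1, p.2 + t y)) =
      ∑ p, unif (Θ × Γ) p * F p := by
  unfold EE
  have h1 : ∑ p, unif (Θ × Γ) p * ∑ y : Fin κ → Γ, (∏ i, lam' (y i)) * F (p.1, p.2 + t y) =
      ∑ y : Fin κ → Γ, (∏ i, lam' (y i)) * ∑ p, unif (Θ × Γ) p * F (p.1, p.2 + t y) := by
    simp only [Finset.mul_sum]
    rw [Finset.sum_comm]
    refine Finset.sum_congr rfl fun y _ => Finset.sum_congr rfl fun p _ => by ring
  have h2 : ∑ y : Fin κ → Γ, (∏ i, lam' (y i)) * ∑ p, unif (Θ × Γ) p * F (p.1, p.2 + t y) =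
      ∑ y : Fin κ → Γ, (∏ i, lam' (y i)) * ∑ p, unif (Θ × Γ) p * F p :=
    Finset.sum_congr rfl fun y _ => by rw [du_trans]
  rw [h1, h2, ← Finset.sum_mul, sum_pi_weight lam' hl', one_mul]

lemma du_hybrid {A : Type} [DecidableEq A] (X Y : A → ℝ) (δ : ℝ) (hX : ∀ a, |X a| ≤ 1)
    (hY : ∀ a, |Y a| ≤ 1) (h : ∀ a, |X a - Y a| ≤ δ) (s : Finset A) :
    |∏ a ∈ s, X a - ∏ a ∈ s, Y a| ≤ #s * δ := by
  induction s using Finset.induction_on with
  | empty => simp
  | insert k s hk ih =>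
    rw [Finset.prod_insert hk, Finset.prod_insert hk, Finset.card_insert_of_notMem hk]
    have h1 : |∏ a ∈ s, Y a| ≤ 1 := by
      rw [Finset.abs_prod]
      exact Finset.prod_le_one (fun _ _ => abs_nonneg _) fun a _ => hY a
    have h2 : X k * ∏ a ∈ s, X a - Y k * ∏ a ∈ s, Y a =
        X k * (∏ a ∈ s, X a - ∏ a ∈ s, Y a) + (X k - Y k) * ∏ a ∈ s, Y a := by ring
    rw [h2]
    refine (abs_add_le _ _).trans ?_
    rw [abs_mul, abs_mul]
    have h3 : |X k| * |∏ a ∈ s, X a - ∏ a ∈ s, Y a| ≤ 1 * (#s * δ) :=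
      mul_le_mul (hX k) ih (abs_nonneg _) zero_le_one
    have h4 : |X k - Y k| * |∏ a ∈ s, Y a| ≤ δ * 1 :=
      mul_le_mul (h k) h1 (abs_nonneg _) ((abs_nonneg _).trans (h k))
    push_cast
    linarith

lemma du_abs {P ι X : Type} [Fintype P] [Fintype ι] [DecidableEq ι] [Fintype X]
    (μ : P → ℝ) (lam : X → ℝ) (hμ : IsPW μ) (hl : IsPW lam) (F H : P → (ι → X) → ℝ)
    (h : ∀ p y, (∀ c, lam (y c) ≠ 0) → |F p y| ≤ H p y) :
    |EE μ lam F| ≤ EE μ lam H := by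
  unfold EE
  refine (Finset.abs_sum_le_sum_abs _ _).trans (Finset.sum_le_sum fun p _ => ?_)
  rw [abs_mul, abs_of_nonneg (hμ.1 p)]
  refine mul_le_mul_of_nonneg_left ?_ (hμ.1 p)
  refine (Finset.abs_sum_le_sum_abs _ _).trans (Finset.sum_le_sum fun y _ => ?_)
  rw [abs_mul, abs_of_nonneg (Finset.prod_nonneg fun i _ => hl.1 _)]
  by_cases hy : ∀ c, lam (y c) ≠ 0
  · exact mul_le_mul_of_nonneg_left (h p y hy) (Finset.prod_nonneg fun i _ => hl.1 _)
  · push Not at hy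
    obtain ⟨c, hc⟩ := hy
    rw [Finset.prod_eq_zero (mem_univ c) hc]
    simp

lemma du_EE2_sum {P ι X T : Type} [Fintype P] [Fintype ι] [DecidableEq ι] [Fintype X]
    [DecidableEq T] (μ : P → ℝ) (lam : X → ℝ) (t : Finset T) (a : T → ℝ)
    (F : T → P → (ι → X) → (ι → X) → ℝ) :
    EE2 μ lam (fun p h h' => ∑ s ∈ t, a s * F s p h h') = ∑ s ∈ t, a s * EE2 μ lam (F s) := by
  induction t using Finset.induction_on with
  | empty => simp [EE2]
  | insert k t hk ih =>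
    rw [Finset.sum_insert hk, ← ih]
    unfold EE2
    simp only [Finset.sum_insert hk, mul_add, Finset.sum_add_distrib, Finset.mul_sum]
    congr 1
    refine Finset.sum_congr rfl fun p _ => Finset.sum_congr rfl fun h _ =>
      Finset.sum_congr rfl fun h' _ => ?_
    ring

lemma du_expand {P ι X : Type} [Fintype P] [Fintype ι] [DecidableEq ι] [Fintype X]
    (μ : P → ℝ) (lam : X → ℝ) (N : Finset ι → P → (ι → X) → (ι → X) → ℝ) (η : ℝ)
    (hN : ∀ S : Finset (Finset ι), |EE2 μ lam (fun p h h' => ∏ ω ∈ S, N ω p h h') - 1| ≤ η) :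
    |EE2 μ lam (fun p h h' => ∏ ω ∈ (univ : Finset ι).powerset, (N ω p h h' - 1))| ≤
      2 ^ (2 ^ Fintype.card ι) * η := by
  classical
  have h1 : ∀ p h h', ∏ ω ∈ (univ : Finset ι).powerset, (N ω p h h' - 1) =
      ∑ S ∈ (univ : Finset ι).powerset.powerset,
        (∏ ω ∈ (univ : Finset ι).powerset \ S, (-1 : ℝ)) * ∏ ω ∈ S, N ω p h h' := by
    intro p h h'
    have := Finset.prod_add (fun ω => N ω p h h') (fun _ => (-1 : ℝ)) (univ : Finset ι).powerset
    simp only [← sub_eq_add_neg] at this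
    rw [this]
    exact Finset.sum_congr rfl fun S _ => mul_comm _ _
  have h2 : ∑ S ∈ (univ : Finset ι).powerset.powerset,
      (∏ ω ∈ (univ : Finset ι).powerset \ S, (-1 : ℝ)) = 0 := by
    have := Finset.prod_add (fun _ => (1 : ℝ)) (fun _ => (-1 : ℝ)) (univ : Finset ι).powerset
    simp only [Finset.prod_const_one, one_mul] at this
    rw [← this]
    refine Finset.prod_eq_zero (i := ∅) (by simp) ?_
    ring
  have h3 : EE2 μ lam (fun p h h' => ∏ ω ∈ (univ : Finset ι).powerset, (N ω p h h' - 1)) =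
      ∑ S ∈ (univ : Finset ι).powerset.powerset,
        (∏ ω ∈ (univ : Finset ι).powerset \ S, (-1 : ℝ)) *
          (EE2 μ lam (fun p h h' => ∏ ω ∈ S, N ω p h h') - 1) := by
    have h4 : (fun (p : P) (h h' : ι → X) =>
        ∏ ω ∈ (univ : Finset ι).powerset, (N ω p h h' - 1)) =
        (fun (p : P) (h h' : ι → X) => ∑ S ∈ (univ : Finset ι).powerset.powerset,
        (∏ ω ∈ (univ : Finset ι).powerset \ S, (-1 : ℝ)) * ∏ ω ∈ S, N ω p h h') := by
      funext p h h'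
      exact h1 p h h'
    rw [h4, du_EE2_sum]
    simp only [mul_sub, Finset.sum_sub_distrib, mul_one]
    rw [h2, sub_zero]
  rw [h3]
  refine (Finset.abs_sum_le_sum_abs _ _).trans ?_
  have h5 : ∀ S ∈ (univ : Finset ι).powerset.powerset,
      |(∏ ω ∈ (univ : Finset ι).powerset \ S, (-1 : ℝ)) *
          (EE2 μ lam (fun p h h' => ∏ ω ∈ S, N ω p h h') - 1)| ≤ η := by
    intro S _
    rw [abs_mul, Finset.abs_prod]
    simp only [abs_neg, abs_one, Finset.prod_const_one, one_mul]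
    exact hN S
  refine (Finset.sum_le_sum h5).trans ?_
  rw [Finset.sum_const, Finset.card_powerset, Finset.card_powerset, Finset.card_univ,
    nsmul_eq_mul]
  push_cast
  exact le_rfl

theorem dual_products (κ : ℕ) (hκ : 2 ≤ κ) (K : ℕ) (ε : ℝ) (hε : 0 < ε) :
    ∃ η : ℝ, 0 < η ∧ ∃ τ : ℝ, 0 < τ ∧
    ∀ (Θ Γ : Type) [Fintype Θ] [Nonempty Θ] [Fintype Γ] [AddCommGroup Γ] (lam lam' : Γ → ℝ),
    IsPW lam → IsPW lam' → ∀ ν : Θ × Γ → ℝ, (∀ p, 0 ≤ ν p) → LFd κ lam' ν η →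
    NearInv κ lam lam' τ → ∀ K' : ℕ, K' ≤ K → ∀ φ : Fin K' → Θ × Γ → ℝ,
    (∀ a, φ a ∈ TestFn κ lam) →
    |∑ p, unif (Θ × Γ) p * ((ν p - 1) * ∏ a, φ a p)| ≤ ε := by
  refine ⟨min 1 ((ε / 4) ^ (2 ^ κ)), lt_min one_pos (by positivity),
    ε / (6 * (K + 1) * (κ + 1)), by positivity, ?_⟩
  intro Θ Γ _ _ _ _ lam lam' hl hl' ν hν hLF hN K' hK' φ hφ
  classical
  generalize hη : min 1 ((ε / 4) ^ (2 ^ κ)) = η at hLF
  generalize hτ : ε / (6 * ((K : ℝ) + 1) * (κ + 1)) = τ at hN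
  have hη1 : η ≤ 1 := hη ▸ min_le_left _ _
  have hη2 : η ≤ (ε / 4) ^ (2 ^ κ) := hη ▸ min_le_right _ _
  have hτ0 : 0 ≤ τ := by rw [← hτ]; positivity
  have hA := fun a => absorb κ hκ lam lam' hl τ hτ0 hN (φ a) (hφ a)
  choose v hv1 hv2 hv3 using hA
  have hunif : IsPW (unif (Θ × Γ)) := by
    refine ⟨fun x => by unfold unif; positivity, ?_⟩
    have hne : (Fintype.card (Θ × Γ) : ℝ) ≠ 0 := by
      have : Nonempty (Θ × Γ) := ⟨(Classical.arbitrary Θ, 0)⟩
      exact_mod_cast Fintype.card_ne_zero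
    simp only [unif, Finset.sum_const, Finset.card_univ, nsmul_eq_mul]
    field_simp
  let sh : (Fin κ → Γ) → Γ := fun y => κ.factorial • ∑ c, y c
  let G : Θ × Γ → (Fin κ → Γ) → ℝ := fun p y => ν (p.1, p.2 + sh y) - 1
  let X : Fin K' → Θ × Γ → (Fin κ → Γ) → ℝ := fun a p y => φ a (p.1, p.2 + sh y)
  let Y : Fin K' → Θ × Γ → (Fin κ → Γ) → ℝ := fun a p y =>
    ∑ h : Fin κ → Γ, (∏ i, lam (h i)) * ∏ i, v a i p h y
  have hsum1 : ∀ f : (Fin κ → Γ) → ℝ, (∀ h, 0 ≤ f h ∧ f h ≤ 1) →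
      |∑ h : Fin κ → Γ, (∏ i, lam (h i)) * f h| ≤ 1 := by
    intro f hf
    rw [abs_of_nonneg (Finset.sum_nonneg fun h _ =>
      mul_nonneg (Finset.prod_nonneg fun i _ => hl.1 _) (hf h).1), ← sum_pi_weight lam hl (ι := Fin κ)]
    exact Finset.sum_le_sum fun h _ =>
      mul_le_of_le_one_right (Finset.prod_nonneg fun i _ => hl.1 _) (hf h).2
  have hφ1 : ∀ a p, |φ a p| ≤ 1 := by
    intro a p
    rcases hφ a with h | ⟨j, u, hu1, hu2, h⟩
    · rw [h]; simp
    · rw [h]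
      exact hsum1 _ fun h => ⟨Finset.prod_nonneg fun i _ => (hu2 i _ _).1,
        Finset.prod_le_one (fun i _ => (hu2 i _ _).1) fun i _ => (hu2 i _ _).2⟩
  have hY1 : ∀ a p y, |Y a p y| ≤ 1 := by
    intro a p y
    exact hsum1 _ fun h => ⟨Finset.prod_nonneg fun i _ => (hv2 a i _ _ _).1,
        Finset.prod_le_one (fun i _ => (hv2 a i _ _ _).1) fun i _ => (hv2 a i _ _ _).2⟩
  -- step 1
  have s1 : ∑ p, unif (Θ × Γ) p * ((ν p - 1) * ∏ a, φ a p) =
      EE (unif (Θ × Γ)) lam' (fun p y => G p y * ∏ a, X a p y) :=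
    (du_EE_shift lam' hl' (fun p => (ν p - 1) * ∏ a, φ a p) sh).symm
  -- mean of ν
  have hmean : EE (unif (Θ × Γ)) lam' (fun p (y : Fin κ → Γ) => ν (p.1, p.2 + sh y)) ≤ 2 := by
    have h1 := hLF {∅}
    simp only [Finset.prod_singleton] at h1
    have h2 := EE2_mix (unif (Θ × Γ)) lam' hl' (∅ : Finset (Fin κ))
      (fun p y => ν (p.1, p.2 + sh y))
    rw [← h2]
    have h3 := (abs_le.1 h1).2
    have h4 : EE2 (unif (Θ × Γ)) lam' (fun p h h' => ν (p.1, p.2 + sh (mix h h' (∅ : Finset (Fin κ)))))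
      = EE2 (unif (Θ × Γ)) lam' (fun p y y' =>
        ν (p.1, p.2 + κ.factorial • ∑ c : Fin κ, mix y y' (∅ : Finset (Fin κ)) c)) := rfl
    rw [h4]
    linarith
  -- step 2
  have s2 : |EE (unif (Θ × Γ)) lam' (fun p y => G p y * ∏ a, X a p y) -
      EE (unif (Θ × Γ)) lam' (fun p y => G p y * ∏ a, Y a p y)| ≤ ε / 2 := by
    rw [← EE_sub]
    have h1 : |EE (unif (Θ × Γ)) lam' (fun p y => G p y * ∏ a, X a p y - G p y * ∏ a, Y a p y)| ≤
        EE (unif (Θ × Γ)) lam' (fun p (y : Fin κ → Γ) =>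
          (K' * ((κ + 1) * τ)) * ν (p.1, p.2 + sh y) + K' * ((κ + 1) * τ)) := by
      refine du_abs _ _ hunif hl' _ _ fun p y hy => ?_
      rw [← mul_sub, abs_mul]
      have h2 : |∏ a, X a p y - ∏ a, Y a p y| ≤ K' * ((κ + 1) * τ) := by
        have := du_hybrid (fun a => X a p y) (fun a => Y a p y) ((κ + 1) * τ)
          (fun a => hφ1 a _) (fun a => hY1 a p y) (fun a => hv3 a p y hy) univ
        simpa using this
      have h3 : |G p y| ≤ ν (p.1, p.2 + sh y) + 1 := by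
        have := hν (p.1, p.2 + sh y)
        rw [abs_le]
        constructor <;> simp only [G] <;> linarith
      have h4 : 0 ≤ (K' : ℝ) * ((κ + 1) * τ) := by positivity
      calc |G p y| * |∏ a, X a p y - ∏ a, Y a p y|
          ≤ (ν (p.1, p.2 + sh y) + 1) * (K' * ((κ + 1) * τ)) :=
            mul_le_mul h3 h2 (abs_nonneg _) (by linarith [hν (p.1, p.2 + sh y)])
        _ = _ := by ring
    refine h1.trans ?_
    rw [EE_add, EE_const_mul, EE_one _ _ hunif hl']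
    have h5 : (K' : ℝ) * ((κ + 1) * τ) ≤ ε / 6 := by
      have hK : (K' : ℝ) ≤ K + 1 := by
        have : (K' : ℝ) ≤ K := by exact_mod_cast hK'
        linarith
      have h6 : ((K : ℝ) + 1) * ((κ + 1) * τ) = ε / 6 := by
        rw [← hτ]
        field_simp
      rw [← h6]
      exact mul_le_mul_of_nonneg_right hK (by positivity)
    have h7 : 0 ≤ (K' : ℝ) * ((κ + 1) * τ) := by positivity
    nlinarith [mul_le_mul_of_nonneg_left hmean h7]
  -- step 3
  let WW : (Fin K' → Fin κ → Γ) → ℝ := fun H => ∏ a, ∏ i, lam (H a i)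
  let μ' : (Θ × Γ) × (Fin K' → Fin κ → Γ) → ℝ := fun q => unif (Θ × Γ) q.1 * WW q.2
  let c : Fin κ → (Θ × Γ) × (Fin K' → Fin κ → Γ) → (Fin κ → Γ) → ℝ := fun i q y =>
    ∏ a, v a i q.1 (q.2 a) y
  have hWWs : ∑ H, WW H = 1 := by
    have h1 := Finset.prod_univ_sum (fun _ : Fin K' => (univ : Finset (Fin κ → Γ)))
      (fun _ (h : Fin κ → Γ) => ∏ i, lam (h i))
    rw [Fintype.piFinset_univ] at h1
    simp only [WW]
    rw [← h1]
    refine Finset.prod_eq_one fun a _ => ?_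
    exact sum_pi_weight (ι := Fin κ) lam hl
  have hWW0 : ∀ H, 0 ≤ WW H := fun H =>
    Finset.prod_nonneg fun a _ => Finset.prod_nonneg fun i _ => hl.1 _
  have hμ' : IsPW μ' := by
    refine ⟨fun q => mul_nonneg (hunif.1 _) (hWW0 _), ?_⟩
    simp only [μ']
    rw [Fintype.sum_prod_type]
    simp only [← Finset.mul_sum, hWWs, mul_one]
    exact hunif.2
  have s3 : EE (unif (Θ × Γ)) lam' (fun p y => G p y * ∏ a, Y a p y) =
      EE μ' lam' (fun q (y : Fin κ → Γ) =>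
        G q.1 y * ∏ i ∈ (univ : Finset (Fin κ)), c i q y) := by
    unfold EE
    conv_rhs => rw [Fintype.sum_prod_type]
    refine Finset.sum_congr rfl fun p _ => ?_
    simp only [μ', Finset.mul_sum]
    rw [Finset.sum_comm]
    refine Finset.sum_congr rfl fun y _ => ?_
    have h1 : ∏ a, Y a p y = ∑ H : Fin K' → Fin κ → Γ, WW H * ∏ i, c i (p, H) y := by
      have h2 := Finset.prod_univ_sum (fun _ : Fin K' => (univ : Finset (Fin κ → Γ)))
        (fun a (h : Fin κ → Γ) => (∏ i, lam (h i)) * ∏ i, v a i p h y)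
      rw [Fintype.piFinset_univ] at h2
      simp only [Y]
      rw [h2]
      refine Finset.sum_congr rfl fun H _ => ?_
      rw [Finset.prod_mul_distrib]
      simp only [WW, c]
      congr 1
      exact Finset.prod_comm
    rw [h1]
    simp only [Finset.mul_sum]
    refine Finset.sum_congr rfl fun H _ => ?_
    ring
  -- step 4
  have s4 := bcs μ' lam' hμ' hl' (univ : Finset (Fin κ)) (fun q y => G q.1 y) c
    (fun _ _ _ => 1)
    (fun i _ q y x => by
      simp only [c]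
      exact Finset.prod_congr rfl fun a _ => hv1 a i _ _ y x)
    (fun i _ q y x => rfl)
    (fun i _ q y => by
      simp only [c]
      rw [Finset.abs_prod]
      refine Finset.prod_le_one (fun _ _ => abs_nonneg _) fun a _ => ?_
      rw [abs_of_nonneg (hv2 a i _ _ _).1]
      exact (hv2 a i _ _ _).2)
    1 le_rfl
    (fun i _ J' _ => by
      simp only [Finset.prod_const_one]
      have h1 := EE2_mix μ' lam' hl' (∅ : Finset (Fin κ)) (fun _ _ => (1 : ℝ))
      rw [h1, EE_one _ _ hμ' hl'])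
  simp only [one_pow, one_mul, Finset.prod_const_one, mul_one] at s4
  rw [Finset.card_univ, Fintype.card_fin] at s4
  -- step 5
  have s5 : EE2 μ' lam' (fun q (h h' : Fin κ → Γ) =>
      ∏ ω ∈ (univ : Finset (Fin κ)).powerset, G q.1 (mix h h' ω)) =
      EE2 (unif (Θ × Γ)) lam' (fun p h h' =>
        ∏ ω ∈ (univ : Finset (Fin κ)).powerset,
          (ν (p.1, p.2 + κ.factorial • ∑ c : Fin κ, mix h h' ω c) - 1)) := by
    unfold EE2
    conv_lhs => rw [Fintype.sum_prod_type]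
    refine Finset.sum_congr rfl fun p _ => ?_
    simp only [μ']
    rw [← Finset.sum_mul, ← Finset.mul_sum, hWWs, mul_one]
  -- step 6
  have s6 := du_expand (unif (Θ × Γ)) lam'
    (fun (ω : Finset (Fin κ)) p h h' => ν (p.1, p.2 + κ.factorial • ∑ c : Fin κ, mix h h' ω c))
    η (fun S => hLF S)
  rw [Fintype.card_fin] at s6
  have s7 : |EE (unif (Θ × Γ)) lam' (fun p y => G p y * ∏ a, Y a p y)| ≤ ε / 2 := by
    rw [s3]
    have h1 : |EE μ' lam' (fun q y => G q.1 y * ∏ i ∈ (univ : Finset (Fin κ)), c i q y)| ^ (2 ^ κ)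
        ≤ (ε / 2) ^ (2 ^ κ) := by
      have hev : Even (2 ^ κ) := (Nat.even_pow.2 ⟨even_two, by omega⟩)
      rw [hev.pow_abs]
      refine s4.trans ?_
      rw [s5]
      refine (le_abs_self _).trans (s6.trans ?_)
      have h2 : (ε / 2) ^ (2 ^ κ) = 2 ^ (2 ^ κ) * (ε / 4) ^ (2 ^ κ) := by
        rw [← mul_pow]
        congr 1
        ring
      rw [h2]
      exact mul_le_mul_of_nonneg_left hη2 (by positivity)
    exact le_of_pow_le_pow_left₀ (by positivity) (by positivity) h1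
  rw [s1]
  have h8 := abs_add_le
    (EE (unif (Θ × Γ)) lam' (fun p y => G p y * ∏ a, X a p y) -
      EE (unif (Θ × Γ)) lam' (fun p y => G p y * ∏ a, Y a p y))
    (EE (unif (Θ × Γ)) lam' (fun p y => G p y * ∏ a, Y a p y))
  rw [sub_add_cancel] at h8
  linarith

end Pool.Agent.H16.GPS
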