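import Pool.Agent.H16.GPS.Rel.Count
import Pool.Agent.H16.GPS.Rel.DenseModel
import Pool.Agent.H16.GPS.Rel.Dual

/-!
JOB GPS-RELMAIN (MP_c183ae_nt). Relative theorem.

PROOF. `ρ = c₁/2`; `ε'`, `η₁` from `count_all κ κ` for `ρ` (sparse set `univ`); `ε = min ε' (δ/2)`; `K₀`, `η₂` from
`dense_model` for `ε`; `η₃, τ` from `dual_products κ hκ K₀ η₂`; `η = min η₁ η₃`. `dense_model` with `Φ = TestFn κ lam`
(test functions have values in `[0,1]`: averages of products) gives `ft`. The constant function `1` is a test function, so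
`∑ unif * ft ≥ δ - ε ≥ δ/2`, hence `Lam ft ≥ c₁`. Counting: `G j p h = f (p.1, p.2 + LL j h)`,
`Gt j p h = ft (p.1, p.2 + LL j h)`, `N j p h = ν (..)`, all independent of coordinate `j` (the coefficient of `h j` in
`LL j h` is `0`). `Close`: `EE (G j - Gt j) ∏_{i≠j} u i` = (translate `p.2` by `LL j h` for every `h`)
`∑ p, unif p * (f p - ft p) * φ p` with `φ p = ∑ h ∏ lam (h i) ∏_{i≠j} u i (p.1, p.2 - LL j h) h ∈ TestFn`. So
`|Lam f - Lam ft| ≤ c₁/2`. ~120 lines.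
-/

set_option autoImplicit false

open Finset

namespace Pool.Agent.H16.GPS

private theorem rm_unif (X : Type) [Fintype X] [Nonempty X] : IsPW (unif X) := by
  unfold IsPW unif
  refine ⟨fun x => by positivity, ?_⟩
  rw [Finset.sum_const, Finset.card_univ, nsmul_eq_mul]
  have h : (Fintype.card X : ℝ) ≠ 0 := by
    have := Fintype.card_ne_zero (α := X)
    exact_mod_cast this
  field_simp

private theorem rm_LL {κ : ℕ} {Γ : Type} [AddCommGroup Γ] (j : Fin κ) (h : Fin κ → Γ) (x : Γ) :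
    LL j (Function.update h j x) = LL j h := by
  unfold LL
  refine Finset.sum_congr rfl fun i _ => ?_
  by_cases hi : i = j
  · subst hi
    simp
  · rw [Function.update_of_ne hi]

private theorem rm_test {Θ Γ : Type} [Fintype Θ] [Fintype Γ] [AddCommGroup Γ] (κ : ℕ)
    (lam : Γ → ℝ) (hl : IsPW lam) (φ : Θ × Γ → ℝ) (hφ : φ ∈ TestFn κ lam) (x : Θ × Γ) :
    |φ x| ≤ 1 := by
  rcases hφ with h | ⟨j, u, _, hu, h⟩
  · rw [h]
    simp
  · rw [h x]
    have hw : ∀ h : Fin κ → Γ, 0 ≤ ∏ i, lam (h i) := fun h => Finset.prod_nonneg fun i _ => hl.1 _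
    have h1 : ∀ g : Fin κ → Γ, 0 ≤ ∏ i ∈ univ.erase j, u i (x.1, x.2 - LL j g) g :=
      fun g => Finset.prod_nonneg fun i _ => (hu _ _ _).1
    have h2 : ∀ g : Fin κ → Γ, ∏ i ∈ univ.erase j, u i (x.1, x.2 - LL j g) g ≤ 1 :=
      fun g => Finset.prod_le_one (fun i _ => (hu _ _ _).1) (fun i _ => (hu _ _ _).2)
    rw [abs_of_nonneg (Finset.sum_nonneg fun g _ => mul_nonneg (hw g) (h1 g))]
    calc ∑ g : Fin κ → Γ, (∏ i, lam (g i)) * ∏ i ∈ univ.erase j, u i (x.1, x.2 - LL j g) g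
        ≤ ∑ g : Fin κ → Γ, (∏ i, lam (g i)) * 1 :=
          Finset.sum_le_sum fun g _ => mul_le_mul_of_nonneg_left (h2 g) (hw g)
      _ = 1 := by
          simp only [mul_one]
          exact sum_pi_weight lam hl

private theorem rm_shift {Θ Γ : Type} [Fintype Θ] [Fintype Γ] [AddCommGroup Γ] (g : Γ)
    (F : Θ × Γ → ℝ) : ∑ p : Θ × Γ, F p = ∑ p : Θ × Γ, F (p.1, p.2 - g) := by
  rw [Fintype.sum_prod_type, Fintype.sum_prod_type]
  refine Finset.sum_congr rfl fun a _ => ?_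
  exact (Equiv.sum_comp (Equiv.subRight g) (fun x => F (a, x))).symm

private theorem rm_close {Θ Γ : Type} [Fintype Θ] [Fintype Γ] [AddCommGroup Γ] (κ : ℕ)
    (lam : Γ → ℝ) (f ft : Θ × Γ → ℝ) (j : Fin κ) (u : Fin κ → Θ × Γ → (Fin κ → Γ) → ℝ) :
    EE (unif (Θ × Γ)) lam (fun p (h : Fin κ → Γ) =>
      (f (p.1, p.2 + LL j h) - ft (p.1, p.2 + LL j h)) * ∏ i ∈ univ.erase j, u i p h) =
    ∑ p, unif (Θ × Γ) p * ((f p - ft p) * ∑ h : Fin κ → Γ, (∏ i, lam (h i)) *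
      ∏ i ∈ univ.erase j, u i (p.1, p.2 - LL j h) h) := by
  unfold EE unif
  simp only [Finset.mul_sum]
  rw [Finset.sum_comm]
  conv_rhs => rw [Finset.sum_comm]
  refine Finset.sum_congr rfl fun h _ => ?_
  rw [rm_shift (LL j h)]
  refine Finset.sum_congr rfl fun p _ => ?_
  simp only [sub_add_cancel]
  ring

theorem rel_main (κ : ℕ) (hκ : 2 ≤ κ) (δ c₁ : ℝ) (hδ : 0 < δ) (hc : 0 < c₁) :
    ∃ η : ℝ, 0 < η ∧ ∃ τ : ℝ, 0 < τ ∧
    ∀ (Θ Γ : Type) [Fintype Θ] [Nonempty Θ] [Fintype Γ] [AddCommGroup Γ] (lam lam' : Γ → ℝ),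
    IsPW lam → IsPW lam' → ∀ ν f : Θ × Γ → ℝ, LFnu κ lam ν η → LFd κ lam' ν η →
    NearInv κ lam lam' τ →
    (∀ g : Θ × Γ → ℝ, (∀ p, 0 ≤ g p ∧ g p ≤ 1) → δ / 2 ≤ ∑ p, unif (Θ × Γ) p * g p →
      c₁ ≤ Lam κ lam g) →
    (∀ p, 0 ≤ f p ∧ f p ≤ ν p) → δ ≤ ∑ p, unif (Θ × Γ) p * f p → c₁ / 2 ≤ Lam κ lam f := by
  obtain ⟨ε', hε', η₁, hη₁, _, hcount⟩ := count_all κ κ hκ (c₁ / 2) (by linarith)
  obtain ⟨K₀, η₂, hη₂, hdm⟩ := dense_model (min ε' (δ / 2)) (lt_min hε' (by linarith))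
  obtain ⟨η₃, hη₃, τ, hτ, hdual⟩ := dual_products κ hκ K₀ η₂ hη₂
  refine ⟨min η₁ η₃, lt_min hη₁ hη₃, τ, hτ, ?_⟩
  intro Θ Γ _ _ _ _ lam lam' hl hl' ν f hLF hLFd hNI hg hf hfδ
  have hu := rm_unif (Θ × Γ)
  have hν : ∀ p, 0 ≤ ν p := fun p => (hf p).1.trans (hf p).2
  have hLF1 : LFnu κ lam ν η₁ := fun S hS => (hLF S hS).trans (min_le_left _ _)
  have hLF2 : LFd κ lam' ν η₃ := fun S => (hLFd S).trans (min_le_right _ _)
  obtain ⟨ft, hft, hclose⟩ := hdm (Θ × Γ) (unif (Θ × Γ)) hu ν f hf (TestFn κ lam)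
    (fun φ hφ x => rm_test κ lam hl φ hφ x)
    (fun K hK φ hφ => hdual Θ Γ lam lam' hl hl' ν hν hLF2 hNI K hK φ hφ)
  have h1 : δ / 2 ≤ ∑ p, unif (Θ × Γ) p * ft p := by
    have h2 := (hclose (fun _ => 1) (Or.inl rfl)).trans (min_le_right _ _)
    have h3 : ∑ x, unif (Θ × Γ) x * ((f x - ft x) * 1) =
        ∑ p, unif (Θ × Γ) p * f p - ∑ p, unif (Θ × Γ) p * ft p := by
      rw [← Finset.sum_sub_distrib]
      refine Finset.sum_congr rfl fun p _ => ?_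
      ring
    rw [h3] at h2
    linarith [(abs_le.1 h2).2]
  have h4 := hg ft hft h1
  have h5 := hcount (Θ × Γ) Γ (unif (Θ × Γ)) lam hu hl
    (fun j p h => ν (p.1, p.2 + LL j h)) (fun j p h => f (p.1, p.2 + LL j h))
    (fun j p h => ft (p.1, p.2 + LL j h)) (fun j p h => hν _)
    (fun j p h x => by simp only [rm_LL]) (fun j p h x => by simp only [rm_LL])
    (fun j p h x => by simp only [rm_LL]) hLF1 univ (by simp)
    (fun j p h => by
      unfold Nh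
      rw [if_pos (Finset.mem_univ j)]
      exact hf _) (fun j p h => hft _)
    (fun j u hu1 hu2 => by
      rw [rm_close κ lam f ft j u]
      exact (hclose _ (Or.inr ⟨j, u, hu1, hu2, fun p => rfl⟩)).trans (min_le_left _ _))
  have h6 : |Lam κ lam f - Lam κ lam ft| ≤ c₁ / 2 := h5
  linarith [(abs_le.1 h6).1]

end Pool.Agent.H16.GPS
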