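import Pool.Agent.H16.GPS.Rel.Basic

/-!
JOB GPS-COIN (MP_c183ae_nt). The linear forms condition from correlations at distinct points.

PROOF of `lf_of_corr`. Let `S` be a set of pairs `(j, ω)`, `j ∉ ω`, `#S ≤ κ 2^κ =: t`. For given `h, h'` and the base point `x` the
points are `x_q = x + LL q.1 (mix h h' q.2)`, `q ∈ S`; whether they are distinct depends only on `(h, h')`. If they are distinct,
the average over `A : Θ` of `∏ q ∈ S, ν (A, x_q)` is `1 + O(ε)` by `hcorr` (the set of the points `x_q`). If not, it lies in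
`[0, Bd^t]`, so it differs from `1` by at most `Bd^t + 1`. The probability (over `h, h'`) that `x_q = x_{q'}` for given
`q ≠ q'` is at most `a`: `LL j (mix h h' ω) - LL j' (mix h h' ω')` is a linear form in the `2κ` variables `h i, h' i`, and some
variable has a coefficient `c` with `0 < |c| < κ`: if `ω = ω'` then `j ≠ j'` and for any `i` the coefficient of `h i` (`i ∉ ω`) or
`h' i` (`i ∈ ω`) is `j - j'`; if `i ∈ ω \ ω'` the coefficient of `h' i` is `j - i ≠ 0` (`j ∉ ω`); if `i ∈ ω' \ ω` that of `h' i` is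
`-(j' - i) ≠ 0`. Fix all the other variables: `c • g = g₀` has at most one solution `g` (`hinj`), of weight `≤ a`
(`sum_pi_update`). Union bound over `t²` pairs. ~220 lines.
-/

set_option autoImplicit false

open Finset

namespace Pool.Agent.H16.GPS

section coin_EE2
variable {P ι X : Type} [Fintype P] [Fintype ι] [DecidableEq ι] [Fintype X]

lemma coin_EE2_eq (μ : P → ℝ) (lam : X → ℝ) (F : P → (ι → X) → (ι → X) → ℝ) :
    EE2 μ lam F = ∑ p, ∑ h : ι → X, ∑ h' : ι → X,
      μ p * ((∏ i, lam (h i)) * ((∏ i, lam (h' i)) * F p h h')) := by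
  simp only [EE2, Finset.mul_sum]

lemma coin_EE2_const (μ : P → ℝ) (lam : X → ℝ) (hμ : IsPW μ) (hl : IsPW lam) (c : ℝ) :
    EE2 μ lam (fun (_ : P) (_ _ : ι → X) => c) = c := by
  simp only [EE2]
  rw [← Finset.sum_mul, hμ.2, one_mul, ← Finset.sum_mul, sum_pi_weight lam hl, one_mul,
    ← Finset.sum_mul, sum_pi_weight lam hl, one_mul]

lemma coin_EE2_sub (μ : P → ℝ) (lam : X → ℝ) (F G : P → (ι → X) → (ι → X) → ℝ) :
    EE2 μ lam (fun p h h' => F p h h' - G p h h') = EE2 μ lam F - EE2 μ lam G := by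
  simp only [coin_EE2_eq, mul_sub, Finset.sum_sub_distrib]

lemma coin_EE2_add (μ : P → ℝ) (lam : X → ℝ) (F G : P → (ι → X) → (ι → X) → ℝ) :
    EE2 μ lam (fun p h h' => F p h h' + G p h h') = EE2 μ lam F + EE2 μ lam G := by
  simp only [coin_EE2_eq, mul_add, Finset.sum_add_distrib]

lemma coin_EE2_const_mul (μ : P → ℝ) (lam : X → ℝ) (c : ℝ)
    (F : P → (ι → X) → (ι → X) → ℝ) :
    EE2 μ lam (fun p h h' => c * F p h h') = c * EE2 μ lam F := by
  simp only [coin_EE2_eq, Finset.mul_sum]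
  refine Finset.sum_congr rfl fun p _ => Finset.sum_congr rfl fun h _ =>
    Finset.sum_congr rfl fun h' _ => ?_
  ring

lemma coin_EE2_sum {σ : Type} (s : Finset σ) (μ : P → ℝ) (lam : X → ℝ)
    (F : σ → P → (ι → X) → (ι → X) → ℝ) :
    EE2 μ lam (fun p h h' => ∑ q ∈ s, F q p h h') = ∑ q ∈ s, EE2 μ lam (F q) := by
  classical
  induction s using Finset.induction_on with
  | empty => simp [coin_EE2_eq]
  | insert a s ha ih =>
    simp only [Finset.sum_insert ha]
    rw [coin_EE2_add, ih]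

lemma coin_abs_EE2_le (μ : P → ℝ) (lam : X → ℝ) (hμ : IsPW μ) (hl : IsPW lam)
    (F G : P → (ι → X) → (ι → X) → ℝ) (h : ∀ p h h', |F p h h'| ≤ G p h h') :
    |EE2 μ lam F| ≤ EE2 μ lam G := by
  rw [abs_le]
  constructor
  · have h1 : EE2 μ lam (fun p h h' => (-1) * G p h h') ≤ EE2 μ lam F := by
      refine EE2_mono μ lam hμ hl _ _ fun p h1 h2 => ?_
      have := (abs_le.1 (h p h1 h2)).1
      linarith
    rw [coin_EE2_const_mul] at h1
    linarith
  · exact EE2_mono μ lam hμ hl _ _ fun p h1 h2 => (abs_le.1 (h p h1 h2)).2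

end coin_EE2

section coin_prob
variable {ι X : Type} [Fintype ι] [DecidableEq ι] [Fintype X]

open Classical in
lemma coin_prob_le (lam : X → ℝ) (hl : IsPW lam) (a : ℝ) (ha : ∀ g, lam g ≤ a) (ha0 : 0 ≤ a)
    (j : ι) (Q : (ι → X) → Prop)
    (hQ : ∀ h x x', Q (Function.update h j x) → Q (Function.update h j x') → x = x') :
    ∑ h : ι → X, (∏ i, lam (h i)) * (if Q h then (1 : ℝ) else 0) ≤ a := by
  rw [sum_pi_update lam hl j]
  have h1 : ∀ h : ι → X, ∑ x, lam x * (if Q (Function.update h j x) then (1 : ℝ) else 0) ≤ a := by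
    intro h
    by_cases hex : ∃ x, Q (Function.update h j x)
    · obtain ⟨x₀, hx₀⟩ := hex
      rw [Finset.sum_eq_single x₀]
      · rw [if_pos hx₀, mul_one]; exact ha x₀
      · intro x _ hx
        rw [if_neg, mul_zero]
        intro hc
        exact hx (hQ h x x₀ hc hx₀)
      · intro hx; exact absurd (Finset.mem_univ _) hx
    · push Not at hex
      rw [Finset.sum_eq_zero]
      · exact ha0
      · intro x _
        rw [if_neg (hex x), mul_zero]
  calc ∑ h : ι → X, (∏ i, lam (h i)) *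
        ∑ x, lam x * (if Q (Function.update h j x) then (1 : ℝ) else 0)
      ≤ ∑ h : ι → X, (∏ i, lam (h i)) * a :=
        Finset.sum_le_sum fun h _ => mul_le_mul_of_nonneg_left (h1 h)
          (Finset.prod_nonneg fun i _ => hl.1 _)
    _ = a := by rw [← Finset.sum_mul, sum_pi_weight lam hl, one_mul]

end coin_prob

lemma coin_LL_sub {κ : ℕ} {Γ : Type} [AddCommGroup Γ] (j i : Fin κ) (g g' : Fin κ → Γ)
    (h : ∀ l, l ≠ i → g l = g' l) :
    LL j g - LL j g' = (((j : ℕ) : ℤ) - ((i : ℕ) : ℤ)) • (g i - g' i) := by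
  unfold LL
  rw [← Finset.sum_sub_distrib]
  rw [Finset.sum_eq_single i]
  · rw [smul_sub]
  · intro l _ hl
    rw [h l hl, sub_self]
  · intro hi; exact absurd (Finset.mem_univ _) hi

section coin_pair

variable {κ : ℕ} {Γ : Type} [Fintype Γ] [AddCommGroup Γ] (lam : Γ → ℝ) (hl : IsPW lam) (a : ℝ)
  (ha : ∀ g, lam g ≤ a)
  (hinj : ∀ c : ℤ, c ≠ 0 → |c| ≤ κ → Function.Injective (fun g : Γ => c • g))

omit [Fintype Γ] in
include hinj in
lemma coin_inj {j i : Fin κ} (hji : j ≠ i) {x x' : Γ}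
    (h : (((j : ℕ) : ℤ) - ((i : ℕ) : ℤ)) • (x - x') = 0) : x = x' := by
  have h0 : ((j : ℕ) : ℤ) - ((i : ℕ) : ℤ) ≠ 0 := by
    have : (j : ℕ) ≠ (i : ℕ) := fun hh => hji (Fin.ext hh)
    omega
  have h1 : |((j : ℕ) : ℤ) - ((i : ℕ) : ℤ)| ≤ κ := by
    have := j.2
    have := i.2
    rw [abs_le]
    constructor <;> omega
  apply hinj _ h0 h1
  show (((j : ℕ) : ℤ) - ((i : ℕ) : ℤ)) • x = (((j : ℕ) : ℤ) - ((i : ℕ) : ℤ)) • x'
  rw [smul_sub, sub_eq_zero] at h
  exact h

open Classical in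
include hl ha hinj in
/-- the case `i ∈ ω \ ω'` -/
lemma coin_case2 (j j' : Fin κ) (ω ω' : Finset (Fin κ)) (hj : j ∉ ω) (i : Fin κ) (hi : i ∈ ω)
    (hi' : i ∉ ω') :
    ∑ h : Fin κ → Γ, (∏ l, lam (h l)) * ∑ h' : Fin κ → Γ, (∏ l, lam (h' l)) *
      (if LL j (mix h h' ω) = LL j' (mix h h' ω') then (1 : ℝ) else 0) ≤ a := by
  have ha0 : 0 ≤ a := (hl.1 0).trans (ha 0)
  have h1 : ∀ h : Fin κ → Γ, ∑ h' : Fin κ → Γ, (∏ l, lam (h' l)) *
      (if LL j (mix h h' ω) = LL j' (mix h h' ω') then (1 : ℝ) else 0) ≤ a := by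
    intro h
    refine coin_prob_le lam hl a ha ha0 i (fun h' => LL j (mix h h' ω) = LL j' (mix h h' ω')) ?_
    intro h' x x' hx hx'
    have e1 : mix h (Function.update h' i x) ω' = mix h (Function.update h' i x') ω' := by
      funext l
      unfold mix
      by_cases hl : l ∈ ω'
      · have hli : l ≠ i := fun hh => hi' (hh ▸ hl)
        simp [hl, hli]
      · simp [hl]
    have e2 := coin_LL_sub j i (mix h (Function.update h' i x) ω)
      (mix h (Function.update h' i x') ω) (fun l hli => by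
        unfold mix
        by_cases hl : l ∈ ω <;> simp [hl, hli])
    have e3 : mix h (Function.update h' i x) ω i = x := by simp [mix, hi]
    have e4 : mix h (Function.update h' i x') ω i = x' := by simp [mix, hi]
    rw [e3, e4] at e2
    have hx1 : LL j (mix h (Function.update h' i x) ω) =
      LL j' (mix h (Function.update h' i x) ω') := hx
    have hx2 : LL j (mix h (Function.update h' i x') ω) =
      LL j' (mix h (Function.update h' i x') ω') := hx'
    rw [hx1, hx2, e1, sub_self] at e2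
    have hji : j ≠ i := by
      rintro rfl
      exact hj hi
    exact coin_inj hinj hji e2.symm
  calc _ ≤ ∑ h : Fin κ → Γ, (∏ i, lam (h i)) * a :=
        Finset.sum_le_sum fun h _ => mul_le_mul_of_nonneg_left (h1 h)
          (Finset.prod_nonneg fun i _ => hl.1 _)
    _ = a := by rw [← Finset.sum_mul, sum_pi_weight lam hl, one_mul]

open Classical in
include hl ha hinj in
/-- the case `ω = ω'` -/
lemma coin_case1 (j j' : Fin κ) (ω : Finset (Fin κ)) (hj : j ∉ ω) (hjj : j ≠ j') :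
    ∑ h : Fin κ → Γ, (∏ l, lam (h l)) * ∑ h' : Fin κ → Γ, (∏ l, lam (h' l)) *
      (if LL j (mix h h' ω) = LL j' (mix h h' ω) then (1 : ℝ) else 0) ≤ a := by
  have ha0 : 0 ≤ a := (hl.1 0).trans (ha 0)
  have h1 : ∀ h' : Fin κ → Γ, ∑ h : Fin κ → Γ, (∏ l, lam (h l)) *
      (if LL j (mix h h' ω) = LL j' (mix h h' ω) then (1 : ℝ) else 0) ≤ a := by
    intro h'
    refine coin_prob_le lam hl a ha ha0 j (fun h => LL j (mix h h' ω) = LL j' (mix h h' ω)) ?_
    intro h x x' hx hx'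
    have hd : ∀ l, l ≠ j → mix (Function.update h j x) h' ω l =
        mix (Function.update h j x') h' ω l := by
      intro l hlj
      unfold mix
      by_cases hl : l ∈ ω <;> simp [hl, hlj]
    have e2 := coin_LL_sub j j (mix (Function.update h j x) h' ω)
      (mix (Function.update h j x') h' ω) hd
    have e2' := coin_LL_sub j' j (mix (Function.update h j x) h' ω)
      (mix (Function.update h j x') h' ω) hd
    have e3 : mix (Function.update h j x) h' ω j = x := by simp [mix, hj]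
    have e4 : mix (Function.update h j x') h' ω j = x' := by simp [mix, hj]
    rw [e3, e4] at e2 e2'
    have hx1 : LL j (mix (Function.update h j x) h' ω) =
      LL j' (mix (Function.update h j x) h' ω) := hx
    have hx2 : LL j (mix (Function.update h j x') h' ω) =
      LL j' (mix (Function.update h j x') h' ω) := hx'
    rw [hx1, hx2, sub_self, zero_smul] at e2
    rw [e2] at e2'
    exact coin_inj hinj (fun hh => hjj hh.symm) e2'.symm
  calc _ = ∑ h' : Fin κ → Γ, (∏ l, lam (h' l)) * ∑ h : Fin κ → Γ, (∏ l, lam (h l)) *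
      (if LL j (mix h h' ω) = LL j' (mix h h' ω) then (1 : ℝ) else 0) := by
        simp only [Finset.mul_sum]
        rw [Finset.sum_comm]
        refine Finset.sum_congr rfl fun h' _ => Finset.sum_congr rfl fun h _ => ?_
        ring
    _ ≤ ∑ h' : Fin κ → Γ, (∏ i, lam (h' i)) * a :=
        Finset.sum_le_sum fun h _ => mul_le_mul_of_nonneg_left (h1 h)
          (Finset.prod_nonneg fun i _ => hl.1 _)
    _ = a := by rw [← Finset.sum_mul, sum_pi_weight lam hl, one_mul]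

open Classical in
include hl ha hinj in
lemma coin_pair (q q' : Fin κ × Finset (Fin κ)) (hq : q.1 ∉ q.2) (hq' : q'.1 ∉ q'.2)
    (hne : q ≠ q') :
    ∑ h : Fin κ → Γ, (∏ l, lam (h l)) * ∑ h' : Fin κ → Γ, (∏ l, lam (h' l)) *
      (if LL q.1 (mix h h' q.2) = LL q'.1 (mix h h' q'.2) then (1 : ℝ) else 0) ≤ a := by
  by_cases h2 : q.2 = q'.2
  · have h1 : q.1 ≠ q'.1 := fun hh => hne (Prod.ext hh h2)
    rw [← h2]
    exact coin_case1 lam hl a ha hinj q.1 q'.1 q.2 hq h1
  · by_cases h3 : ∃ i, i ∈ q.2 ∧ i ∉ q'.2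
    · obtain ⟨i, hi, hi'⟩ := h3
      exact coin_case2 lam hl a ha hinj q.1 q'.1 q.2 q'.2 hq i hi hi'
    · have h4 : ∃ i, i ∈ q'.2 ∧ i ∉ q.2 := by
        by_contra h5
        push Not at h3 h5
        exact h2 (Finset.Subset.antisymm h3 h5)
      obtain ⟨i, hi, hi'⟩ := h4
      have h5 := coin_case2 lam hl a ha hinj q'.1 q.1 q'.2 q.2 hq' i hi hi'
      simp only [eq_comm] at h5 ⊢
      convert h5 using 6

end coin_pair

theorem lf_of_corr (κ : ℕ) (hκ : 2 ≤ κ) {Θ Γ : Type} [Fintype Θ] [Nonempty Θ] [Fintype Γ]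
    [AddCommGroup Γ] (lam : Γ → ℝ) (hl : IsPW lam) (a : ℝ) (ha : ∀ g, lam g ≤ a)
    (hinj : ∀ c : ℤ, c ≠ 0 → |c| ≤ κ → Function.Injective (fun g : Γ => c • g))
    (ν : Θ × Γ → ℝ) (Bd : ℝ) (hBd : 1 ≤ Bd) (hν : ∀ p, 0 ≤ ν p ∧ ν p ≤ Bd) (ε : ℝ) (hε : 0 ≤ ε)
    (hcorr : ∀ S : Finset Γ, #S ≤ κ * 2 ^ κ →
      |(∑ A : Θ, ∏ x ∈ S, ν (A, x)) / (Fintype.card Θ : ℝ) - 1| ≤ ε) :
    LFnu κ lam ν (ε + ((κ * 2 ^ κ : ℕ) : ℝ) ^ 2 * a * (Bd ^ (κ * 2 ^ κ) + 1)) := by
  classical
  intro S hS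
  obtain ⟨t, ht⟩ : ∃ t : ℕ, t = κ * 2 ^ κ := ⟨_, rfl⟩
  rw [← ht] at hcorr ⊢
  have ha0 : 0 ≤ a := (hl.1 0).trans (ha 0)
  have hcard : #S ≤ t := by
    have h1 := Finset.card_le_univ S
    rw [Fintype.card_prod, Fintype.card_fin, Fintype.card_finset, Fintype.card_fin] at h1
    rw [ht]; exact h1
  have hΘ : (0 : ℝ) < Fintype.card Θ := by exact_mod_cast Fintype.card_pos
  have hΓ : (0 : ℝ) < Fintype.card Γ := by
    have : Nonempty Γ := ⟨0⟩
    exact_mod_cast Fintype.card_pos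
  have hμ : IsPW (unif Γ) := by
    refine ⟨fun x => by unfold unif; positivity, ?_⟩
    unfold unif
    rw [Finset.sum_const, Finset.card_univ, nsmul_eq_mul]
    field_simp
  have hB0 : (0 : ℝ) ≤ Bd ^ t + 1 := by positivity
  -- reduction to the average over `A`
  have hred : EE2 (unif (Θ × Γ)) lam (fun p (h h' : Fin κ → Γ) =>
      ∏ q ∈ S, ν (p.1, p.2 + LL q.1 (mix h h' q.2))) =
      EE2 (unif Γ) lam (fun x (h h' : Fin κ → Γ) =>
        (∑ A : Θ, ∏ q ∈ S, ν (A, x + LL q.1 (mix h h' q.2))) / (Fintype.card Θ : ℝ)) := by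
    rw [coin_EE2_eq, coin_EE2_eq, Fintype.sum_prod_type, Finset.sum_comm]
    refine Finset.sum_congr rfl fun x _ => ?_
    rw [Finset.sum_comm]
    refine Finset.sum_congr rfl fun h _ => ?_
    rw [Finset.sum_comm]
    refine Finset.sum_congr rfl fun h' _ => ?_
    rw [Finset.sum_div, Finset.mul_sum, Finset.mul_sum, Finset.mul_sum]
    refine Finset.sum_congr rfl fun A _ => ?_
    unfold unif
    rw [Fintype.card_prod]
    push_cast
    field_simp
  show |EE2 (unif (Θ × Γ)) lam (fun p (h h' : Fin κ → Γ) =>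
      ∏ q ∈ S, ν (p.1, p.2 + LL q.1 (mix h h' q.2))) - 1| ≤ _
  rw [hred]
  have hone : (1 : ℝ) = EE2 (unif Γ) lam (fun _ (_ _ : Fin κ → Γ) => (1 : ℝ)) :=
    (coin_EE2_const _ _ hμ hl 1).symm
  have hsub := coin_EE2_sub (unif Γ) lam (fun x (h h' : Fin κ → Γ) =>
        (∑ A : Θ, ∏ q ∈ S, ν (A, x + LL q.1 (mix h h' q.2))) / (Fintype.card Θ : ℝ))
        (fun _ _ _ => (1 : ℝ))
  rw [← hone] at hsub
  rw [← hsub]
  have hpt : ∀ (x : Γ) (h h' : Fin κ → Γ),
      |(∑ A : Θ, ∏ q ∈ S, ν (A, x + LL q.1 (mix h h' q.2))) / (Fintype.card Θ : ℝ) - 1| ≤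
        ε + (Bd ^ t + 1) * ∑ q ∈ S, ∑ q' ∈ S.erase q,
          (if LL q.1 (mix h h' q.2) = LL q'.1 (mix h h' q'.2) then (1 : ℝ) else 0) := by
    intro x h h'
    by_cases hinjS : ∀ q ∈ S, ∀ q' ∈ S,
        LL q.1 (mix h h' q.2) = LL q'.1 (mix h h' q'.2) → q = q'
    · have e : ∀ A : Θ, ∏ q ∈ S, ν (A, x + LL q.1 (mix h h' q.2)) =
          ∏ y ∈ S.image (fun q : Fin κ × Finset (Fin κ) => x + LL q.1 (mix h h' q.2)),
            ν (A, y) := by
        intro A
        rw [Finset.prod_image]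
        intro q hq q' hq' hqq
        exact hinjS q hq q' hq' (add_left_cancel hqq)
      simp only [e]
      refine (hcorr _ (Finset.card_image_le.trans hcard)).trans ?_
      have : (0 : ℝ) ≤ ∑ q ∈ S, ∑ q' ∈ S.erase q,
          (if LL q.1 (mix h h' q.2) = LL q'.1 (mix h h' q'.2) then (1 : ℝ) else 0) :=
        Finset.sum_nonneg fun q _ => Finset.sum_nonneg fun q' _ => by split_ifs <;> norm_num
      nlinarith
    · push Not at hinjS
      obtain ⟨q, hq, q', hq', hqq, hne⟩ := hinjS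
      have h1 : (1 : ℝ) ≤ ∑ q ∈ S, ∑ q' ∈ S.erase q,
          (if LL q.1 (mix h h' q.2) = LL q'.1 (mix h h' q'.2) then (1 : ℝ) else 0) := by
        have hnn : ∀ r ∈ S, (0 : ℝ) ≤ ∑ q' ∈ S.erase r,
            (if LL r.1 (mix h h' r.2) = LL q'.1 (mix h h' q'.2) then (1 : ℝ) else 0) :=
          fun r _ => Finset.sum_nonneg fun q' _ => by split_ifs <;> norm_num
        refine le_trans ?_ (Finset.single_le_sum hnn hq)
        have hnn' : ∀ r ∈ S.erase q, (0 : ℝ) ≤
            (if LL q.1 (mix h h' q.2) = LL r.1 (mix h h' r.2) then (1 : ℝ) else 0) :=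
          fun r _ => by split_ifs <;> norm_num
        have hm : q' ∈ S.erase q := Finset.mem_erase.2 ⟨fun hh => hne hh.symm, hq'⟩
        refine le_trans ?_ (Finset.single_le_sum hnn' hm)
        rw [if_pos hqq]
      have hprod : ∀ A : Θ, 0 ≤ ∏ q ∈ S, ν (A, x + LL q.1 (mix h h' q.2)) ∧
          ∏ q ∈ S, ν (A, x + LL q.1 (mix h h' q.2)) ≤ Bd ^ t := by
        intro A
        refine ⟨Finset.prod_nonneg fun q _ => (hν _).1, ?_⟩
        refine (Finset.prod_le_prod (fun q _ => (hν _).1) fun q _ => (hν _).2).trans ?_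
        rw [Finset.prod_const]
        exact pow_le_pow_right₀ hBd hcard
      have hlow : 0 ≤ (∑ A : Θ, ∏ q ∈ S, ν (A, x + LL q.1 (mix h h' q.2))) /
          (Fintype.card Θ : ℝ) := div_nonneg (Finset.sum_nonneg fun A _ => (hprod A).1) hΘ.le
      have hup : (∑ A : Θ, ∏ q ∈ S, ν (A, x + LL q.1 (mix h h' q.2))) /
          (Fintype.card Θ : ℝ) ≤ Bd ^ t := by
        rw [div_le_iff₀ hΘ]
        refine (Finset.sum_le_sum fun A _ => (hprod A).2).trans ?_
        rw [Finset.sum_const, Finset.card_univ, nsmul_eq_mul, mul_comm]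
      have h2 : Bd ^ t + 1 ≤ (Bd ^ t + 1) * ∑ q ∈ S, ∑ q' ∈ S.erase q,
          (if LL q.1 (mix h h' q.2) = LL q'.1 (mix h h' q'.2) then (1 : ℝ) else 0) :=
        le_mul_of_one_le_right hB0 h1
      have h3 : (0 : ℝ) ≤ Bd ^ t := by positivity
      rw [abs_le]
      constructor <;> linarith
  refine (coin_abs_EE2_le (unif Γ) lam hμ hl _ _ hpt).trans ?_
  rw [coin_EE2_add, coin_EE2_const _ _ hμ hl, coin_EE2_const_mul, coin_EE2_sum]
  have hE : ∀ q ∈ S, ∀ q' ∈ S.erase q, EE2 (unif Γ) lam (fun _ (h h' : Fin κ → Γ) =>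
      (if LL q.1 (mix h h' q.2) = LL q'.1 (mix h h' q'.2) then (1 : ℝ) else 0)) ≤ a := by
    intro q hq q' hq'
    have h1 := coin_pair lam hl a ha hinj q q' (hS q hq) (hS q' (Finset.mem_of_mem_erase hq'))
      (fun hh => (Finset.ne_of_mem_erase hq') hh.symm)
    unfold EE2
    rw [← Finset.sum_mul, hμ.2, one_mul]
    exact h1
  have hsum : ∑ q ∈ S, EE2 (unif Γ) lam (fun (_ : Γ) (h h' : Fin κ → Γ) => ∑ q' ∈ S.erase q,
      (if LL q.1 (mix h h' q.2) = LL q'.1 (mix h h' q'.2) then (1 : ℝ) else 0)) ≤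
      (t : ℝ) ^ 2 * a := by
    have h1 : ∀ q ∈ S, EE2 (unif Γ) lam (fun (_ : Γ) (h h' : Fin κ → Γ) => ∑ q' ∈ S.erase q,
        (if LL q.1 (mix h h' q.2) = LL q'.1 (mix h h' q'.2) then (1 : ℝ) else 0)) ≤
        (t : ℝ) * a := by
      intro q hq
      rw [coin_EE2_sum]
      refine (Finset.sum_le_sum (hE q hq)).trans ?_
      rw [Finset.sum_const, nsmul_eq_mul]
      refine mul_le_mul_of_nonneg_right ?_ ha0
      exact_mod_cast (Finset.card_le_card (Finset.erase_subset _ _)).trans hcard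
    refine (Finset.sum_le_sum h1).trans ?_
    rw [Finset.sum_const, nsmul_eq_mul, pow_two, mul_assoc]
    refine mul_le_mul_of_nonneg_right ?_ (by positivity)
    exact_mod_cast hcard
  have h5 := mul_le_mul_of_nonneg_left hsum hB0
  linarith

end Pool.Agent.H16.GPS
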