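import Pool.Agent.H16.GPS.Rel.Defs

/-!
JOB GPS-LAWS (MP_c183ae_nt). The laws `lawU`, `lawN`.

PROOFS. `lawU` is a push-forward of the uniform measure (`sum_lawU`). For `lawN`: for fixed `r` write the sum as
`b (ω.2 0) + rest` (`0 ≤ r` always, `n ≥ 1`), `rest` independent of `ω.2 0`: so
`lawN n b g = (average over (r, rest)) of lawU b (g - rest)`. Hence atoms of `lawN` are at most the maximal atom of
`lawU b`, and `∑ g |lawN g - lawN (g - v)| ≤ average of ∑ g |lawU b (g - rest) - lawU b (g - v - rest)|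
= ∑ g |lawU b g - lawU b (g - v)|`. `lawN_support`: an atom of positive weight is a sum of between 1 and `n` values.
~130 lines.
-/

set_option autoImplicit false

open Finset

namespace Pool.Agent.H16.GPS

theorem sum_lawU {Ξ Γ : Type} [Fintype Ξ] [Fintype Γ] (b : Ξ → Γ) (F : Γ → ℝ) :
    ∑ g, lawU b g * F g = (∑ ξ, F (b ξ)) / (Fintype.card Ξ : ℝ) := by
  classical
  have h1 : ∀ g, lawU b g * F g =
      (∑ ξ ∈ univ.filter (fun ξ => b ξ = g), F (b ξ)) / (Fintype.card Ξ : ℝ) := by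
    intro g
    have h2 : ∑ ξ ∈ univ.filter (fun ξ => b ξ = g), F (b ξ) =
        (#(univ.filter (fun ξ => b ξ = g)) : ℝ) * F g := by
      rw [sum_congr rfl (fun ξ hξ => by rw [(mem_filter.1 hξ).2] :
        ∀ ξ ∈ univ.filter (fun ξ => b ξ = g), F (b ξ) = F g), sum_const, nsmul_eq_mul]
    rw [h2]
    unfold lawU
    have h3 : ((#(@Finset.filter Ξ (fun ξ => b ξ = g) (fun a => Classical.propDecidable _) univ) : ℕ) : ℝ)
        = (#(univ.filter (fun ξ => b ξ = g)) : ℝ) := by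
      congr!
    rw [h3]
    ring
  rw [sum_congr rfl (fun g _ => h1 g), ← sum_div]
  congr 1
  exact sum_fiberwise univ b (fun ξ => F (b ξ))

theorem lawU_nonneg {Ξ Γ : Type} [Fintype Ξ] (b : Ξ → Γ) (g : Γ) : 0 ≤ lawU b g := by
  unfold lawU
  positivity

theorem lawU_isPW {Ξ Γ : Type} [Fintype Ξ] [Nonempty Ξ] [Fintype Γ] (b : Ξ → Γ) :
    IsPW (lawU b) := by
  refine ⟨lawU_nonneg b, ?_⟩
  have h := sum_lawU b (fun _ => 1)
  simp only [mul_one, sum_const, card_univ, nsmul_eq_mul] at h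
  rw [h]
  have : (0 : ℝ) < (Fintype.card Ξ : ℝ) := by exact_mod_cast Fintype.card_pos
  exact div_self this.ne'

theorem lawN_isPW {Ξ Γ : Type} [Fintype Ξ] [Nonempty Ξ] [Fintype Γ] [AddCommGroup Γ] (n : ℕ)
    (hn : 1 ≤ n) (b : Ξ → Γ) : IsPW (lawN n b) := by
  have : Nonempty (Fin n) := ⟨⟨0, hn⟩⟩
  exact lawU_isPW _

/-- an atom of `lawU` as an average of indicators -/
theorem lawU_eq_sum {Ξ Γ : Type} [Fintype Ξ] [DecidableEq Γ] (b : Ξ → Γ) (g : Γ) :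
    lawU b g = (∑ ξ, if b ξ = g then (1 : ℝ) else 0) / (Fintype.card Ξ : ℝ) := by
  unfold lawU
  rw [sum_boole]
  congr!

/-- decomposition of the law of `b x + c ρ` -/
theorem lawU_add {Ξ R Ω Γ : Type} [Fintype Ξ] [Fintype R] [Fintype Ω] [Nonempty R]
    [AddCommGroup Γ] (e : Ω ≃ R × Ξ) (f : Ω → Γ) (b : Ξ → Γ) (c : R → Γ)
    (hf : ∀ ρ x, f (e.symm (ρ, x)) = b x + c ρ) (g : Γ) :
    lawU f g = (∑ ρ, lawU b (g - c ρ)) / (Fintype.card R : ℝ) := by
  classical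
  rw [lawU_eq_sum]
  have h1 : ∑ ω, (if f ω = g then (1 : ℝ) else 0) =
      ∑ ρ, ∑ x, (if b x = g - c ρ then (1 : ℝ) else 0) := by
    rw [← e.symm.sum_comp (fun ω => if f ω = g then (1 : ℝ) else 0), Fintype.sum_prod_type]
    refine sum_congr rfl (fun ρ _ => sum_congr rfl (fun x _ => ?_))
    rw [hf]
    congr 1
    rw [eq_sub_iff_add_eq]
  have h2 : (Fintype.card Ω : ℝ) = (Fintype.card R : ℝ) * (Fintype.card Ξ : ℝ) := by
    rw [Fintype.card_congr e, Fintype.card_prod]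
    push_cast
    rfl
  rw [h1, h2, sum_congr rfl (fun ρ _ => lawU_eq_sum b (g - c ρ)), ← sum_div, div_div, mul_comm
    (Fintype.card R : ℝ)]

/-- `lawN` as an average of translates of `lawU b` -/
theorem lawN_eq {Ξ Γ : Type} [Fintype Ξ] [Nonempty Ξ] [AddCommGroup Γ] (m : ℕ) (b : Ξ → Γ) :
    ∃ c : (Fin (m + 1) × (Fin m → Ξ)) → Γ, ∀ g, lawN (m + 1) b g =
      (∑ ρ, lawU b (g - c ρ)) / (Fintype.card (Fin (m + 1) × (Fin m → Ξ)) : ℝ) := by
  classical
  let e : (Fin (m + 1) × (Fin (m + 1) → Ξ)) ≃ (Fin (m + 1) × (Fin m → Ξ)) × Ξ :=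
    { toFun := fun ω => ((ω.1, fun i => ω.2 i.succ), ω.2 0)
      invFun := fun z => (z.1.1, Fin.cons z.2 z.1.2)
      left_inv := fun ω => by
        refine Prod.ext rfl ?_
        funext i
        refine Fin.cases ?_ (fun j => ?_) i
        · rfl
        · rfl
      right_inv := fun z => by
        refine Prod.ext (Prod.ext rfl ?_) ?_
        · funext i
          rfl
        · rfl }
  refine ⟨fun ρ => ∑ i ∈ univ.filter (fun i : Fin m => i.succ ≤ ρ.1), b (ρ.2 i), fun g => ?_⟩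
  refine lawU_add e _ b _ ?_ g
  rintro ⟨r, y⟩ x
  show ∑ i ∈ univ.filter (fun i => i ≤ r), b ((Fin.cons x y : Fin (m + 1) → Ξ) i) =
    b x + ∑ i ∈ univ.filter (fun i : Fin m => i.succ ≤ r), b (y i)
  rw [sum_filter, Fin.sum_univ_succ, if_pos (Fin.zero_le r), sum_filter]
  rfl

theorem lawN_atom {Ξ Γ : Type} [Fintype Ξ] [Nonempty Ξ] [Fintype Γ] [AddCommGroup Γ] (n : ℕ)
    (hn : 1 ≤ n) (b : Ξ → Γ) (a : ℝ) (h : ∀ g, lawU b g ≤ a) (g : Γ) : lawN n b g ≤ a := by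
  obtain ⟨m, rfl⟩ : ∃ m, n = m + 1 := ⟨n - 1, by omega⟩
  obtain ⟨c, hc⟩ := lawN_eq m b
  have hpos : (0 : ℝ) < (Fintype.card (Fin (m + 1) × (Fin m → Ξ)) : ℝ) := by
    exact_mod_cast Fintype.card_pos
  rw [hc, div_le_iff₀ hpos]
  calc ∑ ρ, lawU b (g - c ρ) ≤ ∑ ρ : Fin (m + 1) × (Fin m → Ξ), a := sum_le_sum (fun ρ _ => h _)
    _ = a * (Fintype.card (Fin (m + 1) × (Fin m → Ξ)) : ℝ) := by
        rw [sum_const, card_univ, nsmul_eq_mul, mul_comm]

theorem lawN_shift {Ξ Γ : Type} [Fintype Ξ] [Nonempty Ξ] [Fintype Γ] [AddCommGroup Γ] (n : ℕ)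
    (hn : 1 ≤ n) (b : Ξ → Γ) (v : Γ) (τ : ℝ) (h : ∑ g, |lawU b g - lawU b (g - v)| ≤ τ) :
    ∑ g, |lawN n b g - lawN n b (g - v)| ≤ τ := by
  obtain ⟨m, rfl⟩ : ∃ m, n = m + 1 := ⟨n - 1, by omega⟩
  obtain ⟨c, hc⟩ := lawN_eq m b
  have hpos : (0 : ℝ) < (Fintype.card (Fin (m + 1) × (Fin m → Ξ)) : ℝ) := by
    exact_mod_cast Fintype.card_pos
  have h1 : ∀ g, |lawN (m + 1) b g - lawN (m + 1) b (g - v)| ≤
      (∑ ρ, |lawU b (g - c ρ) - lawU b (g - c ρ - v)|) /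
        (Fintype.card (Fin (m + 1) × (Fin m → Ξ)) : ℝ) := by
    intro g
    rw [hc, hc, ← sub_div, ← sum_sub_distrib, abs_div, abs_of_pos hpos]
    refine div_le_div_of_nonneg_right ?_ hpos.le
    refine (abs_sum_le_sum_abs _ _).trans (le_of_eq ?_)
    refine sum_congr rfl (fun ρ _ => ?_)
    rw [sub_right_comm g v (c ρ)]
  refine (sum_le_sum (fun g _ => h1 g)).trans ?_
  rw [← sum_div, div_le_iff₀ hpos, sum_comm]
  calc ∑ ρ, ∑ g, |lawU b (g - c ρ) - lawU b (g - c ρ - v)|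
      = ∑ ρ : Fin (m + 1) × (Fin m → Ξ), ∑ g, |lawU b g - lawU b (g - v)| := by
        refine sum_congr rfl (fun ρ _ => ?_)
        exact (Equiv.subRight (c ρ)).sum_comp (fun g => |lawU b g - lawU b (g - v)|)
    _ ≤ ∑ ρ : Fin (m + 1) × (Fin m → Ξ), τ := sum_le_sum (fun ρ _ => h)
    _ = τ * (Fintype.card (Fin (m + 1) × (Fin m → Ξ)) : ℝ) := by
        rw [sum_const, card_univ, nsmul_eq_mul, mul_comm]

theorem lawN_support {Ξ Γ : Type} [Fintype Ξ] [Fintype Γ] [AddCommGroup Γ] (n : ℕ)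
    (b : Ξ → Γ) (g : Γ) (h : lawN n b g ≠ 0) :
    ∃ l : List Ξ, 1 ≤ l.length ∧ l.length ≤ n ∧ (l.map b).sum = g := by
  classical
  unfold lawN lawU at h
  have h1 : (univ.filter (fun ω : Fin n × (Fin n → Ξ) =>
      ∑ i ∈ univ.filter (fun i => i ≤ ω.1), b (ω.2 i) = g)).Nonempty := by
    rw [nonempty_iff_ne_empty]
    intro he
    apply h
    have h2 : (#(@Finset.filter (Fin n × (Fin n → Ξ))
        (fun ω => ∑ i ∈ univ.filter (fun i => i ≤ ω.1), b (ω.2 i) = g)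
        (fun a => Classical.propDecidable _) univ)) = 0 := by
      rw [card_eq_zero, ← he]
    rw [h2]
    simp
  obtain ⟨ω, hω⟩ := h1
  have hω' := (mem_filter.1 hω).2
  refine ⟨(univ.filter (fun i => i ≤ ω.1)).toList.map ω.2, ?_, ?_, ?_⟩
  · rw [List.length_map, length_toList]
    exact card_pos.2 ⟨ω.1, by simp⟩
  · rw [List.length_map, length_toList]
    refine (card_le_univ _).trans ?_
    simp
  · rw [List.map_map, ← hω']
    exact sum_map_toList _ _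

end Pool.Agent.H16.GPS
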