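import Pool.Agent.H16.GPS.Rel.Basic

/-!
JOB GPS-COIN2 (MP_c183ae_nt). The condition `LFd` from correlations at distinct points.

PROOF of `lfd_of_corr`. `#S ≤ 2^κ`. For given `y, y'` and base point `z` the points are `z_ω = z + κ! ∑ c, mix y y' ω c`, `ω ∈ S`.
If they are distinct, the average over `A : Θ` of `∏ ω ∈ S, ν (A, z_ω)` is `1 + O(ε)` by `hcorr` (the set of the points). If not, it
lies in `[0, Bd^t]`, so it differs from `1` by at most `Bd^t + 1`, `t = κ 2^κ`. The probability (over `y, y'`) that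
`z_ω = z_ω'` for given `ω ≠ ω'` is at most `a`: take `i` in the symmetric difference, the coefficient of `y' i` in the difference
is `± κ!`; fix all other variables, `κ! • g = g₀` has at most one solution (`hinj`), of weight `≤ a` (`sum_pi_update`).
Union bound over at most `t²` pairs. (The job GPS-COIN is the same argument for other linear forms.) ~150 lines.
-/

set_option autoImplicit false

open Finset

namespace Pool.Agent.H16.GPS

/-- the points are distinct: average by `hcorr` -/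
private theorem coin2_inj {J : Type} {Θ Γ : Type} [Fintype Θ] [Nonempty Θ] [Fintype Γ]
    [AddCommGroup Γ] (ν : Θ × Γ → ℝ) (ε : ℝ) (t : ℕ)
    (hcorr : ∀ S : Finset Γ, #S ≤ t →
      |(∑ A : Θ, ∏ x ∈ S, ν (A, x)) / (Fintype.card Θ : ℝ) - 1| ≤ ε) (S : Finset J) (hS : #S ≤ t)
    (f : J → Γ) (hf : ∀ ω ∈ S, ∀ ω' ∈ S, ω ≠ ω' → f ω ≠ f ω') :
    |∑ p : Θ × Γ, unif (Θ × Γ) p * ∏ ω ∈ S, ν (p.1, p.2 + f ω) - 1| ≤ ε := by
  classical
  have hΘ : (0 : ℝ) < (Fintype.card Θ : ℝ) := by exact_mod_cast Fintype.card_pos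
  have hΓ : (0 : ℝ) < (Fintype.card Γ : ℝ) := by
    exact_mod_cast Fintype.card_pos_iff.2 ⟨(0 : Γ)⟩
  have hz : ∀ z : Γ, |(∑ A : Θ, ∏ ω ∈ S, ν (A, z + f ω)) / (Fintype.card Θ : ℝ) - 1| ≤ ε := by
    intro z
    have h1 := hcorr (S.image fun ω => z + f ω) (Finset.card_image_le.trans hS)
    have h2 : ∀ A : Θ, ∏ x ∈ S.image (fun ω => z + f ω), ν (A, x) = ∏ ω ∈ S, ν (A, z + f ω) := by
      intro A
      refine Finset.prod_image ?_
      intro ω hω ω' hω' he
      by_contra hne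
      exact hf ω hω ω' hω' hne (add_left_cancel he)
    simp only [h2] at h1
    exact h1
  have h1 : ∑ p : Θ × Γ, unif (Θ × Γ) p * ∏ ω ∈ S, ν (p.1, p.2 + f ω) - 1 =
      ∑ z : Γ, (1 / (Fintype.card Γ : ℝ)) *
        ((∑ A : Θ, ∏ ω ∈ S, ν (A, z + f ω)) / (Fintype.card Θ : ℝ) - 1) := by
    rw [Fintype.sum_prod_type_right]
    have h2 : ∑ z : Γ, (1 / (Fintype.card Γ : ℝ)) *
        ((∑ A : Θ, ∏ ω ∈ S, ν (A, z + f ω)) / (Fintype.card Θ : ℝ) - 1) =
        ∑ z : Γ, (1 / (Fintype.card Γ : ℝ)) *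
        ((∑ A : Θ, ∏ ω ∈ S, ν (A, z + f ω)) / (Fintype.card Θ : ℝ)) - 1 := by
      have h3 : ∑ _z : Γ, (1 / (Fintype.card Γ : ℝ)) = 1 := by
        rw [Finset.sum_const, Finset.card_univ, nsmul_eq_mul]
        field_simp
      simp only [mul_sub, mul_one, Finset.sum_sub_distrib]
      rw [h3]
    rw [h2]
    congr 1
    refine Finset.sum_congr rfl fun z _ => ?_
    simp only [unif]
    rw [← Finset.mul_sum, Fintype.card_prod]
    push_cast
    field_simp
  rw [h1]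
  calc |∑ z : Γ, (1 / (Fintype.card Γ : ℝ)) *
        ((∑ A : Θ, ∏ ω ∈ S, ν (A, z + f ω)) / (Fintype.card Θ : ℝ) - 1)|
      ≤ ∑ z : Γ, |(1 / (Fintype.card Γ : ℝ)) *
        ((∑ A : Θ, ∏ ω ∈ S, ν (A, z + f ω)) / (Fintype.card Θ : ℝ) - 1)| :=
        Finset.abs_sum_le_sum_abs _ _
    _ ≤ ∑ _z : Γ, (1 / (Fintype.card Γ : ℝ)) * ε := by
        refine Finset.sum_le_sum fun z _ => ?_
        rw [abs_mul, abs_of_nonneg (by positivity : (0 : ℝ) ≤ 1 / (Fintype.card Γ : ℝ))]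
        exact mul_le_mul_of_nonneg_left (hz z) (by positivity)
    _ = ε := by
        rw [Finset.sum_const, Finset.card_univ, nsmul_eq_mul]
        field_simp

/-- trivial bound for the average -/
private theorem coin2_triv {J : Type} {Θ Γ : Type} [Fintype Θ] [Nonempty Θ] [Fintype Γ]
    [AddCommGroup Γ] (ν : Θ × Γ → ℝ) (Bd : ℝ) (hBd : 1 ≤ Bd) (hν : ∀ p, 0 ≤ ν p ∧ ν p ≤ Bd) (t : ℕ)
    (S : Finset J) (hS : #S ≤ t) (f : J → Γ) :
    |∑ p : Θ × Γ, unif (Θ × Γ) p * ∏ ω ∈ S, ν (p.1, p.2 + f ω) - 1| ≤ Bd ^ t + 1 := by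
  have hc : (0 : ℝ) < (Fintype.card (Θ × Γ) : ℝ) := by
    have : Nonempty Γ := ⟨0⟩
    exact_mod_cast Fintype.card_pos
  have h1 : ∀ p : Θ × Γ, 0 ≤ ∏ ω ∈ S, ν (p.1, p.2 + f ω) ∧ ∏ ω ∈ S, ν (p.1, p.2 + f ω) ≤ Bd ^ t := by
    intro p
    refine ⟨Finset.prod_nonneg fun ω _ => (hν _).1, ?_⟩
    calc ∏ ω ∈ S, ν (p.1, p.2 + f ω) ≤ ∏ _ω ∈ S, Bd :=
          Finset.prod_le_prod (fun ω _ => (hν _).1) fun ω _ => (hν _).2
      _ = Bd ^ #S := by rw [Finset.prod_const]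
      _ ≤ Bd ^ t := pow_le_pow_right₀ hBd hS
  have h0 : 0 ≤ ∑ p : Θ × Γ, unif (Θ × Γ) p * ∏ ω ∈ S, ν (p.1, p.2 + f ω) := by
    refine Finset.sum_nonneg fun p _ => mul_nonneg ?_ (h1 p).1
    rw [unif]
    positivity
  have h2 : ∑ p : Θ × Γ, unif (Θ × Γ) p * ∏ ω ∈ S, ν (p.1, p.2 + f ω) ≤ Bd ^ t := by
    calc ∑ p : Θ × Γ, unif (Θ × Γ) p * ∏ ω ∈ S, ν (p.1, p.2 + f ω)
        ≤ ∑ p : Θ × Γ, (1 / (Fintype.card (Θ × Γ) : ℝ)) * Bd ^ t := by
          refine Finset.sum_le_sum fun p _ => ?_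
          rw [unif]
          exact mul_le_mul_of_nonneg_left (h1 p).2 (by positivity)
      _ = Bd ^ t := by
          rw [Finset.sum_const, Finset.card_univ, nsmul_eq_mul]
          field_simp
  rw [abs_le]
  constructor
  · have : 0 ≤ Bd ^ t := by positivity
    linarith
  · linarith

/-- the equation `κ! • (x + R) = X` has small weight -/
private theorem coin2_atom {Γ : Type} [Fintype Γ] [AddCommGroup Γ] [DecidableEq Γ] (lam' : Γ → ℝ)
    (hl : IsPW lam') (a : ℝ) (ha : ∀ g, lam' g ≤ a) (N : ℕ)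
    (hinj : Function.Injective (fun g : Γ => N • g)) (R X : Γ) :
    ∑ x, lam' x * (if N • (x + R) = X then 1 else 0) ≤ a := by
  have ha0 : 0 ≤ a := (hl.1 0).trans (ha 0)
  by_cases h : ∃ x, N • (x + R) = X
  · obtain ⟨x₀, hx₀⟩ := h
    rw [Finset.sum_eq_single x₀]
    · rw [if_pos hx₀, mul_one]
      exact ha x₀
    · intro x _ hx
      rw [if_neg, mul_zero]
      intro hx'
      apply hx
      have h2 : (fun g : Γ => N • g) (x + R) = (fun g : Γ => N • g) (x₀ + R) := hx'.trans hx₀.symm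
      exact add_right_cancel (hinj h2)
    · intro hx
      exact absurd (Finset.mem_univ _) hx
  · push Not at h
    rw [Finset.sum_eq_zero fun x _ => by rw [if_neg (h x), mul_zero]]
    exact ha0

private theorem coin2_mix_mem {κ : ℕ} {Γ : Type} [AddCommGroup Γ] (ω : Finset (Fin κ))
    (y y' : Fin κ → Γ) (i : Fin κ) (x : Γ) (hi : i ∈ ω) :
    ∑ c, mix y (Function.update y' i x) ω c = x + ∑ c ∈ univ.erase i, mix y y' ω c := by
  rw [← Finset.add_sum_erase univ _ (Finset.mem_univ i)]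
  congr 1
  · simp [mix, hi]
  · refine Finset.sum_congr rfl fun c hc => ?_
    have hci : c ≠ i := Finset.ne_of_mem_erase hc
    simp only [mix, Function.update_of_ne hci]

private theorem coin2_mix_notMem {κ : ℕ} {Γ : Type} [AddCommGroup Γ] (ω : Finset (Fin κ))
    (y y' : Fin κ → Γ) (i : Fin κ) (x : Γ) (hi : i ∉ ω) :
    mix y (Function.update y' i x) ω = mix y y' ω := by
  funext c
  by_cases hci : c = i
  · subst hci
    simp [mix, hi]
  · simp only [mix, Function.update_of_ne hci]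

/-- the collision probability, ordered case -/
private theorem coin2_coll {κ : ℕ} {Γ : Type} [Fintype Γ] [AddCommGroup Γ] [DecidableEq Γ]
    (lam' : Γ → ℝ) (hl : IsPW lam') (a : ℝ) (ha : ∀ g, lam' g ≤ a) (N : ℕ)
    (hinj : Function.Injective (fun g : Γ => N • g)) (ω ω' : Finset (Fin κ)) (i : Fin κ)
    (hi : i ∈ ω) (hi' : i ∉ ω') :
    ∑ y : Fin κ → Γ, (∏ c, lam' (y c)) * ∑ y' : Fin κ → Γ, (∏ c, lam' (y' c)) *
      (if N • ∑ c, mix y y' ω c = N • ∑ c, mix y y' ω' c then 1 else 0) ≤ a := by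
  have hW : ∀ y : Fin κ → Γ, 0 ≤ ∏ c, lam' (y c) := fun y => Finset.prod_nonneg fun c _ => hl.1 _
  have h1 : ∀ y : Fin κ → Γ, ∑ y' : Fin κ → Γ, (∏ c, lam' (y' c)) *
      (if N • ∑ c, mix y y' ω c = N • ∑ c, mix y y' ω' c then (1 : ℝ) else 0) ≤ a := by
    intro y
    rw [sum_pi_update lam' hl i (fun y' : Fin κ → Γ =>
      if N • ∑ c, mix y y' ω c = N • ∑ c, mix y y' ω' c then (1 : ℝ) else 0)]
    calc ∑ y' : Fin κ → Γ, (∏ c, lam' (y' c)) * ∑ x, lam' x *
          (if N • ∑ c, mix y (Function.update y' i x) ω c =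
            N • ∑ c, mix y (Function.update y' i x) ω' c then (1 : ℝ) else 0)
        ≤ ∑ y' : Fin κ → Γ, (∏ c, lam' (y' c)) * a := by
          refine Finset.sum_le_sum fun y' _ => mul_le_mul_of_nonneg_left ?_ (hW y')
          simp only [coin2_mix_mem ω y y' i _ hi, coin2_mix_notMem ω' y y' i _ hi']
          exact coin2_atom lam' hl a ha N hinj _ _
      _ = a := by rw [← Finset.sum_mul, sum_pi_weight lam' hl, one_mul]
  calc ∑ y : Fin κ → Γ, (∏ c, lam' (y c)) * ∑ y' : Fin κ → Γ, (∏ c, lam' (y' c)) *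
      (if N • ∑ c, mix y y' ω c = N • ∑ c, mix y y' ω' c then (1 : ℝ) else 0)
      ≤ ∑ y : Fin κ → Γ, (∏ c, lam' (y c)) * a :=
        Finset.sum_le_sum fun y _ => mul_le_mul_of_nonneg_left (h1 y) (hW y)
    _ = a := by rw [← Finset.sum_mul, sum_pi_weight lam' hl, one_mul]

/-- the collision probability -/
private theorem coin2_coll' {κ : ℕ} {Γ : Type} [Fintype Γ] [AddCommGroup Γ] [DecidableEq Γ]
    (lam' : Γ → ℝ) (hl : IsPW lam') (a : ℝ) (ha : ∀ g, lam' g ≤ a) (N : ℕ)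
    (hinj : Function.Injective (fun g : Γ => N • g)) (ω ω' : Finset (Fin κ)) (hne : ω ≠ ω') :
    ∑ y : Fin κ → Γ, (∏ c, lam' (y c)) * ∑ y' : Fin κ → Γ, (∏ c, lam' (y' c)) *
      (if N • ∑ c, mix y y' ω c = N • ∑ c, mix y y' ω' c then 1 else 0) ≤ a := by
  by_cases h : ω ⊆ ω'
  · have h2 : ¬ ω' ⊆ ω := fun h3 => hne (Finset.Subset.antisymm h h3)
    obtain ⟨i, hi, hi'⟩ := Finset.not_subset.1 h2
    have h3 := coin2_coll lam' hl a ha N hinj ω' ω i hi hi'
    have h4 : ∀ y y' : Fin κ → Γ,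
        (if N • ∑ c, mix y y' ω c = N • ∑ c, mix y y' ω' c then (1 : ℝ) else 0) =
        if N • ∑ c, mix y y' ω' c = N • ∑ c, mix y y' ω c then 1 else 0 := by
      intro y y'
      simp only [eq_comm]
    simp only [h4]
    exact h3
  · obtain ⟨i, hi, hi'⟩ := Finset.not_subset.1 h
    exact coin2_coll lam' hl a ha N hinj ω ω' i hi hi'

theorem lfd_of_corr (κ : ℕ) (hκ : 2 ≤ κ) {Θ Γ : Type} [Fintype Θ] [Nonempty Θ] [Fintype Γ]
    [AddCommGroup Γ] (lam' : Γ → ℝ) (hl : IsPW lam') (a : ℝ) (ha : ∀ g, lam' g ≤ a)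
    (hinj : Function.Injective (fun g : Γ => κ.factorial • g))
    (ν : Θ × Γ → ℝ) (Bd : ℝ) (hBd : 1 ≤ Bd) (hν : ∀ p, 0 ≤ ν p ∧ ν p ≤ Bd) (ε : ℝ) (hε : 0 ≤ ε)
    (hcorr : ∀ S : Finset Γ, #S ≤ κ * 2 ^ κ →
      |(∑ A : Θ, ∏ x ∈ S, ν (A, x)) / (Fintype.card Θ : ℝ) - 1| ≤ ε) :
    LFd κ lam' ν (ε + ((κ * 2 ^ κ : ℕ) : ℝ) ^ 2 * a * (Bd ^ (κ * 2 ^ κ) + 1)) := by
  classical
  intro S
  have ha0 : 0 ≤ a := (hl.1 0).trans (ha 0)
  have hS : #S ≤ κ * 2 ^ κ := by
    have h1 := Finset.card_le_univ S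
    rw [Fintype.card_finset, Fintype.card_fin] at h1
    nlinarith [Nat.one_le_two_pow (n := κ)]
  obtain ⟨t, ht⟩ : ∃ t, t = κ * 2 ^ κ := ⟨_, rfl⟩
  rw [← ht] at hcorr hS ⊢
  have hW : ∀ y : Fin κ → Γ, 0 ≤ ∏ c, lam' (y c) := fun y => Finset.prod_nonneg fun c _ => hl.1 _
  have hW1 := sum_pi_weight (ι := Fin κ) lam' hl
  -- the inner average
  obtain ⟨G, hG⟩ : ∃ G : (Fin κ → Γ) → (Fin κ → Γ) → ℝ, ∀ y y', G y y' =
      ∑ p : Θ × Γ, unif (Θ × Γ) p * ∏ ω ∈ S, ν (p.1, p.2 + κ.factorial • ∑ c, mix y y' ω c) :=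
    ⟨_, fun _ _ => rfl⟩
  have hEE : EE2 (unif (Θ × Γ)) lam' (fun p y y' => ∏ ω ∈ S,
      ν (p.1, p.2 + κ.factorial • ∑ c : Fin κ, mix y y' ω c)) - 1 =
      ∑ y : Fin κ → Γ, (∏ c, lam' (y c)) * ∑ y' : Fin κ → Γ, (∏ c, lam' (y' c)) *
        (G y y' - 1) := by
    have h1 : ∑ y : Fin κ → Γ, (∏ c, lam' (y c)) * ∑ y' : Fin κ → Γ, (∏ c, lam' (y' c)) *
        (G y y' - 1) = ∑ y : Fin κ → Γ, (∏ c, lam' (y c)) * ∑ y' : Fin κ → Γ, (∏ c, lam' (y' c)) *
        G y y' - 1 := by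
      simp only [mul_sub, mul_one, Finset.sum_sub_distrib, hW1]
    rw [h1]
    congr 1
    rw [EE2]
    simp only [hG, Finset.mul_sum]
    rw [Finset.sum_comm]
    refine Finset.sum_congr rfl fun y _ => ?_
    rw [Finset.sum_comm]
    refine Finset.sum_congr rfl fun y' _ => ?_
    refine Finset.sum_congr rfl fun p _ => ?_
    ring
  rw [hEE]
  -- pointwise bound
  have hpt : ∀ y y' : Fin κ → Γ, |G y y' - 1| ≤ ε + (Bd ^ t + 1) *
      ∑ q ∈ (S ×ˢ S).filter (fun q => q.1 ≠ q.2),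
        (if κ.factorial • ∑ c, mix y y' q.1 c = κ.factorial • ∑ c, mix y y' q.2 c
          then (1 : ℝ) else 0) := by
    intro y y'
    have hB : 0 ≤ Bd ^ t + 1 := by positivity
    have hs0 : ∀ q ∈ (S ×ˢ S).filter (fun q => q.1 ≠ q.2),
        (0 : ℝ) ≤ (if κ.factorial • ∑ c, mix y y' q.1 c = κ.factorial • ∑ c, mix y y' q.2 c
          then (1 : ℝ) else 0) := by
      intro q _
      split_ifs
      · exact zero_le_one
      · exact le_rfl
    by_cases hd : ∀ ω ∈ S, ∀ ω' ∈ S, ω ≠ ω' →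
        κ.factorial • ∑ c, mix y y' ω c ≠ κ.factorial • ∑ c, mix y y' ω' c
    · have h1 := coin2_inj ν ε t hcorr S hS (fun ω => κ.factorial • ∑ c, mix y y' ω c) hd
      rw [hG]
      have h2 := mul_nonneg hB (Finset.sum_nonneg hs0)
      linarith
    · push Not at hd
      obtain ⟨ω, hω, ω', hω', hne, he⟩ := hd
      have h1 := coin2_triv ν Bd hBd hν t S hS (fun ω => κ.factorial • ∑ c, mix y y' ω c)
      rw [hG]
      have h2 : (1 : ℝ) ≤ ∑ q ∈ (S ×ˢ S).filter (fun q => q.1 ≠ q.2),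
          (if κ.factorial • ∑ c, mix y y' q.1 c = κ.factorial • ∑ c, mix y y' q.2 c
          then (1 : ℝ) else 0) := by
        have h3 := Finset.single_le_sum hs0 (a := (ω, ω')) (by
          rw [Finset.mem_filter, Finset.mem_product]
          exact ⟨⟨hω, hω'⟩, hne⟩)
        rw [if_pos he] at h3
        exact h3
      have h4 := mul_le_mul_of_nonneg_left h2 hB
      linarith
  calc |∑ y : Fin κ → Γ, (∏ c, lam' (y c)) * ∑ y' : Fin κ → Γ, (∏ c, lam' (y' c)) *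
        (G y y' - 1)|
      ≤ ∑ y : Fin κ → Γ, (∏ c, lam' (y c)) * ∑ y' : Fin κ → Γ, (∏ c, lam' (y' c)) *
        |G y y' - 1| := by
        refine (Finset.abs_sum_le_sum_abs _ _).trans (Finset.sum_le_sum fun y _ => ?_)
        rw [abs_mul, abs_of_nonneg (hW y)]
        refine mul_le_mul_of_nonneg_left ?_ (hW y)
        refine (Finset.abs_sum_le_sum_abs _ _).trans (Finset.sum_le_sum fun y' _ => ?_)
        rw [abs_mul, abs_of_nonneg (hW y')]
    _ ≤ ∑ y : Fin κ → Γ, (∏ c, lam' (y c)) * ∑ y' : Fin κ → Γ, (∏ c, lam' (y' c)) *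
        (ε + (Bd ^ t + 1) * ∑ q ∈ (S ×ˢ S).filter (fun q => q.1 ≠ q.2),
        (if κ.factorial • ∑ c, mix y y' q.1 c = κ.factorial • ∑ c, mix y y' q.2 c
          then (1 : ℝ) else 0)) := by
        refine Finset.sum_le_sum fun y _ => mul_le_mul_of_nonneg_left ?_ (hW y)
        exact Finset.sum_le_sum fun y' _ => mul_le_mul_of_nonneg_left (hpt y y') (hW y')
    _ = ε + (Bd ^ t + 1) * ∑ q ∈ (S ×ˢ S).filter (fun q => q.1 ≠ q.2),
        ∑ y : Fin κ → Γ, (∏ c, lam' (y c)) * ∑ y' : Fin κ → Γ, (∏ c, lam' (y' c)) *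
        (if κ.factorial • ∑ c, mix y y' q.1 c = κ.factorial • ∑ c, mix y y' q.2 c
          then (1 : ℝ) else 0) := by
        have h1 : ∀ y y' : Fin κ → Γ, (∏ c, lam' (y c)) * ((∏ c, lam' (y' c)) *
            (ε + (Bd ^ t + 1) * ∑ q ∈ (S ×ˢ S).filter (fun q => q.1 ≠ q.2),
            (if κ.factorial • ∑ c, mix y y' q.1 c = κ.factorial • ∑ c, mix y y' q.2 c
              then (1 : ℝ) else 0))) = (∏ c, lam' (y c)) * (∏ c, lam' (y' c)) * ε +
            ∑ q ∈ (S ×ˢ S).filter (fun q => q.1 ≠ q.2), (Bd ^ t + 1) *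
            ((∏ c, lam' (y c)) * ((∏ c, lam' (y' c)) *
            (if κ.factorial • ∑ c, mix y y' q.1 c = κ.factorial • ∑ c, mix y y' q.2 c
              then (1 : ℝ) else 0))) := by
          intro y y'
          rw [mul_add, mul_add, Finset.mul_sum, Finset.mul_sum, Finset.mul_sum]
          congr 1
          · ring
          · refine Finset.sum_congr rfl fun q _ => ?_
            ring
        have h2 : ∑ y : Fin κ → Γ, ∑ y' : Fin κ → Γ,
            (∏ c, lam' (y c)) * (∏ c, lam' (y' c)) * ε = ε := by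
          have h3 : ∀ y : Fin κ → Γ, ∑ y' : Fin κ → Γ,
            (∏ c, lam' (y c)) * (∏ c, lam' (y' c)) * ε = (∏ c, lam' (y c)) * ε := by
            intro y
            rw [← Finset.sum_mul, ← Finset.mul_sum, hW1, mul_one]
          simp only [h3]
          rw [← Finset.sum_mul, hW1, one_mul]
        simp only [Finset.mul_sum (s := (univ : Finset (Fin κ → Γ)))]
        simp only [h1, Finset.sum_add_distrib]
        rw [h2]
        congr 1
        rw [Finset.mul_sum]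
        have h4 : ∀ y : Fin κ → Γ, ∑ y' : Fin κ → Γ,
            ∑ q ∈ (S ×ˢ S).filter (fun q => q.1 ≠ q.2), (Bd ^ t + 1) *
            ((∏ c, lam' (y c)) * ((∏ c, lam' (y' c)) *
            (if κ.factorial • ∑ c, mix y y' q.1 c = κ.factorial • ∑ c, mix y y' q.2 c
              then (1 : ℝ) else 0))) = ∑ q ∈ (S ×ˢ S).filter (fun q => q.1 ≠ q.2),
            ∑ y' : Fin κ → Γ, (Bd ^ t + 1) *
            ((∏ c, lam' (y c)) * ((∏ c, lam' (y' c)) *
            (if κ.factorial • ∑ c, mix y y' q.1 c = κ.factorial • ∑ c, mix y y' q.2 c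
              then (1 : ℝ) else 0))) := fun y => Finset.sum_comm
        simp only [h4]
        rw [Finset.sum_comm]
        refine Finset.sum_congr rfl fun q _ => ?_
        rw [Finset.mul_sum]
        refine Finset.sum_congr rfl fun y _ => ?_
        rw [Finset.mul_sum]
    _ ≤ ε + (Bd ^ t + 1) * ∑ q ∈ (S ×ˢ S).filter (fun q => q.1 ≠ q.2), a := by
        have hB : 0 ≤ Bd ^ t + 1 := by positivity
        have h1 := mul_le_mul_of_nonneg_left (Finset.sum_le_sum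
          (s := (S ×ˢ S).filter (fun q => q.1 ≠ q.2)) fun q hq =>
          coin2_coll' lam' hl a ha κ.factorial hinj q.1 q.2 (Finset.mem_filter.1 hq).2) hB
        linarith
    _ ≤ ε + (t : ℝ) ^ 2 * a * (Bd ^ t + 1) := by
        rw [Finset.sum_const, nsmul_eq_mul]
        have hB : 0 ≤ Bd ^ t + 1 := by positivity
        have h1 : (#((S ×ˢ S).filter (fun q => q.1 ≠ q.2)) : ℝ) ≤ (t : ℝ) ^ 2 := by
          have h2 : #((S ×ˢ S).filter (fun q => q.1 ≠ q.2)) ≤ t ^ 2 := by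
            refine (Finset.card_filter_le _ _).trans ?_
            rw [Finset.card_product, pow_two]
            exact Nat.mul_le_mul hS hS
          exact_mod_cast h2
        have h3 := mul_le_mul_of_nonneg_left (mul_le_mul_of_nonneg_right h1 ha0) hB
        nlinarith [h3]

end Pool.Agent.H16.GPS
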