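import Pool.Agent.H16.GPS.Rel.Defs

/-!
JOB GPS-RB1 (MP_c183ae_nt). Elementary facts on the expectation `EE`; resampling of one coordinate.

PROOFS. `∑ h, ∏ i, lam (h i) = (∑ x, lam x)^card = 1` (`Finset.prod_univ_sum` / `Fintype.piFinset`).
`sum_pi_update` (resampling): write the right side as a sum over pairs `(h, x)`; the involution `(h, x) ↦ (update h j x, h j)` of
`(ι → X) × X` maps the weight `(∏ i, lam (h i)) * lam x` to itself and `F (update h j x)` to `F h`; then `∑ x, lam x = 1`.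
`EE_cs`: weighted Cauchy-Schwarz over the finite type `P × (ι → X)`: `|c R| ≤ √M · √M |R|`. ~130 lines.

Status: complete (helper26).
-/

set_option autoImplicit false

open Finset

namespace Pool.Agent.H16.GPS

section
variable {P ι X : Type} [Fintype P] [Fintype ι] [DecidableEq ι] [Fintype X]

lemma sum_pi_weight (lam : X → ℝ) (hl : IsPW lam) : ∑ h : ι → X, ∏ i, lam (h i) = 1 := by
  have h := Finset.prod_univ_sum (fun _ : ι => (univ : Finset X)) (fun _ x => lam x)
  rw [Fintype.piFinset_univ] at h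
  rw [← h, hl.2, Finset.prod_const_one]

theorem sum_pi_update (lam : X → ℝ) (hl : IsPW lam) (j : ι) (F : (ι → X) → ℝ) :
    ∑ h : ι → X, (∏ i, lam (h i)) * F h =
      ∑ h : ι → X, (∏ i, lam (h i)) * ∑ x, lam x * F (Function.update h j x) := by
  let e : (ι → X) × X ≃ (ι → X) × X :=
    { toFun := fun p => (Function.update p.1 j p.2, p.1 j)
      invFun := fun p => (Function.update p.1 j p.2, p.1 j)
      left_inv := fun p => by
        refine Prod.ext ?_ ?_
        · simp [Function.update_idem, Function.update_eq_self]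
        · simp
      right_inv := fun p => by
        refine Prod.ext ?_ ?_
        · simp [Function.update_idem, Function.update_eq_self]
        · simp }
  have hw : ∀ p : (ι → X) × X, (∏ i, lam ((e p).1 i)) * lam (e p).2 =
      (∏ i, lam (p.1 i)) * lam p.2 := by
    rintro ⟨h, x⟩
    show (∏ i, lam (Function.update h j x i)) * lam (h j) = (∏ i, lam (h i)) * lam x
    have h1 : ∏ i, lam (Function.update h j x i) =
        lam x * ∏ i ∈ univ \ {j}, lam (h i) := by
      have h2 : ∀ i, lam (Function.update h j x i) =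
          Function.update (fun i => lam (h i)) j (lam x) i := by
        intro i
        by_cases hi : i = j
        · subst hi; simp
        · simp [Function.update_of_ne hi]
      rw [Finset.prod_congr rfl fun i _ => h2 i, Finset.prod_update_of_mem (Finset.mem_univ j)]
    have h3 : ∏ i, lam (h i) = lam (h j) * ∏ i ∈ univ \ {j}, lam (h i) := by
      rw [← Finset.erase_eq]
      exact (Finset.mul_prod_erase _ _ (Finset.mem_univ j)).symm
    rw [h1, h3]
    ring
  have hR : ∑ h : ι → X, (∏ i, lam (h i)) * ∑ x, lam x * F (Function.update h j x) =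
      ∑ p : (ι → X) × X, ((∏ i, lam ((e p).1 i)) * lam (e p).2) * F (e p).1 := by
    rw [Fintype.sum_prod_type]
    refine Finset.sum_congr rfl fun h _ => ?_
    rw [Finset.mul_sum]
    refine Finset.sum_congr rfl fun x _ => ?_
    rw [hw (h, x)]
    show _ = (∏ i, lam (h i)) * lam x * F (Function.update h j x)
    ring
  rw [hR, Equiv.sum_comp e (fun p => ((∏ i, lam (p.1 i)) * lam p.2) * F p.1),
    Fintype.sum_prod_type]
  refine Finset.sum_congr rfl fun h _ => ?_
  show _ = ∑ x, (∏ i, lam (h i)) * lam x * F h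
  rw [← Finset.sum_mul, ← Finset.mul_sum, hl.2, mul_one]

lemma EE_one (μ : P → ℝ) (lam : X → ℝ) (hμ : IsPW μ) (hl : IsPW lam) (c : ℝ) :
    EE μ lam (fun (_ : P) (_ : ι → X) => c) = c := by
  unfold EE
  have h1 : ∑ h : ι → X, (∏ i, lam (h i)) * c = c := by
    rw [← Finset.sum_mul, sum_pi_weight lam hl, one_mul]
  simp only [h1]
  rw [← Finset.sum_mul, hμ.2, one_mul]

lemma EE_add (μ : P → ℝ) (lam : X → ℝ) (F G : P → (ι → X) → ℝ) :
    EE μ lam (fun p h => F p h + G p h) = EE μ lam F + EE μ lam G := by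
  unfold EE
  simp only [mul_add, Finset.sum_add_distrib]

lemma EE_sub (μ : P → ℝ) (lam : X → ℝ) (F G : P → (ι → X) → ℝ) :
    EE μ lam (fun p h => F p h - G p h) = EE μ lam F - EE μ lam G := by
  unfold EE
  simp only [mul_sub, Finset.sum_sub_distrib]

lemma EE_const_mul (μ : P → ℝ) (lam : X → ℝ) (c : ℝ) (F : P → (ι → X) → ℝ) :
    EE μ lam (fun p h => c * F p h) = c * EE μ lam F := by
  unfold EE
  simp only [Finset.mul_sum]
  refine Finset.sum_congr rfl fun p _ => Finset.sum_congr rfl fun h _ => ?_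
  ring

lemma EE_mono (μ : P → ℝ) (lam : X → ℝ) (hμ : IsPW μ) (hl : IsPW lam) (F G : P → (ι → X) → ℝ)
    (h : ∀ p h, F p h ≤ G p h) : EE μ lam F ≤ EE μ lam G := by
  unfold EE
  refine Finset.sum_le_sum fun p _ => mul_le_mul_of_nonneg_left ?_ (hμ.1 p)
  exact Finset.sum_le_sum fun x _ => mul_le_mul_of_nonneg_left (h p x)
    (Finset.prod_nonneg fun i _ => hl.1 _)

lemma EE_nonneg (μ : P → ℝ) (lam : X → ℝ) (hμ : IsPW μ) (hl : IsPW lam) (F : P → (ι → X) → ℝ)
    (h : ∀ p h, 0 ≤ F p h) : 0 ≤ EE μ lam F := by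
  unfold EE
  refine Finset.sum_nonneg fun p _ => mul_nonneg (hμ.1 p) ?_
  exact Finset.sum_nonneg fun x _ => mul_nonneg (Finset.prod_nonneg fun i _ => hl.1 _) (h p x)

lemma abs_EE_le (μ : P → ℝ) (lam : X → ℝ) (hμ : IsPW μ) (hl : IsPW lam) (F G : P → (ι → X) → ℝ)
    (h : ∀ p h, |F p h| ≤ G p h) : |EE μ lam F| ≤ EE μ lam G := by
  rw [abs_le]
  constructor
  · have h1 := EE_mono μ lam hμ hl (fun p h => (-1) * G p h) F
      (fun p x => by have := (abs_le.1 (h p x)).1; linarith)
    rw [EE_const_mul] at h1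
    linarith
  · exact EE_mono μ lam hμ hl F G (fun p x => (abs_le.1 (h p x)).2)

/-- Cauchy-Schwarz with a majorant: `|E c R|² ≤ E M · E (M R²)` if `|c| ≤ M` -/
theorem EE_cs (μ : P → ℝ) (lam : X → ℝ) (hμ : IsPW μ) (hl : IsPW lam)
    (c M R : P → (ι → X) → ℝ) (h : ∀ p h, |c p h| ≤ M p h) :
    (EE μ lam (fun p h => c p h * R p h)) ^ 2 ≤
      EE μ lam M * EE μ lam (fun p h => M p h * R p h ^ 2) := by
  have hM : ∀ p x, 0 ≤ M p x := fun p x => (abs_nonneg _).trans (h p x)
  have h1 : |EE μ lam (fun p h => c p h * R p h)| ≤ EE μ lam (fun p h => M p h * |R p h|) := by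
    refine abs_EE_le μ lam hμ hl _ _ fun p x => ?_
    rw [abs_mul]
    exact mul_le_mul_of_nonneg_right (h p x) (abs_nonneg _)
  have hEE : ∀ F : P → (ι → X) → ℝ, EE μ lam F =
      ∑ q : P × (ι → X), (μ q.1 * ∏ i, lam (q.2 i)) * F q.1 q.2 := by
    intro F
    unfold EE
    rw [Fintype.sum_prod_type]
    refine Finset.sum_congr rfl fun p _ => ?_
    rw [Finset.mul_sum]
    exact Finset.sum_congr rfl fun x _ => by ring
  have hW : ∀ q : P × (ι → X), 0 ≤ μ q.1 * ∏ i, lam (q.2 i) := fun q =>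
    mul_nonneg (hμ.1 _) (Finset.prod_nonneg fun i _ => hl.1 _)
  have h2 : (EE μ lam (fun p h => M p h * |R p h|)) ^ 2 ≤
      EE μ lam M * EE μ lam (fun p h => M p h * R p h ^ 2) := by
    rw [hEE, hEE, hEE]
    refine Finset.sum_sq_le_sum_mul_sum_of_sq_le_mul _ (fun q _ => mul_nonneg (hW q) (hM _ _))
      (fun q _ => mul_nonneg (hW q) (mul_nonneg (hM _ _) (sq_nonneg _))) fun q _ => le_of_eq ?_
    have h3 : |R q.1 q.2| ^ 2 = R q.1 q.2 ^ 2 := sq_abs _
    calc ((μ q.1 * ∏ i, lam (q.2 i)) * (M q.1 q.2 * |R q.1 q.2|)) ^ 2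
        = (μ q.1 * ∏ i, lam (q.2 i)) ^ 2 * M q.1 q.2 ^ 2 * |R q.1 q.2| ^ 2 := by ring
      _ = _ := by rw [h3]; ring
  refine le_trans ?_ h2
  rw [← sq_abs (EE μ lam (fun p h => c p h * R p h))]
  exact pow_le_pow_left₀ (abs_nonneg _) h1 2

lemma bar_indep (lam : X → ℝ) (j : ι) (F : P → (ι → X) → ℝ) (p : P) :
    Indep j (bar lam j F p) := by
  intro h x
  unfold bar
  simp only [Function.update_idem]

end

end Pool.Agent.H16.GPS
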