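import Pool.Agent.H16.GPS.Rel.B1

/-!
JOB GPS-RB2 (MP_c183ae_nt). `bar`, two copies, `mix`.

PROOFS. `EE_bar`, `EE_mul_bar`: from `sum_pi_update`. `EE2_mix`: `(h, h') ↦ (mix h h' ω, mix h' h ω)` is a weight preserving
involution of pairs; then the sum over the second component is `1`. `EE_bar_bar`: `W` and both `bar`s do not depend on `h j`;
on the right resample `h' j` and `h j` (`mix h h' {j} = update h j (h' j)`), the other coordinates of `h'` do not occur.
~120 lines.
-/

set_option autoImplicit false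

open Finset

namespace Pool.Agent.H16.GPS

section
variable {P ι X : Type} [Fintype P] [Fintype ι] [DecidableEq ι] [Fintype X]

theorem EE_bar (μ : P → ℝ) (lam : X → ℝ) (hl : IsPW lam) (j : ι) (F : P → (ι → X) → ℝ) :
    EE μ lam (bar lam j F) = EE μ lam F := by
  unfold EE bar
  refine Finset.sum_congr rfl fun p _ => ?_
  rw [sum_pi_update lam hl j (F p)]

theorem EE_mul_bar (μ : P → ℝ) (lam : X → ℝ) (hl : IsPW lam) (j : ι) (c F : P → (ι → X) → ℝ)
    (hc : ∀ p, Indep j (c p)) :
    EE μ lam (fun p h => c p h * bar lam j F p h) = EE μ lam (fun p h => c p h * F p h) := by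
  unfold EE bar
  refine Finset.sum_congr rfl fun p _ => ?_
  rw [sum_pi_update lam hl j (fun h => c p h * F p h)]
  congr 1
  refine Finset.sum_congr rfl fun h _ => ?_
  congr 1
  simp only
  rw [Finset.mul_sum]
  refine Finset.sum_congr rfl fun x _ => ?_
  rw [hc p h x]
  ring

private lemma b2_sum_coord (lam : X → ℝ) (hl : IsPW lam) (j : ι) (φ : X → ℝ) :
    ∑ h : ι → X, (∏ i, lam (h i)) * φ (h j) = ∑ x, lam x * φ x := by
  rw [sum_pi_update lam hl j (fun h => φ (h j))]
  simp only [Function.update_self]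
  rw [← Finset.sum_mul, sum_pi_weight lam hl, one_mul]

omit [Fintype ι] [Fintype X] in
private lemma b2_mix_singleton (h h' : ι → X) (j : ι) :
    mix h h' {j} = Function.update h j (h' j) := by
  funext i
  unfold mix
  by_cases hi : i = j
  · subst hi
    simp
  · simp [hi]

omit [Fintype ι] [Fintype X] in
private lemma b2_mix_mix (h h' : ι → X) (ω : Finset ι) : mix (mix h h' ω) (mix h' h ω) ω = h := by
  funext i
  unfold mix
  by_cases hi : i ∈ ω <;> simp [hi]

/-- two independent copies of the coordinate `j` -/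
theorem EE_bar_bar (μ : P → ℝ) (lam : X → ℝ) (hl : IsPW lam) (j : ι)
    (W F₁ F₂ : P → (ι → X) → ℝ) (hW : ∀ p, Indep j (W p)) :
    EE μ lam (fun p h => W p h * bar lam j F₁ p h * bar lam j F₂ p h) =
      EE2 μ lam (fun p h h' => W p h * F₁ p h * F₂ p (mix h h' {j})) := by
  have hi : ∀ p, Indep j (fun h => W p h * bar lam j F₂ p h) := by
    intro p h x
    have h1 := hW p h x
    have h2 := bar_indep lam j F₂ p h x
    simp only [h1, h2]
  have e1 : EE μ lam (fun p h => W p h * bar lam j F₁ p h * bar lam j F₂ p h)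
      = EE μ lam (fun p h => (W p h * bar lam j F₂ p h) * F₁ p h) := by
    rw [← EE_mul_bar μ lam hl j (fun p h => W p h * bar lam j F₂ p h) F₁ hi]
    congr 1
    funext p h
    ring
  rw [e1]
  unfold EE EE2
  refine Finset.sum_congr rfl fun p _ => ?_
  congr 1
  refine Finset.sum_congr rfl fun h _ => ?_
  congr 1
  have e2 : ∀ h' : ι → X, (∏ i, lam (h' i)) * (W p h * F₁ p h * F₂ p (mix h h' {j}))
      = (W p h * F₁ p h) * ((∏ i, lam (h' i)) * F₂ p (Function.update h j (h' j))) := by
    intro h'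
    rw [b2_mix_singleton]
    ring
  simp only [e2]
  rw [← Finset.mul_sum, b2_sum_coord lam hl j (fun x => F₂ p (Function.update h j x))]
  unfold bar
  ring

theorem EE2_mix (μ : P → ℝ) (lam : X → ℝ) (hl : IsPW lam) (ω : Finset ι)
    (F : P → (ι → X) → ℝ) : EE2 μ lam (fun p h h' => F p (mix h h' ω)) = EE μ lam F := by
  unfold EE EE2
  refine Finset.sum_congr rfl fun p _ => ?_
  congr 1
  have e1 : ∑ h : ι → X, (∏ i, lam (h i)) * ∑ h' : ι → X, (∏ i, lam (h' i)) * F p (mix h h' ω)
      = ∑ q : (ι → X) × (ι → X), ((∏ i, lam (q.1 i)) * (∏ i, lam (q.2 i))) * F p (mix q.1 q.2 ω) := by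
    rw [Fintype.sum_prod_type]
    refine Finset.sum_congr rfl fun h _ => ?_
    rw [Finset.mul_sum]
    refine Finset.sum_congr rfl fun h' _ => ?_
    ring
  have e2 : ∑ h : ι → X, (∏ i, lam (h i)) * F p h
      = ∑ q : (ι → X) × (ι → X), ((∏ i, lam (q.1 i)) * (∏ i, lam (q.2 i))) * F p q.1 := by
    rw [Fintype.sum_prod_type]
    refine Finset.sum_congr rfl fun h _ => ?_
    have : ∀ h' : ι → X, ((∏ i, lam (h i)) * (∏ i, lam (h' i))) * F p h
        = ((∏ i, lam (h i)) * F p h) * (∏ i, lam (h' i)) := by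
      intro h'
      ring
    simp only [this]
    rw [← Finset.mul_sum, sum_pi_weight lam hl, mul_one]
  rw [e1, e2]
  have hinv : Function.Involutive
      (fun q : (ι → X) × (ι → X) => (mix q.1 q.2 ω, mix q.2 q.1 ω)) := by
    intro q
    simp only [b2_mix_mix]
  refine Fintype.sum_equiv hinv.toPerm _ _ fun q => ?_
  simp only [Function.Involutive.coe_toPerm]
  congr 1
  rw [← Finset.prod_mul_distrib, ← Finset.prod_mul_distrib]
  refine Finset.prod_congr rfl fun i _ => ?_
  unfold mix
  by_cases hi : i ∈ ω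
  · simp only [hi, if_true]
    ring
  · simp only [hi, if_false]

lemma EE2_mono (μ : P → ℝ) (lam : X → ℝ) (hμ : IsPW μ) (hl : IsPW lam)
    (F G : P → (ι → X) → (ι → X) → ℝ) (h : ∀ p h h', F p h h' ≤ G p h h') :
    EE2 μ lam F ≤ EE2 μ lam G := by
  unfold EE2
  have hw : ∀ h : ι → X, 0 ≤ ∏ i, lam (h i) := fun h => Finset.prod_nonneg fun i _ => hl.1 _
  refine Finset.sum_le_sum fun p _ => mul_le_mul_of_nonneg_left ?_ (hμ.1 p)
  refine Finset.sum_le_sum fun h' _ => mul_le_mul_of_nonneg_left ?_ (hw _)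
  refine Finset.sum_le_sum fun h'' _ => mul_le_mul_of_nonneg_left (h _ _ _) (hw _)

end

end Pool.Agent.H16.GPS
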