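import Pool.Agent.H16.GPS.Rel.Basic

/-!
GPS-BCS (MP_c183ae_nt). Iterated Cauchy-Schwarz (box norm inequality) with unbounded majorants.

For `J' ⊆ J` put `T J' = EE2 μ lam (fun p h h' => (∏ ω ∈ J'.powerset, G p (mix h h' ω)) *
(∏ i ∈ J', ∏ ω ∈ (J'.erase i).powerset, M i p (mix h h' ω)) * ∏ i ∈ J \ J', ∏ ω ∈ J'.powerset, c i p (mix h h' ω))`.
`T ∅ = EE μ lam (G * ∏ c)`, `T J` = right side. STEP: for `j ∈ J \ J'`: `(T J')² ≤ C * T (insert j J')`.
-/

set_option autoImplicit false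

open Finset

namespace Pool.Agent.H16.GPS

section bcsAux

variable {P ι X : Type} [Fintype P] [Fintype ι] [DecidableEq ι] [Fintype X]

/-- the parameter weight on `P × (ι → X)` -/
noncomputable def bcsW (μ : P → ℝ) (lam : X → ℝ) : P × (ι → X) → ℝ :=
  fun q => μ q.1 * ∏ i, lam (q.2 i)

lemma bcsW_pw (μ : P → ℝ) (lam : X → ℝ) (hμ : IsPW μ) (hl : IsPW lam) :
    IsPW (bcsW (ι := ι) μ lam) := by
  refine ⟨fun q => mul_nonneg (hμ.1 _) (Finset.prod_nonneg fun i _ => hl.1 _), ?_⟩
  rw [Fintype.sum_prod_type]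
  simp only [bcsW]
  simp_rw [← Finset.mul_sum, sum_pi_weight lam hl, mul_one]
  exact hμ.2

lemma bcs_EE2_eq (μ : P → ℝ) (lam : X → ℝ) (F : P → (ι → X) → (ι → X) → ℝ) :
    EE2 μ lam F = EE (bcsW (ι := ι) μ lam) lam (fun q h => F q.1 h q.2) := by
  unfold EE2 EE bcsW
  rw [Fintype.sum_prod_type]
  refine Finset.sum_congr rfl fun p _ => ?_
  dsimp only
  simp_rw [mul_assoc, ← Finset.mul_sum]
  congr 1
  simp_rw [Finset.mul_sum]
  rw [Finset.sum_comm]
  refine Finset.sum_congr rfl fun h' _ => Finset.sum_congr rfl fun h _ => ?_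
  ring

lemma bcs_mix_left (h h' : ι → X) (j : ι) (x : X) (ω : Finset ι) (hj : j ∉ ω) :
    mix (Function.update h j x) h' ω = Function.update (mix h h' ω) j x := by
  funext i
  unfold mix
  by_cases hi : i = j
  · subst hi
    simp [hj]
  · simp [Function.update_of_ne hi]

lemma bcs_mix_right (h h' : ι → X) (j : ι) (x : X) (ω : Finset ι) (hj : j ∉ ω) :
    mix h (Function.update h' j x) ω = mix h h' ω := by
  funext i
  unfold mix
  by_cases hi : i = j
  · subst hi
    simp [hj]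
  · simp [Function.update_of_ne hi]

lemma bcs_mix_insert (h h' : ι → X) (j : ι) (ω : Finset ι) (hj : j ∉ ω) :
    mix h h' (insert j ω) = mix (Function.update h j (h' j)) h' ω := by
  funext i
  unfold mix
  by_cases hi : i = j
  · subst hi
    simp [hj]
  · simp [Function.update_of_ne hi, hi]

/-- the part of the integrand at stage `J'` without the function `c j` -/
noncomputable def bcsR (G : P → (ι → X) → ℝ) (c M : ι → P → (ι → X) → ℝ) (J' K : Finset ι)
    (p : P) (h h' : ι → X) : ℝ :=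
  (∏ ω ∈ J'.powerset, G p (mix h h' ω)) *
    (∏ i ∈ J', ∏ ω ∈ (J'.erase i).powerset, M i p (mix h h' ω)) *
    ∏ i ∈ K, ∏ ω ∈ J'.powerset, c i p (mix h h' ω)

lemma bcsR_indep_right (G : P → (ι → X) → ℝ) (c M : ι → P → (ι → X) → ℝ) (J' K : Finset ι)
    (j : ι) (hj : j ∉ J') (p : P) (h h' : ι → X) (x : X) :
    bcsR G c M J' K p h (Function.update h' j x) = bcsR G c M J' K p h h' := by
  unfold bcsR
  have key : ∀ ω ∈ J'.powerset, mix h (Function.update h' j x) ω = mix h h' ω := by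
    intro ω hω
    exact bcs_mix_right h h' j x ω fun hh => hj (Finset.mem_powerset.1 hω hh)
  have key2 : ∀ i ∈ J', ∀ ω ∈ (J'.erase i).powerset,
      mix h (Function.update h' j x) ω = mix h h' ω := by
    intro i _ ω hω
    exact bcs_mix_right h h' j x ω
      fun hh => hj (Finset.erase_subset _ _ (Finset.mem_powerset.1 hω hh))
  congr 1
  · congr 1
    · exact Finset.prod_congr rfl fun ω hω => by rw [key ω hω]
    · exact Finset.prod_congr rfl fun i hi => Finset.prod_congr rfl fun ω hω => by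
        rw [key2 i hi ω hω]
  · exact Finset.prod_congr rfl fun i _ => Finset.prod_congr rfl fun ω hω => by rw [key ω hω]

lemma bcsR_insert (G : P → (ι → X) → ℝ) (c M : ι → P → (ι → X) → ℝ) (J' K : Finset ι)
    (j : ι) (hj : j ∉ J') (p : P) (h h' : ι → X) :
    bcsR G c M (insert j J') K p h h' =
      (∏ ω ∈ J'.powerset, M j p (mix h h' ω)) * bcsR G c M J' K p h h' *
        bcsR G c M J' K p (Function.update h j (h' j)) h' := by
  have key : ∀ ω ∈ J'.powerset, mix h h' (insert j ω) = mix (Function.update h j (h' j)) h' ω := by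
    intro ω hω
    exact bcs_mix_insert h h' j ω fun hh => hj (Finset.mem_powerset.1 hω hh)
  have e1 : ∏ ω ∈ (insert j J').powerset, G p (mix h h' ω) =
      (∏ ω ∈ J'.powerset, G p (mix h h' ω)) *
        ∏ ω ∈ J'.powerset, G p (mix (Function.update h j (h' j)) h' ω) := by
    rw [Finset.prod_powerset_insert hj]
    congr 1
    exact Finset.prod_congr rfl fun ω hω => by rw [key ω hω]
  have e3 : ∏ i ∈ K, ∏ ω ∈ (insert j J').powerset, c i p (mix h h' ω) =
      (∏ i ∈ K, ∏ ω ∈ J'.powerset, c i p (mix h h' ω)) *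
        ∏ i ∈ K, ∏ ω ∈ J'.powerset, c i p (mix (Function.update h j (h' j)) h' ω) := by
    rw [← Finset.prod_mul_distrib]
    refine Finset.prod_congr rfl fun i _ => ?_
    rw [Finset.prod_powerset_insert hj]
    congr 1
    exact Finset.prod_congr rfl fun ω hω => by rw [key ω hω]
  have e2 : ∏ i ∈ insert j J', ∏ ω ∈ ((insert j J').erase i).powerset, M i p (mix h h' ω) =
      (∏ ω ∈ J'.powerset, M j p (mix h h' ω)) *
      ((∏ i ∈ J', ∏ ω ∈ (J'.erase i).powerset, M i p (mix h h' ω)) *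
        ∏ i ∈ J', ∏ ω ∈ (J'.erase i).powerset, M i p (mix (Function.update h j (h' j)) h' ω)) := by
    rw [Finset.prod_insert hj, Finset.erase_insert hj, ← Finset.prod_mul_distrib]
    congr 1
    refine Finset.prod_congr rfl fun i hi => ?_
    have hij : j ≠ i := fun hh => hj (hh ▸ hi)
    rw [Finset.erase_insert_of_ne hij,
      Finset.prod_powerset_insert (fun hh => hj (Finset.erase_subset _ _ hh))]
    congr 1
    refine Finset.prod_congr rfl fun ω hω => ?_
    rw [bcs_mix_insert h h' j ω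
      (fun hh => hj (Finset.erase_subset _ _ (Finset.mem_powerset.1 hω hh)))]
  unfold bcsR
  rw [e1, e2, e3]
  ring

/-- the quantity at stage `J'` -/
noncomputable def bcsT (μ : P → ℝ) (lam : X → ℝ) (G : P → (ι → X) → ℝ)
    (c M : ι → P → (ι → X) → ℝ) (J J' : Finset ι) : ℝ :=
  EE2 μ lam (fun p h h' => bcsR G c M J' (J \ J') p h h')

theorem bcs_step (μ : P → ℝ) (lam : X → ℝ) (hμ : IsPW μ) (hl : IsPW lam) (J : Finset ι)
    (G : P → (ι → X) → ℝ) (c M : ι → P → (ι → X) → ℝ)
    (hc : ∀ j ∈ J, ∀ p, Indep j (c j p)) (hM : ∀ j ∈ J, ∀ p, Indep j (M j p))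
    (hcM : ∀ j ∈ J, ∀ p h, |c j p h| ≤ M j p h) (C : ℝ)
    (hpre : ∀ j ∈ J, ∀ J' ⊆ J.erase j,
      EE2 μ lam (fun p h h' => ∏ ω ∈ J'.powerset, M j p (mix h h' ω)) ≤ C)
    (J' : Finset ι) (j : ι) (hjJ : j ∈ J) (hj : j ∉ J') (hJ' : J' ⊆ J) :
    (bcsT μ lam G c M J J') ^ 2 ≤ C * bcsT μ lam G c M J (insert j J') := by
  set ν : P × (ι → X) → ℝ := bcsW μ lam with hν
  have hνpw : IsPW ν := bcsW_pw μ lam hμ hl
  set ct : P × (ι → X) → (ι → X) → ℝ :=
    fun q h => ∏ ω ∈ J'.powerset, c j q.1 (mix h q.2 ω) with hct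
  set Mt : P × (ι → X) → (ι → X) → ℝ :=
    fun q h => ∏ ω ∈ J'.powerset, M j q.1 (mix h q.2 ω) with hMt
  set R : P × (ι → X) → (ι → X) → ℝ :=
    fun q h => bcsR G c M J' ((J \ J').erase j) q.1 h q.2 with hR
  have hjω : ∀ ω ∈ J'.powerset, j ∉ ω := fun ω hω hh => hj (Finset.mem_powerset.1 hω hh)
  have hctI : ∀ q, Indep j (ct q) := by
    intro q h x
    simp only [hct]
    refine Finset.prod_congr rfl fun ω hω => ?_
    rw [bcs_mix_left h q.2 j x ω (hjω ω hω)]
    exact hc j hjJ q.1 _ _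
  have hMtI : ∀ q, Indep j (Mt q) := by
    intro q h x
    simp only [hMt]
    refine Finset.prod_congr rfl fun ω hω => ?_
    rw [bcs_mix_left h q.2 j x ω (hjω ω hω)]
    exact hM j hjJ q.1 _ _
  have hcMt : ∀ q h, |ct q h| ≤ Mt q h := by
    intro q h
    simp only [hct, hMt]
    rw [Finset.abs_prod]
    exact Finset.prod_le_prod (fun _ _ => abs_nonneg _) fun ω _ => hcM j hjJ q.1 _
  -- T J' = E ct R
  have hT : bcsT μ lam G c M J J' = EE ν lam (fun q h => ct q h * bar lam j R q h) := by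
    rw [EE_mul_bar ν lam hl j ct R hctI]
    unfold bcsT
    rw [bcs_EE2_eq]
    congr 1
    funext q h
    simp only [hct, hR, bcsR]
    have hmem : j ∈ J \ J' := Finset.mem_sdiff.2 ⟨hjJ, hj⟩
    rw [← Finset.mul_prod_erase (J \ J') _ hmem]
    ring
  have hcs := EE_cs ν lam hνpw hl ct Mt (bar lam j R) hcMt
  have hM1 : EE ν lam Mt ≤ C := by
    have := hpre j hjJ J' (fun i hi => Finset.mem_erase.2 ⟨fun hh => hj (hh ▸ hi), hJ' hi⟩)
    rw [bcs_EE2_eq] at this
    exact this
  have hMt0 : ∀ q h, 0 ≤ Mt q h := fun q h => le_trans (abs_nonneg _) (hcMt q h)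
  have h0 : 0 ≤ EE ν lam (fun q h => Mt q h * bar lam j R q h ^ 2) :=
    EE_nonneg ν lam hνpw hl _ fun q h => mul_nonneg (hMt0 q h) (sq_nonneg _)
  -- identification of the second factor
  have hcI : ∀ q, Indep j (fun h => Mt q h * bar lam j R q h) := by
    intro q h x
    show Mt q _ * bar lam j R q _ = _
    rw [hMtI q h x, bar_indep lam j R q h x]
  have hI : EE ν lam (fun q h => Mt q h * bar lam j R q h ^ 2) =
      bcsT μ lam G c M J (insert j J') := by
    have a1 : EE ν lam (fun q h => Mt q h * bar lam j R q h ^ 2) =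
        EE ν lam (fun q h => (Mt q h * bar lam j R q h) * R q h) := by
      rw [← EE_mul_bar ν lam hl j (fun q h => Mt q h * bar lam j R q h) R hcI]
      congr 1
      funext q h
      ring
    have a2 : EE ν lam (fun q h => (Mt q h * bar lam j R q h) * R q h) =
        EE2 μ lam (fun p h h' => (Mt (p, h') h * R (p, h') h) *
          ∑ x, lam x * R (p, h') (Function.update h j x)) := by
      rw [bcs_EE2_eq]
      congr 1
      funext q h
      simp only [bar]
      ring
    rw [a1, a2]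
    unfold bcsT EE2
    refine Finset.sum_congr rfl fun p _ => ?_
    congr 1
    refine Finset.sum_congr rfl fun h _ => ?_
    congr 1
    symm
    rw [sum_pi_update lam hl j]
    refine Finset.sum_congr rfl fun h' _ => ?_
    congr 1
    have hset : J \ insert j J' = (J \ J').erase j := by
      ext i
      simp only [Finset.mem_sdiff, Finset.mem_insert, Finset.mem_erase]
      tauto
    dsimp only
    rw [Finset.mul_sum]
    refine Finset.sum_congr rfl fun x _ => ?_
    rw [hset, bcsR_insert G c M J' _ j hj, bcsR_indep_right G c M J' _ j hj,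
      bcsR_indep_right G c M J' _ j hj]
    have hMr : ∏ ω ∈ J'.powerset, M j p (mix h (Function.update h' j x) ω) = Mt (p, h') h := by
      simp only [hMt]
      refine Finset.prod_congr rfl fun ω hω => ?_
      rw [bcs_mix_right h h' j x ω (hjω ω hω)]
    rw [hMr]
    simp only [hR, Function.update_self]
    ring
  rw [hT]
  refine hcs.trans ?_
  rw [← hI]
  exact mul_le_mul_of_nonneg_right hM1 h0

end bcsAux

theorem bcs {P ι X : Type} [Fintype P] [Fintype ι] [DecidableEq ι] [Fintype X]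
    (μ : P → ℝ) (lam : X → ℝ) (hμ : IsPW μ) (hl : IsPW lam) (J : Finset ι)
    (G : P → (ι → X) → ℝ) (c M : ι → P → (ι → X) → ℝ)
    (hc : ∀ j ∈ J, ∀ p, Indep j (c j p)) (hM : ∀ j ∈ J, ∀ p, Indep j (M j p))
    (hcM : ∀ j ∈ J, ∀ p h, |c j p h| ≤ M j p h) (C : ℝ) (hC : 1 ≤ C)
    (hpre : ∀ j ∈ J, ∀ J' ⊆ J.erase j,
      EE2 μ lam (fun p h h' => ∏ ω ∈ J'.powerset, M j p (mix h h' ω)) ≤ C) :
    (EE μ lam (fun p h => G p h * ∏ j ∈ J, c j p h)) ^ (2 ^ #J) ≤
      C ^ (2 ^ #J - 1) * EE2 μ lam (fun p h h' => (∏ ω ∈ J.powerset, G p (mix h h' ω)) *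
        ∏ j ∈ J, ∏ ω ∈ (J.erase j).powerset, M j p (mix h h' ω)) := by
  have hT0 : EE μ lam (fun p h => G p h * ∏ j ∈ J, c j p h) = bcsT μ lam G c M J ∅ := by
    unfold bcsT
    rw [← EE2_mix μ lam hl ∅]
    congr 1
    funext p h h'
    unfold bcsR
    simp
  have hTJ : EE2 μ lam (fun p h h' => (∏ ω ∈ J.powerset, G p (mix h h' ω)) *
        ∏ j ∈ J, ∏ ω ∈ (J.erase j).powerset, M j p (mix h h' ω)) = bcsT μ lam G c M J J := by
    unfold bcsT bcsR
    simp
  rw [hT0, hTJ]
  set T0 := bcsT μ lam G c M J ∅ with hT0d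
  have hC0 : 0 < C := by linarith
  have main : ∀ J' : Finset ι, J' ⊆ J →
      |T0| ^ (2 ^ #J') ≤ C ^ (2 ^ #J' - 1) * |bcsT μ lam G c M J J'| ∧
        (J' ≠ ∅ → 0 ≤ bcsT μ lam G c M J J') := by
    intro J'
    induction J' using Finset.induction_on with
    | empty =>
      intro _
      refine ⟨?_, fun h => absurd rfl h⟩
      simp [hT0d]
    | insert j J' hj ih =>
      intro hsub
      have hJ' : J' ⊆ J := fun i hi => hsub (Finset.mem_insert_of_mem hi)
      have hjJ : j ∈ J := hsub (Finset.mem_insert_self _ _)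
      obtain ⟨ih1, _⟩ := ih hJ'
      have hs := bcs_step μ lam hμ hl J G c M hc hM hcM C hpre J' j hjJ hj hJ'
      have hpos : 0 ≤ bcsT μ lam G c M J (insert j J') := by
        have : 0 ≤ C * bcsT μ lam G c M J (insert j J') := le_trans (sq_nonneg _) hs
        exact nonneg_of_mul_nonneg_right this hC0
      refine ⟨?_, fun _ => hpos⟩
      rw [Finset.card_insert_of_notMem hj, abs_of_nonneg hpos]
      have e1 : |T0| ^ (2 ^ (#J' + 1)) = (|T0| ^ (2 ^ #J')) ^ 2 := by
        rw [← pow_mul, pow_succ]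
      have e2 : (2 ^ (#J' + 1) - 1 : ℕ) = 2 * (2 ^ #J' - 1) + 1 := by
        have : 1 ≤ 2 ^ #J' := Nat.one_le_two_pow
        rw [pow_succ]
        omega
      rw [e1, e2]
      calc (|T0| ^ (2 ^ #J')) ^ 2 ≤ (C ^ (2 ^ #J' - 1) * |bcsT μ lam G c M J J'|) ^ 2 :=
            pow_le_pow_left₀ (by positivity) ih1 2
        _ = C ^ (2 * (2 ^ #J' - 1)) * (bcsT μ lam G c M J J') ^ 2 := by
            rw [mul_pow, sq_abs, ← pow_mul, mul_comm (2 ^ #J' - 1) 2]
        _ ≤ C ^ (2 * (2 ^ #J' - 1)) * (C * bcsT μ lam G c M J (insert j J')) :=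
            mul_le_mul_of_nonneg_left hs (by positivity)
        _ = C ^ (2 * (2 ^ #J' - 1) + 1) * bcsT μ lam G c M J (insert j J') := by
            rw [pow_succ]
            ring
  rcases Finset.eq_empty_or_nonempty J with hE | hE
  · subst hE
    simp [hT0d]
  · obtain ⟨m1, m2⟩ := main J (Finset.Subset.refl _)
    have hp := m2 (Finset.nonempty_iff_ne_empty.1 hE)
    rw [abs_of_nonneg hp] at m1
    refine le_trans ?_ m1
    calc T0 ^ (2 ^ #J) ≤ |T0 ^ (2 ^ #J)| := le_abs_self _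
      _ = |T0| ^ (2 ^ #J) := abs_pow _ _

end Pool.Agent.H16.GPS
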