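import Pool.Agent.H16.GPS.Rel.Basic

/-!
JOB GPS-NUBAR (MP_c183ae_nt). The averaged majorant is close to `1` in `L²`.

PROOF. `E (ν')² - 2 E ν' + 1`, `ν' = bar j₀ (∏_{i ≠ j₀} Nh N s i)`. `E ν' = E ∏` (`EE_bar`), `E (ν')² = EE2 (∏ .. h)(∏ .. (mix h h' {j₀}))`
(`EE_bar_bar` with `W = 1`); both are linear forms expectations (pairs `(i, ∅)` and `(i, {j₀})`, `i ∈ s`, `i ≠ j₀`), so each is
`1 + O(η)` and the total is `≤ 3 η`. ~70 lines.
-/

set_option autoImplicit false

open Finset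

namespace Pool.Agent.H16.GPS

private theorem nubar_prod {κ : ℕ} {P X : Type} (N : Fin κ → P → (Fin κ → X) → ℝ)
    (j₀ : Fin κ) (s : Finset (Fin κ)) (p : P) (h : Fin κ → X) :
    ∏ i ∈ univ.erase j₀, Nh N s i p h = ∏ i ∈ s.erase j₀, N i p h := by
  have h1 : ∀ i, Nh N s i p h = if i ∈ s then N i p h else 1 := by
    intro i
    rw [Nh]
    split_ifs <;> rfl
  have h2 : s.erase j₀ = (univ.erase j₀).filter (fun i => i ∈ s) := by
    ext i
    simp only [Finset.mem_erase, Finset.mem_filter, Finset.mem_univ, and_true]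
  rw [h2, Finset.prod_filter]
  exact Finset.prod_congr rfl fun i _ => h1 i

private theorem nubar_mix_empty {ι X : Type} [DecidableEq ι] (h h' : ι → X) : mix h h' ∅ = h := by
  funext i
  simp [mix]

/-- the averaged majorant is close to `1` in `L²`: `E (ν')² - 2 E ν' + 1`, both expectations are linear forms
expectations (pairs `(i, ∅)` and `(i, {j₀})`, `i ∈ s`, `i ≠ j₀`; `EE_bar_bar` with `W = 1`), so `≤ 3 η`. -/
theorem nu_bar_sq (κ : ℕ) (ε : ℝ) (hε : 0 < ε) : ∃ η : ℝ, 0 < η ∧ η ≤ 1 ∧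
    ∀ (P X : Type) [Fintype P] [Fintype X] (μ : P → ℝ) (lam : X → ℝ), IsPW μ → IsPW lam →
    ∀ N : Fin κ → P → (Fin κ → X) → ℝ, (∀ j p h, 0 ≤ N j p h) → (∀ j p, Indep j (N j p)) →
    LFc μ lam N η → ∀ (j₀ : Fin κ) (s : Finset (Fin κ)),
    EE μ lam (fun p h =>
      (bar lam j₀ (fun p h => ∏ i ∈ univ.erase j₀, Nh N s i p h) p h - 1) ^ 2) ≤ ε := by
  refine ⟨min 1 (ε / 3), lt_min one_pos (by positivity), min_le_left _ _, ?_⟩
  intro P X _ _ μ lam hμ hl N hN hI hLF j₀ s
  obtain ⟨F, hF⟩ : ∃ F : P → (Fin κ → X) → ℝ,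
    F = fun p h => ∏ i ∈ univ.erase j₀, Nh N s i p h := ⟨_, rfl⟩
  rw [← hF]
  have hF' : ∀ p h, F p h = ∏ i ∈ s.erase j₀, N i p h := by
    intro p h
    rw [hF]
    exact nubar_prod N j₀ s p h
  -- first moment
  have hB : |EE μ lam F - 1| ≤ min 1 (ε / 3) := by
    have h1 := hLF ((s.erase j₀) ×ˢ {∅}) (by
      rintro ⟨i, ω⟩ hq
      rw [Finset.mem_product, Finset.mem_singleton] at hq
      rw [hq.2]
      exact Finset.notMem_empty _)
    have h2 : (fun (p : P) (h h' : Fin κ → X) =>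
        ∏ q ∈ (s.erase j₀) ×ˢ ({∅} : Finset (Finset (Fin κ))), N q.1 p (mix h h' q.2)) =
        fun p h h' => F p (mix h h' ∅) := by
      funext p h h'
      rw [Finset.prod_product, hF']
      refine Finset.prod_congr rfl fun i _ => ?_
      rw [Finset.prod_singleton]
    rw [h2, EE2_mix μ lam hl] at h1
    exact h1
  -- second moment
  have hA : |EE μ lam (fun p h => bar lam j₀ F p h * bar lam j₀ F p h) - 1| ≤ min 1 (ε / 3) := by
    have h1 := hLF ((s.erase j₀) ×ˢ {∅, {j₀}}) (by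
      rintro ⟨i, ω⟩ hq
      rw [Finset.mem_product, Finset.mem_erase, Finset.mem_insert, Finset.mem_singleton] at hq
      rcases hq.2 with h | h
      · rw [h]
        exact Finset.notMem_empty _
      · rw [h, Finset.mem_singleton]
        exact hq.1.1)
    have h2 : (fun (p : P) (h h' : Fin κ → X) =>
        ∏ q ∈ (s.erase j₀) ×ˢ ({∅, {j₀}} : Finset (Finset (Fin κ))), N q.1 p (mix h h' q.2)) =
        fun p h h' => 1 * F p h * F p (mix h h' {j₀}) := by
      funext p h h'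
      rw [Finset.prod_product, hF', hF', one_mul, ← Finset.prod_mul_distrib]
      refine Finset.prod_congr rfl fun i _ => ?_
      rw [Finset.prod_pair (Finset.singleton_ne_empty j₀).symm, nubar_mix_empty]
    have h3 := EE_bar_bar μ lam hl j₀ (fun _ _ => 1) F F (fun p h x => rfl)
    rw [h2, ← h3] at h1
    simpa only [one_mul] using h1
  have hsq : EE μ lam (fun p h => (bar lam j₀ F p h - 1) ^ 2) =
      EE μ lam (fun p h => bar lam j₀ F p h * bar lam j₀ F p h) - 2 * EE μ lam F + 1 := by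
    have h1 : (fun p h => (bar lam j₀ F p h - 1) ^ 2) = fun (p : P) (h : Fin κ → X) =>
        (bar lam j₀ F p h * bar lam j₀ F p h - 2 * bar lam j₀ F p h) + 1 := by
      funext p h
      ring
    rw [h1, EE_add μ lam (fun p h => bar lam j₀ F p h * bar lam j₀ F p h - 2 * bar lam j₀ F p h)
      (fun _ _ => 1), EE_one μ lam hμ hl, EE_sub μ lam
      (fun p h => bar lam j₀ F p h * bar lam j₀ F p h) (fun p h => 2 * bar lam j₀ F p h),
      EE_const_mul, ← EE_bar μ lam hl j₀ F]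
  rw [hsq]
  have h4 := abs_le.1 hA
  have h5 := abs_le.1 hB
  have h6 := min_le_right (1 : ℝ) (ε / 3)
  linarith [h4.2, h5.1]

end Pool.Agent.H16.GPS
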