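import Pool.Agent.H16.GPS.Rel.Strong
import Pool.Agent.H16.GPS.Rel.NuBar

/-!
JOB GPS-COUNTSTEP (MP_c183ae_nt). Relative counting lemma (densification): one more sparse index.

PROOF of `count_step`. `j₀ ∈ s`. `E ∏ G - E ∏ Gt = E (G j₀ - Gt j₀) ∏_{i ≠ j₀} Gt i + E G j₀ (∏_{i≠j₀} G i - ∏_{i≠j₀} Gt i)`.
First term: `≤ ε'` (`Close` with `u = Gt`). Second: `= E G j₀ (G' - Gt')`, `G' = bar j₀ (∏_{i≠j₀} G i)`,
`Gt' = bar j₀ (∏_{i≠j₀} Gt i)` (`EE_mul_bar`). By `EE_cs` (`|G j₀| ≤ N j₀`): `(second)² ≤ E (N j₀) * E N j₀ (G' - Gt')²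
≤ (1+η)(E (G' - Gt')² + 4 ε₁)` by `strong_lf` (expand the square in three products, `G i ≤ Nh N s i`,
`Gt i ≤ Nh N ∅ i = 1`). Let `m = min G' 1 ∈ [0,1]`, independent of coordinate `j₀`.
`E (G' - Gt')² = E (G' - Gt')(G' - m) + E (G' - Gt') m - E (G' - Gt') Gt'`. With `ν' = bar j₀ (∏ Nh N s i) ≥ G'`:
`0 ≤ G' - m ≤ |ν' - 1|` and `|G' - Gt'| ≤ ν' + 1 ≤ |ν' - 1| + 2`, so the first term is at most
`E |ν'-1|² + 2 E |ν'-1| ≤ ε₂ + 2 sqrt ε₂` (`nu_bar_sq`). `E (G' - Gt') m = E ∏_{i≠j₀} G i * m - E ∏_{i≠j₀} Gt i * m` is the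
difference for the system where `G j₀` and `Gt j₀` are both replaced by `m` (sparse set `s.erase j₀`, `Close` is trivial at
`j₀`, unchanged at the others), so it is `≤ ρ` by the induction hypothesis; the same for `E (G' - Gt') Gt'` (`Gt' ∈ [0,1]`).
Total `≤ ε' + sqrt (2 (2ρ + ε₂ + 2 sqrt ε₂ + 4 ε₁)) ≤ ε` for small `ρ, ε₁, ε₂, ε'`. (The `LFc` hypothesis for the smaller
`η`'s: `LFc` is monotone in `η`.) ~250 lines in total.
-/

set_option autoImplicit false

open Finset

namespace Pool.Agent.H16.GPS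

section csAux

variable {P X : Type} [Fintype P] [Fintype X] {κ : ℕ}

lemma cs_LFc_mono (μ : P → ℝ) (lam : X → ℝ) (N : Fin κ → P → (Fin κ → X) → ℝ) {η η' : ℝ}
    (h : LFc μ lam N η) (hη : η ≤ η') : LFc μ lam N η' :=
  fun S hS => (h S hS).trans hη

lemma cs_bar_mono (lam : X → ℝ) (hl : IsPW lam) (j : Fin κ) (F G : P → (Fin κ → X) → ℝ)
    (h : ∀ p h, F p h ≤ G p h) (p : P) (x : Fin κ → X) : bar lam j F p x ≤ bar lam j G p x := by
  unfold bar
  exact Finset.sum_le_sum fun y _ => mul_le_mul_of_nonneg_left (h _ _) (hl.1 y)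

lemma cs_bar_const (lam : X → ℝ) (hl : IsPW lam) (j : Fin κ) (c : ℝ) (p : P) (x : Fin κ → X) :
    bar lam j (fun (_ : P) _ => c) p x = c := by
  unfold bar
  rw [← Finset.sum_mul, hl.2, one_mul]

lemma cs_EE_congr (μ : P → ℝ) (lam : X → ℝ) {F G : P → (Fin κ → X) → ℝ}
    (h : ∀ p x, F p x = G p x) : EE μ lam F = EE μ lam G := by
  have : F = G := by
    funext p x
    exact h p x
  rw [this]

/-- the comparison of the averaged products against a test function -/
lemma cs_test (μ : P → ℝ) (lam : X → ℝ) (hμ : IsPW μ) (hl : IsPW lam) {ρ ε' : ℝ} (hε' : 0 ≤ ε')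
    (N G Gt : Fin κ → P → (Fin κ → X) → ℝ) (s : Finset (Fin κ)) (j₀ : Fin κ)
    (IH : ∀ G₁ Gt₁ : Fin κ → P → (Fin κ → X) → ℝ, (∀ j p, Indep j (G₁ j p)) →
      (∀ j p, Indep j (Gt₁ j p)) →
      (∀ j p h, 0 ≤ G₁ j p h ∧ G₁ j p h ≤ Nh N (s.erase j₀) j p h) →
      (∀ j p h, 0 ≤ Gt₁ j p h ∧ Gt₁ j p h ≤ 1) →
      (∀ j, Close μ lam j (G₁ j) (Gt₁ j) ε') →
      |EE μ lam (fun p h => ∏ j, G₁ j p h) - EE μ lam (fun p h => ∏ j, Gt₁ j p h)| ≤ ρ)
    (hG : ∀ j p, Indep j (G j p)) (hGt : ∀ j p, Indep j (Gt j p))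
    (hGN : ∀ j p h, 0 ≤ G j p h ∧ G j p h ≤ Nh N s j p h)
    (hGt1 : ∀ j p h, 0 ≤ Gt j p h ∧ Gt j p h ≤ 1)
    (hcl : ∀ j, Close μ lam j (G j) (Gt j) ε')
    (w : P → (Fin κ → X) → ℝ) (hw : ∀ p, Indep j₀ (w p)) (hw1 : ∀ p h, 0 ≤ w p h ∧ w p h ≤ 1) :
    |EE μ lam (fun p h => w p h *
      (bar lam j₀ (fun p h => ∏ i ∈ univ.erase j₀, G i p h) p h -
        bar lam j₀ (fun p h => ∏ i ∈ univ.erase j₀, Gt i p h) p h))| ≤ ρ := by
  have h1 := IH (Function.update G j₀ w) (Function.update Gt j₀ w) ?_ ?_ ?_ ?_ ?_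
  · have e1 : EE μ lam (fun p h => ∏ j, Function.update G j₀ w j p h) =
        EE μ lam (fun p h => w p h *
          bar lam j₀ (fun p h => ∏ i ∈ univ.erase j₀, G i p h) p h) := by
      rw [EE_mul_bar μ lam hl j₀ w _ hw]
      refine cs_EE_congr μ lam fun p x => ?_
      rw [← Finset.mul_prod_erase univ _ (Finset.mem_univ j₀), Function.update_self]
      congr 1
      exact Finset.prod_congr rfl fun i hi => by
        rw [Function.update_of_ne (Finset.ne_of_mem_erase hi)]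
    have e2 : EE μ lam (fun p h => ∏ j, Function.update Gt j₀ w j p h) =
        EE μ lam (fun p h => w p h *
          bar lam j₀ (fun p h => ∏ i ∈ univ.erase j₀, Gt i p h) p h) := by
      rw [EE_mul_bar μ lam hl j₀ w _ hw]
      refine cs_EE_congr μ lam fun p x => ?_
      rw [← Finset.mul_prod_erase univ _ (Finset.mem_univ j₀), Function.update_self]
      congr 1
      exact Finset.prod_congr rfl fun i hi => by
        rw [Function.update_of_ne (Finset.ne_of_mem_erase hi)]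
    rw [e1, e2, ← EE_sub] at h1
    refine le_trans (le_of_eq ?_) h1
    congr 1
    exact cs_EE_congr μ lam fun p x => by ring
  · intro j p
    by_cases hj : j = j₀
    · subst hj; rw [Function.update_self]; exact hw p
    · rw [Function.update_of_ne hj]; exact hG j p
  · intro j p
    by_cases hj : j = j₀
    · subst hj; rw [Function.update_self]; exact hw p
    · rw [Function.update_of_ne hj]; exact hGt j p
  · intro j p h
    by_cases hj : j = j₀
    · subst hj
      rw [Function.update_self]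
      refine ⟨(hw1 p h).1, ?_⟩
      unfold Nh
      rw [if_neg (Finset.notMem_erase _ _)]
      exact (hw1 p h).2
    · rw [Function.update_of_ne hj]
      refine ⟨(hGN j p h).1, ?_⟩
      have := (hGN j p h).2
      unfold Nh at this ⊢
      by_cases hjs : j ∈ s
      · rw [if_pos hjs] at this
        rw [if_pos (Finset.mem_erase.2 ⟨hj, hjs⟩)]
        exact this
      · rw [if_neg hjs] at this
        rw [if_neg (fun hh => hjs (Finset.mem_of_mem_erase hh))]
        exact this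
  · intro j p h
    by_cases hj : j = j₀
    · subst hj; rw [Function.update_self]; exact hw1 p h
    · rw [Function.update_of_ne hj]; exact hGt1 j p h
  · intro j
    by_cases hj : j = j₀
    · subst hj
      rw [Function.update_self, Function.update_self]
      intro u _ _
      have : EE μ lam (fun p h => (w p h - w p h) * ∏ i ∈ univ.erase j, u i p h) = 0 := by
        have h0 := EE_one (ι := Fin κ) μ lam hμ hl 0
        refine Eq.trans (cs_EE_congr μ lam fun p x => ?_) h0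
        ring
      rw [this, abs_zero]
      exact hε'
    · rw [Function.update_of_ne hj, Function.update_of_ne hj]
      exact hcl j

end csAux

theorem count_step (κ m : ℕ) (hκ : 2 ≤ κ) (h : CountP κ m) : CountP κ (m + 1) := by
  intro ε hε
  obtain ⟨θ, hθ0, hθ1, hθ2⟩ : ∃ θ : ℝ, 0 < θ ∧ θ ≤ 1 ∧ 2 * (9 * θ) ≤ (ε / 2) ^ 2 := by
    refine ⟨min 1 (ε ^ 2 / 72), by positivity, min_le_left _ _, ?_⟩
    have := min_le_right (1 : ℝ) (ε ^ 2 / 72)
    nlinarith
  obtain ⟨εa, hεa, ηa, hηa, hηa1, HA⟩ := h θ hθ0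
  obtain ⟨ηb, hηb, hηb1, HB⟩ := strong_lf κ hκ θ hθ0
  obtain ⟨ηc, hηc, hηc1, HC⟩ := nu_bar_sq κ (θ ^ 2) (by positivity)
  refine ⟨min εa (ε / 2), by positivity, min ηa (min ηb ηc), by positivity,
    (min_le_left _ _).trans hηa1, ?_⟩
  intro P X _ _ μ lam hμ hl N G Gt hN hNi hGi hGti hLF s hs hGN hGt1 hcl
  have hLFa := cs_LFc_mono μ lam N hLF (min_le_left ηa (min ηb ηc))
  have hLFb := cs_LFc_mono μ lam N hLF ((min_le_right ηa (min ηb ηc)).trans (min_le_left ηb ηc))
  have hLFcc := cs_LFc_mono μ lam N hLF ((min_le_right ηa (min ηb ηc)).trans (min_le_right ηb ηc))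
  have hcla : ∀ j, Close μ lam j (G j) (Gt j) εa := fun j u h1 h2 =>
    (hcl j u h1 h2).trans (min_le_left _ _)
  have hclb : ∀ j, Close μ lam j (G j) (Gt j) (ε / 2) := fun j u h1 h2 =>
    (hcl j u h1 h2).trans (min_le_right _ _)
  obtain ⟨j₀, hj₀⟩ : s.Nonempty := by
    rw [← Finset.card_pos, hs]; omega
  have hs' : #(s.erase j₀) = m := by
    rw [Finset.card_erase_of_mem hj₀, hs]; omega
  -- test lemma
  have test := fun (w : P → (Fin κ → X) → ℝ) (hw : ∀ p, Indep j₀ (w p))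
      (hw1 : ∀ p h, 0 ≤ w p h ∧ w p h ≤ 1) =>
    cs_test μ lam hμ hl (ρ := θ) (ε' := εa) hεa.le N G Gt s j₀
      (fun G₁ Gt₁ a1 a2 a3 a4 a5 => HA P X μ lam hμ hl N G₁ Gt₁ hN hNi a1 a2 hLFa (s.erase j₀)
        hs' a3 a4 a5) hGi hGti hGN hGt1 hcla w hw hw1
  set A : P → (Fin κ → X) → ℝ := fun p h => ∏ i ∈ univ.erase j₀, G i p h with hA
  set B : P → (Fin κ → X) → ℝ := fun p h => ∏ i ∈ univ.erase j₀, Gt i p h with hB
  set V : P → (Fin κ → X) → ℝ := fun p h => ∏ i ∈ univ.erase j₀, Nh N s i p h with hV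
  have hA0 : ∀ p h, 0 ≤ A p h := fun p h => Finset.prod_nonneg fun i _ => (hGN i p h).1
  have hB0 : ∀ p h, 0 ≤ B p h := fun p h => Finset.prod_nonneg fun i _ => (hGt1 i p h).1
  have hB1 : ∀ p h, B p h ≤ 1 := fun p h =>
    Finset.prod_le_one (fun i _ => (hGt1 i p h).1) (fun i _ => (hGt1 i p h).2)
  have hAV : ∀ p h, A p h ≤ V p h := fun p h =>
    Finset.prod_le_prod (fun i _ => (hGN i p h).1) (fun i _ => (hGN i p h).2)
  have gA0 : ∀ p h, 0 ≤ bar lam j₀ A p h := fun p h => by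
    have := cs_bar_mono lam hl j₀ (fun (_ : P) _ => (0 : ℝ)) A hA0 p h
    rwa [cs_bar_const lam hl] at this
  have gB0 : ∀ p h, 0 ≤ bar lam j₀ B p h := fun p h => by
    have := cs_bar_mono lam hl j₀ (fun (_ : P) _ => (0 : ℝ)) B hB0 p h
    rwa [cs_bar_const lam hl] at this
  have gB1 : ∀ p h, bar lam j₀ B p h ≤ 1 := fun p h => by
    have := cs_bar_mono lam hl j₀ B (fun (_ : P) _ => (1 : ℝ)) hB1 p h
    rwa [cs_bar_const lam hl] at this
  have gAV : ∀ p h, bar lam j₀ A p h ≤ bar lam j₀ V p h := cs_bar_mono lam hl j₀ A V hAV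
  -- the difference in L²
  have hD : EE μ lam (fun p h => (bar lam j₀ A p h - bar lam j₀ B p h) ^ 2) ≤ 5 * θ := by
    have t1 := test (fun p h => min (bar lam j₀ A p h) 1) (fun p h x => by
      show min (bar lam j₀ A p _) 1 = min (bar lam j₀ A p _) 1
      rw [bar_indep lam j₀ A p h x]) (fun p h => ⟨le_min (gA0 p h) zero_le_one, min_le_right _ _⟩)
    have t2 := test (bar lam j₀ B) (bar_indep lam j₀ B) (fun p h => ⟨gB0 p h, gB1 p h⟩)
    have t3 := HC P X μ lam hμ hl N hN hNi hLFcc j₀ s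
    have t4 : EE μ lam (fun p h => (bar lam j₀ A p h - bar lam j₀ B p h) ^ 2) ≤
        EE μ lam (fun p h => ((1 + 1 / θ) * (bar lam j₀ V p h - 1) ^ 2 + θ) +
          (min (bar lam j₀ A p h) 1 * (bar lam j₀ A p h - bar lam j₀ B p h) -
            bar lam j₀ B p h * (bar lam j₀ A p h - bar lam j₀ B p h))) := by
      refine EE_mono μ lam hμ hl _ _ fun p h => ?_
      have a0 := gA0 p h
      have b0 := gB0 p h
      have b1 := gB1 p h
      have av := gAV p h
      generalize bar lam j₀ A p h = a at *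
      generalize bar lam j₀ B p h = b at *
      generalize bar lam j₀ V p h = v at *
      have key : (a - b) * (a - min a 1) ≤ (1 + 1 / θ) * (v - 1) ^ 2 + θ := by
        rcases le_total a 1 with ha | ha
        · rw [min_eq_left ha, sub_self, mul_zero]
          positivity
        · rw [min_eq_right ha]
          have h1 : (a - b) * (a - 1) ≤ v * (v - 1) := by
            have e1 : (a - b) * (a - 1) ≤ a * (a - 1) :=
              mul_le_mul_of_nonneg_right (by linarith) (by linarith)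
            have e2 : a * (a - 1) ≤ v * (v - 1) := by nlinarith
            linarith
          have h2 : v * (v - 1) = (v - 1) ^ 2 + (v - 1) := by ring
          have h3 : v - 1 ≤ 1 / θ * (v - 1) ^ 2 + θ := by
            have e3 : 0 ≤ (1 / θ) * ((v - 1) - θ) ^ 2 := by positivity
            have e4 : (1 / θ) * ((v - 1) - θ) ^ 2 = 1 / θ * (v - 1) ^ 2 - 2 * (v - 1) + θ := by
              field_simp
              ring
            have e5 : 0 ≤ v - 1 := by linarith
            linarith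
          linarith
      nlinarith [key]
    have t5 : EE μ lam (fun p h => ((1 + 1 / θ) * (bar lam j₀ V p h - 1) ^ 2 + θ) +
          (min (bar lam j₀ A p h) 1 * (bar lam j₀ A p h - bar lam j₀ B p h) -
            bar lam j₀ B p h * (bar lam j₀ A p h - bar lam j₀ B p h))) =
        ((1 + 1 / θ) * EE μ lam (fun p h => (bar lam j₀ V p h - 1) ^ 2) + θ) +
          (EE μ lam (fun p h => min (bar lam j₀ A p h) 1 *
            (bar lam j₀ A p h - bar lam j₀ B p h)) -
           EE μ lam (fun p h => bar lam j₀ B p h *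
            (bar lam j₀ A p h - bar lam j₀ B p h))) := by
      rw [EE_add μ lam (fun p h => (1 + 1 / θ) * (bar lam j₀ V p h - 1) ^ 2 + θ), EE_sub,
        EE_add μ lam (fun p h => (1 + 1 / θ) * (bar lam j₀ V p h - 1) ^ 2), EE_const_mul,
        EE_one μ lam hμ hl θ]
    rw [t5] at t4
    have t6 : (1 + 1 / θ) * EE μ lam (fun p h => (bar lam j₀ V p h - 1) ^ 2) ≤
        (1 + 1 / θ) * θ ^ 2 := mul_le_mul_of_nonneg_left t3 (by positivity)
    have t7 : (1 + 1 / θ) * θ ^ 2 = θ ^ 2 + θ := by field_simp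
    have t8 : θ ^ 2 ≤ θ := by nlinarith
    have t9 := abs_le.1 t1
    have t10 := abs_le.1 t2
    linarith [t9.2, t10.1]
  -- the sparse weight
  have hNn : EE μ lam (N j₀) ≤ 2 := by
    have h1 := hLFa {(j₀, ∅)} (by intro q hq; rw [Finset.mem_singleton.1 hq]; exact Finset.notMem_empty _)
    have h2 : EE2 μ lam (fun p h h' => ∏ q ∈ ({(j₀, ∅)} : Finset (Fin κ × Finset (Fin κ))),
        N q.1 p (mix h h' q.2)) = EE μ lam (N j₀) := by
      rw [← EE2_mix μ lam hl ∅ (N j₀)]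
      congr 1
      funext p x y
      rw [Finset.prod_singleton]
    rw [h2] at h1
    linarith [(abs_le.1 h1).2]
  have hGi' : ∀ i p h, |G i p h| ≤ Nh N s i p h := fun i p h => by
    rw [abs_of_nonneg (hGN i p h).1]; exact (hGN i p h).2
  have hGti' : ∀ i p h, |Gt i p h| ≤ Nh N ∅ i p h := fun i p h => by
    rw [abs_of_nonneg (hGt1 i p h).1]
    unfold Nh
    rw [if_neg (Finset.notMem_empty i)]
    exact (hGt1 i p h).2
  have s1 := HB P X μ lam hμ hl N hN hNi hLFb j₀ s s G G hGi hGi hGi' hGi'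
  have s2 := HB P X μ lam hμ hl N hN hNi hLFb j₀ s ∅ G Gt hGi hGti hGi' hGti'
  have s3 := HB P X μ lam hμ hl N hN hNi hLFb j₀ ∅ ∅ Gt Gt hGti hGti hGti' hGti'
  have hW : EE μ lam (fun p h => N j₀ p h * (bar lam j₀ A p h - bar lam j₀ B p h) ^ 2) ≤
      9 * θ := by
    have e1 : EE μ lam (fun p h => N j₀ p h * (bar lam j₀ A p h - bar lam j₀ B p h) ^ 2) =
        EE μ lam (fun p h => (N j₀ p h - 1) * bar lam j₀ A p h * bar lam j₀ A p h) -
        2 * EE μ lam (fun p h => (N j₀ p h - 1) * bar lam j₀ A p h * bar lam j₀ B p h) +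
        EE μ lam (fun p h => (N j₀ p h - 1) * bar lam j₀ B p h * bar lam j₀ B p h) +
        EE μ lam (fun p h => (bar lam j₀ A p h - bar lam j₀ B p h) ^ 2) := by
      rw [← EE_const_mul, ← EE_sub, ← EE_add, ← EE_add]
      exact cs_EE_congr μ lam fun p x => by ring
    rw [e1]
    have u1 := abs_le.1 s1
    have u2 := abs_le.1 s2
    have u3 := abs_le.1 s3
    linarith [u1.2, u2.1, u3.2]
  have hW0 : 0 ≤ EE μ lam (fun p h => N j₀ p h * (bar lam j₀ A p h - bar lam j₀ B p h) ^ 2) :=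
    EE_nonneg μ lam hμ hl _ fun p h => mul_nonneg (hN _ _ _) (sq_nonneg _)
  have hcs := EE_cs μ lam hμ hl (G j₀) (N j₀) (fun p h => bar lam j₀ A p h - bar lam j₀ B p h)
    (fun p h => by
      have := hGi' j₀ p h
      unfold Nh at this
      rwa [if_pos hj₀] at this)
  have hT : |EE μ lam (fun p h => G j₀ p h * (bar lam j₀ A p h - bar lam j₀ B p h))| ≤ ε / 2 := by
    apply abs_le_of_sq_le_sq _ (by positivity)
    calc _ ≤ _ := hcs
      _ ≤ 2 * (9 * θ) := mul_le_mul hNn hW hW0 (by norm_num)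
      _ ≤ (ε / 2) ^ 2 := hθ2
  -- decomposition
  have hdec : EE μ lam (fun p h => ∏ j, G j p h) - EE μ lam (fun p h => ∏ j, Gt j p h) =
      EE μ lam (fun p h => G j₀ p h * (bar lam j₀ A p h - bar lam j₀ B p h)) +
      EE μ lam (fun p h => (G j₀ p h - Gt j₀ p h) * B p h) := by
    have e1 : EE μ lam (fun p h => G j₀ p h * (bar lam j₀ A p h - bar lam j₀ B p h)) =
        EE μ lam (fun p h => G j₀ p h * A p h) - EE μ lam (fun p h => G j₀ p h * B p h) := by
      rw [← EE_mul_bar μ lam hl j₀ (G j₀) A (hGi j₀), ← EE_mul_bar μ lam hl j₀ (G j₀) B (hGi j₀),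
        ← EE_sub]
      exact cs_EE_congr μ lam fun p x => by ring
    rw [e1, ← EE_sub, ← EE_sub, ← EE_add]
    refine cs_EE_congr μ lam fun p x => ?_
    rw [← Finset.mul_prod_erase univ (fun j => G j p x) (Finset.mem_univ j₀),
      ← Finset.mul_prod_erase univ (fun j => Gt j p x) (Finset.mem_univ j₀)]
    simp only [hA, hB]
    ring
  have hlast := hclb j₀ Gt hGti hGt1
  rw [hdec]
  calc |EE μ lam (fun p h => G j₀ p h * (bar lam j₀ A p h - bar lam j₀ B p h)) +
      EE μ lam (fun p h => (G j₀ p h - Gt j₀ p h) * B p h)| ≤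
        |EE μ lam (fun p h => G j₀ p h * (bar lam j₀ A p h - bar lam j₀ B p h))| +
        |EE μ lam (fun p h => (G j₀ p h - Gt j₀ p h) * B p h)| := abs_add_le _ _
    _ ≤ ε / 2 + ε / 2 := add_le_add hT hlast
    _ = ε := by ring

end Pool.Agent.H16.GPS
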