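import Pool.Agent.H16.GPS.Rel.CountZero
import Pool.Agent.H16.GPS.Rel.CountStep

/-!
Relative counting lemma.
-/

set_option autoImplicit false

open Finset

namespace Pool.Agent.H16.GPS

theorem count_all (κ m : ℕ) (hκ : 2 ≤ κ) : CountP κ m := by
  induction m with
  | zero => exact count_zero κ
  | succ m ih => exact count_step κ m hκ ih

end Pool.Agent.H16.GPS
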