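import Pool.Agent.H16.GPS.Rel.Basic

/-!
JOB GPS-COUNT0 (MP_c183ae_nt). Counting lemma without sparse indices.

PROOF. (`s = ∅`, all `0 ≤ G j ≤ 1`): telescoping, `∏ G - ∏ Gt = ∑ j, (G j - Gt j) ∏_{i<j} Gt i ∏_{i>j} G i`
(`Finset.prod_sub_ordered`-like, or induction over the finset of already replaced indices), each term is `≤ ε'` by `Close` (with
`u i = Gt i` or `G i`); `ε' = ε/(κ+1)`. ~80 lines.
-/

set_option autoImplicit false

open Finset

namespace Pool.Agent.H16.GPS

theorem cz_EE_sub {P ι X : Type} [Fintype P] [Fintype ι] [DecidableEq ι] [Fintype X]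
    (μ : P → ℝ) (lam : X → ℝ) (F F' : P → (ι → X) → ℝ) :
    EE μ lam F - EE μ lam F' = EE μ lam (fun p h => F p h - F' p h) := by
  unfold EE
  rw [← Finset.sum_sub_distrib]
  refine Finset.sum_congr rfl fun p _ => ?_
  rw [← mul_sub, ← Finset.sum_sub_distrib]
  congr 1
  refine Finset.sum_congr rfl fun h _ => ?_
  ring

/-- the first `k` functions are replaced -/
def czH {κ : ℕ} {P X : Type} (G Gt : Fin κ → P → (Fin κ → X) → ℝ) (k : ℕ) (j : Fin κ) :
    P → (Fin κ → X) → ℝ := if (j : ℕ) < k then Gt j else G j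

theorem cz_step {κ : ℕ} {P X : Type} (G Gt : Fin κ → P → (Fin κ → X) → ℝ)
    (k : Fin κ) (p : P) (h : Fin κ → X) :
    (∏ j, czH G Gt (k : ℕ) j p h) - ∏ j, czH G Gt ((k : ℕ) + 1) j p h =
      (G k p h - Gt k p h) * ∏ i ∈ univ.erase k, czH G Gt (k : ℕ) i p h := by
  rw [← Finset.mul_prod_erase univ (fun j => czH G Gt (k : ℕ) j p h) (mem_univ k),
    ← Finset.mul_prod_erase univ (fun j => czH G Gt ((k : ℕ) + 1) j p h) (mem_univ k)]
  have h1 : ∏ i ∈ univ.erase k, czH G Gt ((k : ℕ) + 1) i p h =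
      ∏ i ∈ univ.erase k, czH G Gt (k : ℕ) i p h := by
    refine Finset.prod_congr rfl fun i hi => ?_
    have hne : i ≠ k := Finset.ne_of_mem_erase hi
    have hne' : (i : ℕ) ≠ (k : ℕ) := fun hc => hne (Fin.ext hc)
    unfold czH
    have hiff : (i : ℕ) < (k : ℕ) + 1 ↔ (i : ℕ) < (k : ℕ) := by omega
    simp only [hiff]
  have h2 : czH G Gt (k : ℕ) k = G k := by
    unfold czH
    rw [if_neg (lt_irrefl _)]
  have h3 : czH G Gt ((k : ℕ) + 1) k = Gt k := by
    unfold czH
    rw [if_pos (Nat.lt_succ_self _)]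
  simp only [h1, h2, h3]
  ring

theorem count_zero (κ : ℕ) : CountP κ 0 := by
  intro ε hε
  refine ⟨ε / (κ + 1), by positivity, 1, one_pos, le_refl _, ?_⟩
  intro P X _ _ μ lam hμ hlam N G Gt hN hNi hGi hGti hLF s hs hG hGt hcl
  have hs0 : s = ∅ := Finset.card_eq_zero.1 hs
  subst hs0
  have hG1 : ∀ j p h, 0 ≤ G j p h ∧ G j p h ≤ 1 := by
    intro j p h
    have h1 := hG j p h
    simpa [Nh] using h1
  have key : ∀ k : ℕ, k ≤ κ →
      |EE μ lam (fun p h => ∏ j, G j p h) - EE μ lam (fun p h => ∏ j, czH G Gt k j p h)| ≤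
        k * (ε / (κ + 1)) := by
    intro k
    induction k with
    | zero =>
      intro _
      have h1 : (fun (p : P) (h : Fin κ → X) => ∏ j, czH G Gt 0 j p h) =
          fun p h => ∏ j, G j p h := by
        funext p h
        refine Finset.prod_congr rfl fun j _ => ?_
        unfold czH
        rw [if_neg (Nat.not_lt_zero _)]
      rw [h1, sub_self, abs_zero]
      simp
    | succ k ih =>
      intro hk
      have h1 := ih (by omega)
      have h2 : |EE μ lam (fun p h => ∏ j, czH G Gt k j p h) -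
          EE μ lam (fun p h => ∏ j, czH G Gt (k + 1) j p h)| ≤ ε / (κ + 1) := by
        rw [cz_EE_sub]
        have h3 : (fun (p : P) (h : Fin κ → X) => (∏ j, czH G Gt k j p h) -
            ∏ j, czH G Gt (k + 1) j p h) = fun p h =>
            (G ⟨k, hk⟩ p h - Gt ⟨k, hk⟩ p h) * ∏ i ∈ univ.erase (⟨k, hk⟩ : Fin κ),
              czH G Gt k i p h := by
          funext p h
          exact cz_step G Gt ⟨k, hk⟩ p h
        rw [h3]
        refine hcl ⟨k, hk⟩ (czH G Gt k) ?_ ?_
        · intro i p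
          unfold czH
          split_ifs
          · exact hGti i p
          · exact hGi i p
        · intro i p h
          unfold czH
          split_ifs
          · exact hGt i p h
          · exact hG1 i p h
      have h4 := abs_sub_le (EE μ lam (fun p h => ∏ j, G j p h))
        (EE μ lam (fun p h => ∏ j, czH G Gt k j p h))
        (EE μ lam (fun p h => ∏ j, czH G Gt (k + 1) j p h))
      push_cast
      linarith
  have hfin := key κ (le_refl _)
  have h1 : (fun (p : P) (h : Fin κ → X) => ∏ j, czH G Gt κ j p h) =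
      fun p h => ∏ j, Gt j p h := by
    funext p h
    refine Finset.prod_congr rfl fun j _ => ?_
    unfold czH
    rw [if_pos j.isLt]
  rw [h1] at hfin
  refine hfin.trans ?_
  have hκ : (0 : ℝ) ≤ (κ : ℝ) := Nat.cast_nonneg κ
  rw [mul_div_assoc', div_le_iff₀ (by positivity)]
  nlinarith

end Pool.Agent.H16.GPS
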