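import Mathlib

/-!
GPS (MP_c183ae_nt): definitions for the relative theorem (Green-Tao / Conlon-Fox-Zhao with a parameter).
-/

set_option autoImplicit false

open Finset

namespace Pool.Agent.H16.GPS

/-- probability weight -/
def IsPW {X : Type} [Fintype X] (μ : X → ℝ) : Prop := (∀ x, 0 ≤ μ x) ∧ ∑ x, μ x = 1

/-- uniform weight -/
noncomputable def unif (X : Type) [Fintype X] : X → ℝ := fun _ => 1 / (Fintype.card X : ℝ)

/-- expectation of `F p h`, `p` with weight `μ`, `h : ι → X` with independent coordinates of weight `lam` -/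
noncomputable def EE {P ι X : Type} [Fintype P] [Fintype ι] [DecidableEq ι] [Fintype X]
    (μ : P → ℝ) (lam : X → ℝ) (F : P → (ι → X) → ℝ) : ℝ :=
  ∑ p, μ p * ∑ h : ι → X, (∏ i, lam (h i)) * F p h

/-- the same with two independent copies `h, h'` -/
noncomputable def EE2 {P ι X : Type} [Fintype P] [Fintype ι] [DecidableEq ι] [Fintype X]
    (μ : P → ℝ) (lam : X → ℝ) (F : P → (ι → X) → (ι → X) → ℝ) : ℝ :=
  ∑ p, μ p * ∑ h : ι → X, (∏ i, lam (h i)) * ∑ h' : ι → X, (∏ i, lam (h' i)) * F p h h'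

/-- `h'` on `ω`, `h` off `ω` -/
def mix {ι X : Type} [DecidableEq ι] (h h' : ι → X) (ω : Finset ι) : ι → X :=
  fun i => if i ∈ ω then h' i else h i

/-- `F` does not depend on the coordinate `j` -/
def Indep {ι X : Type} [DecidableEq ι] (j : ι) (F : (ι → X) → ℝ) : Prop :=
  ∀ h x, F (Function.update h j x) = F h

/-- average over the coordinate `j` -/
noncomputable def bar {P ι X : Type} [DecidableEq ι] [Fintype X] (lam : X → ℝ) (j : ι)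
    (F : P → (ι → X) → ℝ) : P → (ι → X) → ℝ :=
  fun p h => ∑ x, lam x * F p (Function.update h j x)

/-- linear forms condition for a system `N j` of functions (`N j` independent of coordinate `j`) -/
def LFc {P ι X : Type} [Fintype P] [Fintype ι] [DecidableEq ι] [Fintype X]
    (μ : P → ℝ) (lam : X → ℝ) (N : ι → P → (ι → X) → ℝ) (η : ℝ) : Prop :=
  ∀ S : Finset (ι × Finset ι), (∀ q ∈ S, q.1 ∉ q.2) →
    |EE2 μ lam (fun p h h' => ∏ q ∈ S, N q.1 p (mix h h' q.2)) - 1| ≤ η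

/-- `N i` if `i ∈ s`, the constant `1` otherwise -/
noncomputable def Nh {P ι X : Type} [DecidableEq ι] (N : ι → P → (ι → X) → ℝ) (s : Finset ι) (i : ι) :
    P → (ι → X) → ℝ := if i ∈ s then N i else fun _ _ => 1

/-- closeness in cut norm with respect to products of functions independent of one coordinate `i ≠ j` -/
def Close {P ι X : Type} [Fintype P] [Fintype ι] [DecidableEq ι] [Fintype X]
    (μ : P → ℝ) (lam : X → ℝ) (j : ι) (G Gt : P → (ι → X) → ℝ) (ε : ℝ) : Prop :=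
  ∀ u : ι → P → (ι → X) → ℝ, (∀ i p, Indep i (u i p)) →
    (∀ i p h, 0 ≤ u i p h ∧ u i p h ≤ 1) →
    |EE μ lam (fun p h => (G p h - Gt p h) * ∏ i ∈ univ.erase j, u i p h)| ≤ ε

/-- the counting statement with sparse set of size `m` -/
def CountP (κ m : ℕ) : Prop := ∀ ε : ℝ, 0 < ε → ∃ ε' : ℝ, 0 < ε' ∧ ∃ η : ℝ, 0 < η ∧ η ≤ 1 ∧
    ∀ (P X : Type) [Fintype P] [Fintype X] (μ : P → ℝ) (lam : X → ℝ), IsPW μ → IsPW lam →
    ∀ N G Gt : Fin κ → P → (Fin κ → X) → ℝ, (∀ j p h, 0 ≤ N j p h) → (∀ j p, Indep j (N j p)) →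
    (∀ j p, Indep j (G j p)) → (∀ j p, Indep j (Gt j p)) → LFc μ lam N η →
    ∀ s : Finset (Fin κ), #s = m →
    (∀ j p h, 0 ≤ G j p h ∧ G j p h ≤ Nh N s j p h) → (∀ j p h, 0 ≤ Gt j p h ∧ Gt j p h ≤ 1) →
    (∀ j, Close μ lam j (G j) (Gt j) ε') →
    |EE μ lam (fun p h => ∏ j, G j p h) - EE μ lam (fun p h => ∏ j, Gt j p h)| ≤ ε

/-- `L j h = ∑ i, (j - i) h i` -/
def LL {κ : ℕ} {Γ : Type} [AddCommGroup Γ] (j : Fin κ) (h : Fin κ → Γ) : Γ :=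
  ∑ i : Fin κ, (((j : ℕ) : ℤ) - ((i : ℕ) : ℤ)) • h i

/-- the counting functional: `E_{(A,x)} E_h ∏ j, g (A, x + L j h)` -/
noncomputable def Lam {Θ Γ : Type} [Fintype Θ] [Fintype Γ] [AddCommGroup Γ] (κ : ℕ)
    (lam : Γ → ℝ) (g : Θ × Γ → ℝ) : ℝ :=
  EE (unif (Θ × Γ)) lam (fun p (h : Fin κ → Γ) => ∏ j : Fin κ, g (p.1, p.2 + LL j h))

/-- linear forms condition for `ν` -/
def LFnu {Θ Γ : Type} [Fintype Θ] [Fintype Γ] [AddCommGroup Γ] (κ : ℕ)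
    (lam : Γ → ℝ) (ν : Θ × Γ → ℝ) (η : ℝ) : Prop :=
  LFc (unif (Θ × Γ)) lam (fun (j : Fin κ) p h => ν (p.1, p.2 + LL j h)) η

/-- linear forms condition for the cubes `z + κ! ∑ c, y c` -/
def LFd {Θ Γ : Type} [Fintype Θ] [Fintype Γ] [AddCommGroup Γ] (κ : ℕ)
    (lam' : Γ → ℝ) (ν : Θ × Γ → ℝ) (η : ℝ) : Prop :=
  ∀ S : Finset (Finset (Fin κ)),
    |EE2 (unif (Θ × Γ)) lam' (fun p y y' => ∏ ω ∈ S,
      ν (p.1, p.2 + κ.factorial • ∑ c : Fin κ, mix y y' ω c)) - 1| ≤ η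

/-- `lam` is nearly invariant under the shifts by `c y`, `y` in the support of `lam'`, `|c| ≤ κ!` -/
def NearInv {Γ : Type} [Fintype Γ] [AddCommGroup Γ] (κ : ℕ) (lam lam' : Γ → ℝ) (τ : ℝ) : Prop :=
  ∀ y : Γ, lam' y ≠ 0 → ∀ c : ℤ, |c| ≤ κ.factorial → ∑ g, |lam g - lam (g - c • y)| ≤ τ

/-- test functions for the dense model -/
def TestFn {Θ Γ : Type} [Fintype Θ] [Fintype Γ] [AddCommGroup Γ] (κ : ℕ) (lam : Γ → ℝ) :
    Set (Θ × Γ → ℝ) :=
  {φ | (φ = fun _ => 1) ∨ ∃ (j : Fin κ) (u : Fin κ → Θ × Γ → (Fin κ → Γ) → ℝ),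
    (∀ i p, Indep i (u i p)) ∧ (∀ i p h, 0 ≤ u i p h ∧ u i p h ≤ 1) ∧
    ∀ p, φ p = ∑ h : Fin κ → Γ, (∏ i, lam (h i)) *
      ∏ i ∈ univ.erase j, u i (p.1, p.2 - LL j h) h}

/-- law of `b ξ`, `ξ` uniform -/
noncomputable def lawU {Ξ Γ : Type} [Fintype Ξ] (b : Ξ → Γ) (g : Γ) : ℝ := by
  classical exact (#(univ.filter (fun ξ => b ξ = g)) : ℝ) / (Fintype.card Ξ : ℝ)

/-- law of `∑_{i ≤ r} b (ξ i)`, `r : Fin n` uniform, `ξ i` uniform independent -/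
noncomputable def lawN {Ξ Γ : Type} [Fintype Ξ] [AddCommGroup Γ] (n : ℕ) (b : Ξ → Γ) : Γ → ℝ :=
  lawU (fun ω : Fin n × (Fin n → Ξ) => ∑ i ∈ univ.filter (fun i => i ≤ ω.1), b (ω.2 i))

end Pool.Agent.H16.GPS
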