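import Pool.Agent.H16.GPS.Rel.Defs

/-!
JOB GPS-SEP (MP_c183ae_nt). Separation for finitely many test functions, and polynomial approximation of `max t 0`.

PROOF of `sep_finite`. The map `T g = (i ↦ ∑ x, w x * ((f x - g x) * φ i x))` is affine and continuous; the image `K` of the
compact convex set `{g | ∀ x, 0 ≤ g x ≤ 1}` (`Set.pi univ (fun _ => Icc 0 1)`, `isCompact_univ_pi`) is compact and convex in
`Fin M → ℝ`. If `K` meets the closed cube `Q = {y | ∀ i, |y i| ≤ ε}` the first alternative holds. Otherwise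
`geometric_hahn_banach_closed_compact` (or `compact_closed`) gives a continuous linear functional with
`sup_Q < s < inf_K`; it has the form `y ↦ ∑ i, a i * y i`; at the point `y i = ε sign (a i)` of `Q` it is `ε ∑ |a i|`, so
`ε ∑ |a i| < s < ∑ a i (T g) i` for all `g`. `∑ |a i| > 0` (otherwise `0 < 0`); divide by it. ~100 lines.
PROOF of `relu_poly`: `exists_polynomial_near_of_continuousOn` (Weierstrass) on `Icc (-1) 1`.
-/

set_option autoImplicit false

open Finset

namespace Pool.Agent.H16.GPS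

theorem sep_finite {Ω : Type} [Fintype Ω] (w : Ω → ℝ) (M : ℕ) (φ : Fin M → Ω → ℝ) (f : Ω → ℝ)
    (ε : ℝ) (hε : 0 < ε) :
    (∃ g : Ω → ℝ, (∀ x, 0 ≤ g x ∧ g x ≤ 1) ∧ ∀ i, |∑ x, w x * ((f x - g x) * φ i x)| ≤ ε) ∨
    (∃ a : Fin M → ℝ, ∑ i, |a i| ≤ 1 ∧ ∀ g : Ω → ℝ, (∀ x, 0 ≤ g x ∧ g x ≤ 1) →
      ε < ∑ x, w x * ((f x - g x) * ∑ i, a i * φ i x)) := by
  classical
  let T : (Ω → ℝ) → (Fin M → ℝ) := fun g i => ∑ x, w x * ((f x - g x) * φ i x)
  have hTc : Continuous T := by
    refine continuous_pi fun i => ?_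
    refine continuous_finsetSum _ fun x _ => ?_
    exact continuous_const.mul ((continuous_const.sub (continuous_apply x)).mul continuous_const)
  let B : Set (Ω → ℝ) := Set.pi Set.univ (fun _ => Set.Icc (0 : ℝ) 1)
  have hBc : IsCompact B := isCompact_univ_pi fun _ => isCompact_Icc
  have hBv : Convex ℝ B := convex_pi fun _ _ => convex_Icc 0 1
  have hBm : ∀ g : Ω → ℝ, g ∈ B ↔ ∀ x, 0 ≤ g x ∧ g x ≤ 1 := by
    intro g
    simp only [B, Set.mem_univ_pi, Set.mem_Icc]
  have hK : IsCompact (T '' B) := hBc.image hTc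
  have hKv : Convex ℝ (T '' B) := by
    rintro _ ⟨g₁, hg₁, rfl⟩ _ ⟨g₂, hg₂, rfl⟩ a b ha hb hab
    refine ⟨a • g₁ + b • g₂, hBv hg₁ hg₂ ha hb hab, ?_⟩
    funext i
    simp only [T, Pi.add_apply, Pi.smul_apply, smul_eq_mul, Finset.mul_sum]
    rw [← Finset.sum_add_distrib]
    refine Finset.sum_congr rfl fun x _ => ?_
    have : b = 1 - a := by linarith
    subst this
    ring
  by_cases hd : Disjoint (Metric.closedBall (0 : Fin M → ℝ) ε) (T '' B)
  · right
    obtain ⟨F, u, v, hF1, huv, hF2⟩ := geometric_hahn_banach_compact_closed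
      (convex_closedBall (0 : Fin M → ℝ) ε) (isCompact_closedBall (0 : Fin M → ℝ) ε) hKv
      hK.isClosed hd
    let a' : Fin M → ℝ := fun i => F (Pi.single i 1)
    have hFe : ∀ y : Fin M → ℝ, F y = ∑ i, a' i * y i := by
      intro y
      have h1 : y = ∑ i, y i • (Pi.single i (1 : ℝ) : Fin M → ℝ) := by
        funext l
        simp [Finset.sum_apply, Pi.single_apply]
      conv_lhs => rw [h1]
      rw [map_sum]
      refine Finset.sum_congr rfl fun i _ => ?_
      rw [map_smul, smul_eq_mul, mul_comm]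
    have hlow : ε * ∑ i, |a' i| < u := by
      have h1 : (fun i => ε * SignType.sign (a' i) : Fin M → ℝ) ∈
          Metric.closedBall (0 : Fin M → ℝ) ε := by
        rw [mem_closedBall_zero_iff, pi_norm_le_iff_of_nonneg hε.le]
        intro i
        rw [Real.norm_eq_abs, abs_mul, abs_of_pos hε]
        have : |((SignType.sign (a' i) : SignType) : ℝ)| ≤ 1 := by
          rcases lt_trichotomy (a' i) 0 with h | h | h
          · rw [sign_neg h]; simp
          · rw [h]; simp
          · rw [sign_pos h]; simp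
        nlinarith
      have h2 := hF1 _ h1
      rw [hFe] at h2
      refine lt_of_eq_of_lt ?_ h2
      rw [Finset.mul_sum]
      refine Finset.sum_congr rfl fun i _ => ?_
      rcases lt_trichotomy (a' i) 0 with h | h | h
      · rw [sign_neg h, abs_of_neg h]; simp; ring
      · rw [h]; simp
      · rw [sign_pos h, abs_of_pos h]; simp; ring
    have hup : ∀ g : Ω → ℝ, (∀ x, 0 ≤ g x ∧ g x ≤ 1) →
        v < ∑ x, w x * ((f x - g x) * ∑ i, a' i * φ i x) := by
      intro g hg
      have h1 := hF2 (T g) ⟨g, (hBm g).2 hg, rfl⟩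
      rw [hFe] at h1
      refine lt_of_lt_of_eq h1 ?_
      simp only [T, Finset.mul_sum]
      rw [Finset.sum_comm]
      refine Finset.sum_congr rfl fun x _ => ?_
      refine Finset.sum_congr rfl fun i _ => ?_
      ring
    have hA : 0 < ∑ i, |a' i| := by
      rcases (Finset.sum_nonneg fun i (_ : i ∈ univ) => abs_nonneg (a' i)).lt_or_eq with h | h
      · exact h
      · exfalso
        have h0 : ∀ i, a' i = 0 := by
          intro i
          have := (Finset.sum_eq_zero_iff_of_nonneg fun i _ => abs_nonneg (a' i)).1 h.symm i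
            (mem_univ i)
          exact abs_eq_zero.1 this
        have h1 := hup (fun _ => 0) (fun _ => ⟨le_rfl, zero_le_one⟩)
        simp only [h0, zero_mul, Finset.sum_const_zero, mul_zero] at h1
        rw [← h, mul_zero] at hlow
        linarith
    refine ⟨fun i => a' i / ∑ i, |a' i|, ?_, ?_⟩
    · simp only [abs_div, abs_of_pos hA]
      rw [← Finset.sum_div, div_self hA.ne']
    · intro g hg
      have h1 := hup g hg
      have h2 : ∑ x, w x * ((f x - g x) * ∑ i, a' i / (∑ i, |a' i|) * φ i x) =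
          (∑ x, w x * ((f x - g x) * ∑ i, a' i * φ i x)) / ∑ i, |a' i| := by
        rw [Finset.sum_div]
        refine Finset.sum_congr rfl fun x _ => ?_
        have h3 : ∑ i, a' i / (∑ i, |a' i|) * φ i x = (∑ i, a' i * φ i x) / ∑ i, |a' i| := by
          rw [Finset.sum_div]
          refine Finset.sum_congr rfl fun i _ => ?_
          ring
        rw [h3]
        ring
      rw [h2, lt_div_iff₀ hA]
      linarith
  · left
    rw [Set.not_disjoint_iff] at hd
    obtain ⟨y, hy, g, hg, hgy⟩ := hd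
    refine ⟨g, (hBm g).1 hg, fun i => ?_⟩
    rw [mem_closedBall_zero_iff, pi_norm_le_iff_of_nonneg hε.le] at hy
    have h1 := hy i
    rw [← hgy, Real.norm_eq_abs] at h1
    exact h1

theorem relu_poly (ε : ℝ) (hε : 0 < ε) : ∃ p : Polynomial ℝ, ∀ t : ℝ, -1 ≤ t → t ≤ 1 →
    |p.eval t - max t 0| ≤ ε := by
  obtain ⟨p, hp⟩ := exists_polynomial_near_of_continuousOn (-1) 1 (fun t => max t 0)
    (continuous_id.max continuous_const).continuousOn ε hε
  exact ⟨p, fun t h1 h2 => (hp t ⟨h1, h2⟩).le⟩

end Pool.Agent.H16.GPS
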