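import Pool.Agent.H16.GPS.Rel.Bcs

/-!
JOB GPS-STRONG (MP_c183ae_nt). Strong linear forms condition.

`Nh N s i` is `N i` if `i ∈ s` and `1` otherwise.

PROOF. The quantity is (as `N j₀` does not depend on coordinate `j₀`, and by two independent copies `a, b` of that
coordinate) `EE μ' lam (fun (p, a, b) h => (N j₀ p h - 1) * ∏ i ∈ J, c i (p, a, b) h)` with `J = univ.erase j₀`,
`μ' (p, a, b) = μ p * lam a * lam b` on `P × X × X`, `c i (p,a,b) h = K₁ i p (update h j₀ a) * K₂ i p (update h j₀ b)`, which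
is independent of coordinate `i` and bounded by `M i (p,a,b) h = Nh N s₁ i p (update h j₀ a) * Nh N s₂ i p (update h j₀ b)`.
Apply `bcs` with `C = 2`. The prefactors are `EE2` of products `∏ ω ∈ J'.powerset, M j` = `EE2 μ lam` of the product of the
`N q.1` over a set `S` of pairs: `(j, ω)` (if `j ∈ s₁`) and `(j, insert j₀ ω)` (if `j ∈ s₂`), `ω ⊆ J' ⊆ J.erase j`
(rename `a = h j₀`, `b = h' j₀`: nothing else depends on `h j₀`, `h' j₀`), so they are `≤ 1 + η ≤ 2`. The right side of `bcs`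
is `2^(2^r - 1)` times (`r = #J = κ - 1`) `EE2 μ lam` of `∏ ω ∈ J.powerset, (N j₀ p (mix h h' ω) - 1)` times the product of the
`N i p (mix h h' ω)` (`i ∈ s₁`, `ω ⊆ J.erase i`) and `N i p (mix h h' (insert j₀ ω))` (`i ∈ s₂`). Expand the product of the
`(N - 1)` (`Finset.prod_add` / `prod_sub`): `∑ over subsets 𝒯 of J.powerset of (-1)^{..} *` (expectation of a product over a set
of distinct pairs, `= 1 + O(η)` by `LFc`); the main terms cancel (`J.powerset` is nonempty), so it is `≤ 2^(2^r) η`.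
Hence `|..|^(2^r) ≤ 2^(2^r - 1) * 2^(2^r) * η`, small for small `η` (depending on `κ`, `ε` only). ~220 lines.
-/

set_option autoImplicit false

open Finset

namespace Pool.Agent.H16.GPS

section StrongAux
variable {P ι X : Type} [Fintype P] [Fintype ι] [DecidableEq ι] [Fintype X]

theorem Strong_A (μ : P → ℝ) (lam : X → ℝ) (hl : IsPW lam) (j₀ : ι)
    (F : P → (ι → X) → (ι → X) → ℝ) :
    EE2 μ lam F = EE2 (fun q : P × X => μ q.1 * lam q.2) lam
      (fun q h h' => F q.1 h (Function.update h' j₀ q.2)) := by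
  unfold EE2
  rw [Fintype.sum_prod_type]
  refine sum_congr rfl fun p _ => ?_
  have h1 : ∀ h : ι → X, ∑ h' : ι → X, (∏ i, lam (h' i)) * F p h h' =
      ∑ h' : ι → X, (∏ i, lam (h' i)) * ∑ b, lam b * F p h (Function.update h' j₀ b) :=
    fun h => sum_pi_update lam hl j₀ (F p h)
  simp only [h1]
  have h2 : ∀ b : X, μ p * lam b * ∑ h : ι → X, (∏ i, lam (h i)) *
      ∑ h' : ι → X, (∏ i, lam (h' i)) * F p h (Function.update h' j₀ b) =
      ∑ h : ι → X, ∑ h' : ι → X, μ p * ((∏ i, lam (h i)) * ((∏ i, lam (h' i)) *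
        (lam b * F p h (Function.update h' j₀ b)))) := by
    intro b
    rw [mul_sum]
    refine sum_congr rfl fun h _ => ?_
    rw [mul_sum, mul_sum]
    refine sum_congr rfl fun h' _ => ?_
    ring
  rw [sum_congr rfl fun b _ => h2 b, sum_comm, mul_sum]
  refine sum_congr rfl fun h _ => ?_
  rw [sum_comm, mul_sum, mul_sum]
  refine sum_congr rfl fun h' _ => ?_
  rw [mul_sum, mul_sum, mul_sum]

theorem Strong_lin (μ : P → ℝ) (lam : X → ℝ) (a : ℝ) (F G : P → (ι → X) → (ι → X) → ℝ) :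
    EE2 μ lam (fun p h h' => a * F p h h' + G p h h') = a * EE2 μ lam F + EE2 μ lam G := by
  unfold EE2
  rw [mul_sum, ← sum_add_distrib]
  refine sum_congr rfl fun p _ => ?_
  have h1 : ∀ h : ι → X, ∑ h' : ι → X, (∏ i, lam (h' i)) * (a * F p h h' + G p h h') =
      a * (∑ h' : ι → X, (∏ i, lam (h' i)) * F p h h') +
        ∑ h' : ι → X, (∏ i, lam (h' i)) * G p h h' := by
    intro h
    rw [mul_sum, ← sum_add_distrib]
    refine sum_congr rfl fun h' _ => ?_
    ring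
  have h2 : ∑ h : ι → X, (∏ i, lam (h i)) *
      ∑ h' : ι → X, (∏ i, lam (h' i)) * (a * F p h h' + G p h h') =
      a * (∑ h : ι → X, (∏ i, lam (h i)) * ∑ h' : ι → X, (∏ i, lam (h' i)) * F p h h') +
        ∑ h : ι → X, (∏ i, lam (h i)) * ∑ h' : ι → X, (∏ i, lam (h' i)) * G p h h' := by
    rw [mul_sum, ← sum_add_distrib]
    refine sum_congr rfl fun h _ => ?_
    rw [h1]
    ring
  rw [h2]
  ring

theorem Strong_zero (μ : P → ℝ) (lam : X → ℝ) :
    EE2 μ lam (fun (_ : P) (_ _ : ι → X) => (0 : ℝ)) = 0 := by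
  simp [EE2]

theorem Strong_sum {τ : Type} [DecidableEq τ] (μ : P → ℝ) (lam : X → ℝ) (T : Finset τ) (a : τ → ℝ)
    (F : τ → P → (ι → X) → (ι → X) → ℝ) :
    EE2 μ lam (fun p h h' => ∑ t ∈ T, a t * F t p h h') = ∑ t ∈ T, a t * EE2 μ lam (F t) := by
  induction T using Finset.induction_on with
  | empty =>
    simp only [sum_empty]
    exact Strong_zero μ lam
  | insert t T ht ih =>
    simp only [sum_insert ht]
    rw [Strong_lin μ lam (a t) (F t) (fun p h h' => ∑ t ∈ T, a t * F t p h h'), ih]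

omit [Fintype P] [Fintype ι] [Fintype X] in
theorem Strong_mix (h h' : ι → X) (j₀ : ι) (b : X) {ω : Finset ι} (hω : j₀ ∉ ω) :
    mix h (Function.update h' j₀ b) ω = mix h h' ω := by
  funext i
  unfold mix
  by_cases hi : i ∈ ω
  · rw [if_pos hi, if_pos hi, Function.update_of_ne (fun he : i = j₀ => hω (he ▸ hi))]
  · rw [if_neg hi, if_neg hi]

omit [Fintype P] [Fintype ι] [Fintype X] in
theorem Strong_mix_insert (h h' : ι → X) (j₀ : ι) (b : X) {ω : Finset ι} (hω : j₀ ∉ ω) :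
    mix h (Function.update h' j₀ b) (insert j₀ ω) = Function.update (mix h h' ω) j₀ b := by
  funext i
  unfold mix
  by_cases hi : i = j₀
  · subst hi
    rw [if_pos (mem_insert_self _ _), Function.update_self, Function.update_self]
  · rw [Function.update_of_ne hi, Function.update_of_ne hi]
    by_cases hi' : i ∈ ω
    · rw [if_pos (mem_insert_of_mem hi'), if_pos hi']
    · rw [if_neg (fun hm => (mem_insert.1 hm).elim hi hi'), if_neg hi']

/-- the set of pairs with first component `j`, if `j ∈ s` -/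
def StrongPairs (s : Finset ι) (j : ι) (T : Finset (Finset ι)) : Finset (ι × Finset ι) :=
  if j ∈ s then ({j} : Finset ι) ×ˢ T else ∅

omit [Fintype P] [Fintype ι] [Fintype X] in
theorem Strong_prod_pairs (N : ι → P → (ι → X) → ℝ) (s : Finset ι) (j : ι)
    (T : Finset (Finset ι)) (p : P) (h h' : ι → X) :
    ∏ ω ∈ T, Nh N s j p (mix h h' ω) = ∏ q ∈ StrongPairs s j T, N q.1 p (mix h h' q.2) := by
  unfold StrongPairs
  by_cases hj : j ∈ s
  · rw [if_pos hj, prod_product, prod_singleton]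
    refine prod_congr rfl fun ω _ => ?_
    rw [Nh, if_pos hj]
  · rw [if_neg hj, prod_empty]
    refine prod_eq_one fun ω _ => ?_
    rw [Nh, if_neg hj]

omit [Fintype ι] in
theorem Strong_mem_pairs {s : Finset ι} {j : ι} {T : Finset (Finset ι)} {q : ι × Finset ι}
    (hq : q ∈ StrongPairs s j T) : q.1 = j ∧ q.2 ∈ T := by
  unfold StrongPairs at hq
  by_cases hj : j ∈ s
  · rw [if_pos hj, mem_product, mem_singleton] at hq
    exact hq
  · rw [if_neg hj] at hq
    simp at hq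

/-- the pairs for one index `j` -/
def StrongS (s₁ s₂ : Finset ι) (j₀ j : ι) (T : Finset (Finset ι)) : Finset (ι × Finset ι) :=
  StrongPairs s₁ j T ∪ StrongPairs s₂ j (T.image (insert j₀))

omit [Fintype ι] in
theorem Strong_mem_S {s₁ s₂ : Finset ι} {j₀ j : ι} {T : Finset (Finset ι)} {q : ι × Finset ι}
    (hq : q ∈ StrongS s₁ s₂ j₀ j T) :
    q.1 = j ∧ (q.2 ∈ T ∨ ∃ ω ∈ T, q.2 = insert j₀ ω) := by
  rcases mem_union.1 hq with h | h
  · exact ⟨(Strong_mem_pairs h).1, Or.inl (Strong_mem_pairs h).2⟩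
  · obtain ⟨h1, h2⟩ := Strong_mem_pairs h
    obtain ⟨ω, hω, h3⟩ := mem_image.1 h2
    exact ⟨h1, Or.inr ⟨ω, hω, h3.symm⟩⟩

omit [Fintype P] [Fintype ι] [Fintype X] in
theorem Strong_prod_S (N : ι → P → (ι → X) → ℝ) (s₁ s₂ : Finset ι) (j₀ j : ι)
    (T : Finset (Finset ι)) (hT : ∀ ω ∈ T, j₀ ∉ ω) (p : P) (h h' : ι → X) :
    ∏ ω ∈ T, (Nh N s₁ j p (mix h h' ω) * Nh N s₂ j p (mix h h' (insert j₀ ω))) =
      ∏ q ∈ StrongS s₁ s₂ j₀ j T, N q.1 p (mix h h' q.2) := by
  have hinj : Set.InjOn (insert j₀ : Finset ι → Finset ι) (T : Set (Finset ι)) := by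
    intro ω hω ω' hω' he
    have h1 := congrArg (fun A : Finset ι => A.erase j₀) he
    simp only [erase_insert (hT ω hω), erase_insert (hT ω' hω')] at h1
    exact h1
  have hdis : Disjoint (StrongPairs s₁ j T) (StrongPairs s₂ j (T.image (insert j₀))) := by
    rw [disjoint_left]
    intro q hq hq'
    obtain ⟨ω, hω, h3⟩ := mem_image.1 (Strong_mem_pairs hq').2
    have h1 := hT _ (Strong_mem_pairs hq).2
    rw [← h3] at h1
    exact h1 (mem_insert_self _ _)
  rw [prod_mul_distrib, StrongS, prod_union hdis, ← Strong_prod_pairs, ← Strong_prod_pairs,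
    prod_image hinj]

end StrongAux

theorem strong_lf (κ : ℕ) (hκ : 2 ≤ κ) (ε : ℝ) (hε : 0 < ε) : ∃ η : ℝ, 0 < η ∧ η ≤ 1 ∧
    ∀ (P X : Type) [Fintype P] [Fintype X] (μ : P → ℝ) (lam : X → ℝ), IsPW μ → IsPW lam →
    ∀ N : Fin κ → P → (Fin κ → X) → ℝ, (∀ j p h, 0 ≤ N j p h) → (∀ j p, Indep j (N j p)) →
    LFc μ lam N η → ∀ (j₀ : Fin κ) (s₁ s₂ : Finset (Fin κ)) (K₁ K₂ : Fin κ → P → (Fin κ → X) → ℝ),
    (∀ i p, Indep i (K₁ i p)) → (∀ i p, Indep i (K₂ i p)) →
    (∀ i p h, |K₁ i p h| ≤ Nh N s₁ i p h) → (∀ i p h, |K₂ i p h| ≤ Nh N s₂ i p h) →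
    |EE μ lam (fun p h => (N j₀ p h - 1) *
      bar lam j₀ (fun p h => ∏ i ∈ univ.erase j₀, K₁ i p h) p h *
      bar lam j₀ (fun p h => ∏ i ∈ univ.erase j₀, K₂ i p h) p h)| ≤ ε := by
  set R : ℕ := 2 ^ (κ - 1) with hR
  have hRpos : 0 < R := by positivity
  have hReven : Even R := by
    rw [hR]
    exact (Nat.even_pow.2 ⟨even_two, by omega⟩)
  refine ⟨min 1 (ε ^ R / 2 ^ (R + R)), lt_min one_pos (by positivity), min_le_left _ _, ?_⟩
  intro P X _ _ μ lam hμ hl N hN hNi hLF j₀ s₁ s₂ K₁ K₂ hK₁ hK₂ hb₁ hb₂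
  set η : ℝ := min 1 (ε ^ R / 2 ^ (R + R)) with hη
  have hη1 : η ≤ 1 := min_le_left _ _
  have hη2 : η ≤ ε ^ R / 2 ^ (R + R) := min_le_right _ _
  set J : Finset (Fin κ) := univ.erase j₀ with hJ
  have hJcard : #J = κ - 1 := by
    rw [hJ, card_erase_of_mem (mem_univ _), card_univ, Fintype.card_fin]
  have hjJ : ∀ j ∈ J, j ≠ j₀ := fun j hj => ne_of_mem_erase hj
  have hj₀J : j₀ ∉ J := notMem_erase _ _
  -- the parameter space
  set μ' : P × X → ℝ := fun q => μ q.1 * lam q.2 with hμ'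
  have hPW : IsPW μ' := by
    refine ⟨fun q => mul_nonneg (hμ.1 _) (hl.1 _), ?_⟩
    rw [Fintype.sum_prod_type]
    simp only [hμ']
    calc ∑ p, ∑ b, μ p * lam b = ∑ p, μ p * ∑ b, lam b := by
          refine sum_congr rfl fun p _ => ?_
          rw [mul_sum]
      _ = 1 := by rw [hl.2]; simp only [mul_one]; exact hμ.2
  set G : P × X → (Fin κ → X) → ℝ := fun q h => N j₀ q.1 h - 1 with hG
  set c : Fin κ → P × X → (Fin κ → X) → ℝ := fun i q h =>
    K₁ i q.1 h * K₂ i q.1 (Function.update h j₀ q.2) with hc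
  set M : Fin κ → P × X → (Fin κ → X) → ℝ := fun i q h =>
    Nh N s₁ i q.1 h * Nh N s₂ i q.1 (Function.update h j₀ q.2) with hM
  have hNh0 : ∀ (s : Finset (Fin κ)) i p h, 0 ≤ Nh N s i p h := by
    intro s i p h
    by_cases hi : i ∈ s
    · rw [Nh, if_pos hi]; exact hN i p h
    · rw [Nh, if_neg hi]; exact zero_le_one
  have hNhi : ∀ (s : Finset (Fin κ)) i p, Indep i (Nh N s i p) := by
    intro s i p h x
    by_cases hi : i ∈ s
    · rw [Nh, if_pos hi]; exact hNi i p h x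
    · rw [Nh, if_neg hi]
  -- the quantity
  have hQ : EE μ lam (fun p h => (N j₀ p h - 1) *
      bar lam j₀ (fun p h => ∏ i ∈ J, K₁ i p h) p h *
      bar lam j₀ (fun p h => ∏ i ∈ J, K₂ i p h) p h) =
      EE μ' lam (fun q h => G q h * ∏ i ∈ J, c i q h) := by
    have hW : ∀ p, Indep j₀ (fun h => N j₀ p h - 1) := by
      intro p h x
      simp only
      rw [hNi j₀ p h x]
    rw [EE_bar_bar μ lam hl j₀ (fun p h => N j₀ p h - 1) _ _ hW, Strong_A μ lam hl j₀]
    rw [← EE2_mix μ' lam hl ∅]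
    refine congrArg (EE2 μ' lam) ?_
    funext q h h'
    have e1 : mix h h' ∅ = h := by
      funext i
      simp [mix]
    have e2 : mix h (Function.update h' j₀ q.2) {j₀} = Function.update h j₀ q.2 := by
      have := Strong_mix_insert h h' j₀ q.2 (ω := ∅) (notMem_empty _)
      rw [insert_empty_eq] at this
      rw [this, e1]
    rw [e1, e2]
    simp only [hG, hc, prod_mul_distrib]
    ring
  rw [hQ]
  -- the Cauchy-Schwarz inequality
  have hci : ∀ j ∈ J, ∀ q, Indep j (c j q) := by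
    intro j hj q h x
    simp only [hc]
    rw [hK₁ j q.1 h x, Function.update_comm (hjJ j hj), hK₂ j q.1 _ x]
  have hMi : ∀ j ∈ J, ∀ q, Indep j (M j q) := by
    intro j hj q h x
    simp only [hM]
    rw [hNhi s₁ j q.1 h x, Function.update_comm (hjJ j hj), hNhi s₂ j q.1 _ x]
  have hcM : ∀ j ∈ J, ∀ q h, |c j q h| ≤ M j q h := by
    intro j _ q h
    simp only [hc, hM]
    rw [abs_mul]
    exact mul_le_mul (hb₁ j q.1 h) (hb₂ j q.1 _) (abs_nonneg _) (hNh0 _ _ _ _)
  -- rewriting of the products of `M`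
  have hMprod : ∀ (j : Fin κ) (T : Finset (Finset (Fin κ))), (∀ ω ∈ T, j₀ ∉ ω) →
      ∀ (q : P × X) (h h' : Fin κ → X), ∏ ω ∈ T, M j q (mix h h' ω) =
        ∏ r ∈ StrongS s₁ s₂ j₀ j T, N r.1 q.1 (mix h (Function.update h' j₀ q.2) r.2) := by
    intro j T hT q h h'
    rw [← Strong_prod_S N s₁ s₂ j₀ j T hT q.1 h (Function.update h' j₀ q.2)]
    refine prod_congr rfl fun ω hω => ?_
    rw [Strong_mix h h' j₀ q.2 (hT ω hω), Strong_mix_insert h h' j₀ q.2 (hT ω hω)]
  have hSok : ∀ (j : Fin κ) (T : Finset (Finset (Fin κ))), j ≠ j₀ → (∀ ω ∈ T, j ∉ ω) →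
      ∀ r ∈ StrongS s₁ s₂ j₀ j T, r.1 ∉ r.2 := by
    intro j T hj hT r hr
    obtain ⟨h1, h2⟩ := Strong_mem_S hr
    rw [h1]
    rcases h2 with h2 | ⟨ω, hω, h2⟩
    · exact hT _ h2
    · rw [h2, mem_insert, not_or]
      exact ⟨hj, hT ω hω⟩
  have hpre : ∀ j ∈ J, ∀ J' ⊆ J.erase j,
      EE2 μ' lam (fun q h h' => ∏ ω ∈ J'.powerset, M j q (mix h h' ω)) ≤ 2 := by
    intro j hj J' hJ'
    have hT : ∀ ω ∈ J'.powerset, j₀ ∉ ω := fun ω hω h0 =>
      hj₀J (mem_of_mem_erase (hJ' (mem_powerset.1 hω h0)))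
    have hT' : ∀ ω ∈ J'.powerset, j ∉ ω := fun ω hω h0 =>
      (ne_of_mem_erase (hJ' (mem_powerset.1 hω h0))) rfl
    have e1 : EE2 μ' lam (fun q h h' => ∏ ω ∈ J'.powerset, M j q (mix h h' ω)) =
        EE2 μ lam (fun p h h' => ∏ r ∈ StrongS s₁ s₂ j₀ j J'.powerset,
          N r.1 p (mix h h' r.2)) := by
      rw [Strong_A μ lam hl j₀]
      refine congrArg (EE2 μ' lam) ?_
      funext q h h'
      exact hMprod j _ hT q h h'
    rw [e1]
    have h2 := hLF (StrongS s₁ s₂ j₀ j J'.powerset) (hSok j _ (hjJ j hj) hT')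
    have h3 := (abs_le.1 h2).2
    linarith
  have hbcs := bcs μ' lam hPW hl J G c M hci hMi hcM 2 one_le_two hpre
  rw [hJcard, ← hR] at hbcs
  -- the set of pairs of the majorants
  set B : Finset (Fin κ × Finset (Fin κ)) :=
    J.biUnion fun j => StrongS s₁ s₂ j₀ j (J.erase j).powerset with hB
  have hBprod : ∀ (q : P × X) (h h' : Fin κ → X),
      ∏ j ∈ J, ∏ ω ∈ (J.erase j).powerset, M j q (mix h h' ω) =
        ∏ r ∈ B, N r.1 q.1 (mix h (Function.update h' j₀ q.2) r.2) := by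
    intro q h h'
    rw [hB, prod_biUnion]
    · refine prod_congr rfl fun j _ => hMprod j _ ?_ q h h'
      exact fun ω hω h0 => hj₀J (mem_of_mem_erase (mem_powerset.1 hω h0))
    · intro j _ j' _ hne
      rw [Function.onFun, disjoint_left]
      intro r hr hr'
      exact hne ((Strong_mem_S hr).1.symm.trans (Strong_mem_S hr').1)
  have hBok : ∀ r ∈ B, r.1 ≠ j₀ ∧ r.1 ∉ r.2 := by
    intro r hr
    rw [hB, mem_biUnion] at hr
    obtain ⟨j, hj, hr⟩ := hr
    refine ⟨?_, hSok j _ (hjJ j hj) ?_ r hr⟩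
    · rw [(Strong_mem_S hr).1]
      exact hjJ j hj
    · exact fun ω hω h0 => (ne_of_mem_erase (mem_powerset.1 hω h0)) rfl
  -- expansion
  set sg : Finset (Finset (Fin κ)) → ℝ := fun T => ∏ _ω ∈ J.powerset \ T, (-1 : ℝ) with hsg
  have hexp : EE2 μ' lam (fun q h h' => (∏ ω ∈ J.powerset, G q (mix h h' ω)) *
      ∏ j ∈ J, ∏ ω ∈ (J.erase j).powerset, M j q (mix h h' ω)) =
      ∑ T ∈ J.powerset.powerset, sg T * EE2 μ lam (fun p h h' =>
        ∏ r ∈ (({j₀} : Finset (Fin κ)) ×ˢ T) ∪ B, N r.1 p (mix h h' r.2)) := by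
    rw [← Strong_sum μ lam J.powerset.powerset sg (fun T p h h' =>
      ∏ r ∈ (({j₀} : Finset (Fin κ)) ×ˢ T) ∪ B, N r.1 p (mix h h' r.2)), Strong_A μ lam hl j₀]
    refine congrArg (EE2 μ' lam) ?_
    funext q h h'
    rw [hBprod]
    have e1 : ∏ ω ∈ J.powerset, G q (mix h h' ω) = ∏ ω ∈ J.powerset,
        (N j₀ q.1 (mix h (Function.update h' j₀ q.2) ω) + (-1)) := by
      refine prod_congr rfl fun ω hω => ?_
      rw [Strong_mix h h' j₀ q.2 (fun h0 => hj₀J (mem_powerset.1 hω h0))]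
      simp only [hG]
      ring
    rw [e1, prod_add, sum_mul]
    refine sum_congr rfl fun T _ => ?_
    have hdis : Disjoint (({j₀} : Finset (Fin κ)) ×ˢ T) B := by
      rw [disjoint_left]
      intro r hr hr'
      rw [mem_product, mem_singleton] at hr
      exact (hBok r hr').1 hr.1
    rw [prod_union hdis, prod_product, prod_singleton]
    simp only [hsg]
    ring
  have hsum0 : ∑ T ∈ J.powerset.powerset, sg T = 0 := by
    have h1 := prod_add (fun _ : Finset (Fin κ) => (1 : ℝ)) (fun _ => (-1 : ℝ)) J.powerset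
    have h2 : ∏ _i ∈ J.powerset, ((1 : ℝ) + -1) = 0 := by
      refine prod_eq_zero (i := ∅) (by simp) (by norm_num)
    rw [h2] at h1
    rw [h1]
    refine sum_congr rfl fun T _ => ?_
    rw [prod_const_one, one_mul]
  have hsgabs : ∀ T, |sg T| = 1 := by
    intro T
    simp only [hsg]
    rw [abs_prod]
    refine prod_eq_one fun _ _ => ?_
    norm_num
  have hE2 : |EE2 μ' lam (fun q h h' => (∏ ω ∈ J.powerset, G q (mix h h' ω)) *
      ∏ j ∈ J, ∏ ω ∈ (J.erase j).powerset, M j q (mix h h' ω))| ≤ 2 ^ R * η := by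
    rw [hexp]
    have h1 : ∑ T ∈ J.powerset.powerset, sg T * EE2 μ lam (fun p h h' =>
        ∏ r ∈ (({j₀} : Finset (Fin κ)) ×ˢ T) ∪ B, N r.1 p (mix h h' r.2)) =
        ∑ T ∈ J.powerset.powerset, sg T * (EE2 μ lam (fun p h h' =>
          ∏ r ∈ (({j₀} : Finset (Fin κ)) ×ˢ T) ∪ B, N r.1 p (mix h h' r.2)) - 1) := by
      have h2 : ∑ T ∈ J.powerset.powerset, sg T * (EE2 μ lam (fun p h h' =>
          ∏ r ∈ (({j₀} : Finset (Fin κ)) ×ˢ T) ∪ B, N r.1 p (mix h h' r.2)) - 1) =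
          ∑ T ∈ J.powerset.powerset, sg T * EE2 μ lam (fun p h h' =>
          ∏ r ∈ (({j₀} : Finset (Fin κ)) ×ˢ T) ∪ B, N r.1 p (mix h h' r.2)) -
          ∑ T ∈ J.powerset.powerset, sg T := by
        rw [← sum_sub_distrib]
        refine sum_congr rfl fun T _ => ?_
        ring
      rw [h2, hsum0, sub_zero]
    rw [h1]
    refine (abs_sum_le_sum_abs _ _).trans ?_
    have h3 : ∀ T ∈ J.powerset.powerset, |sg T * (EE2 μ lam (fun p h h' =>
          ∏ r ∈ (({j₀} : Finset (Fin κ)) ×ˢ T) ∪ B, N r.1 p (mix h h' r.2)) - 1)| ≤ η := by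
      intro T hT
      rw [abs_mul, hsgabs, one_mul]
      refine hLF _ ?_
      intro r hr
      rcases mem_union.1 hr with hr | hr
      · rw [mem_product, mem_singleton] at hr
        rw [hr.1]
        intro h0
        exact hj₀J (mem_powerset.1 (mem_powerset.1 hT hr.2) h0)
      · exact (hBok r hr).2
    refine (sum_le_sum h3).trans ?_
    rw [sum_const, card_powerset, card_powerset, hJcard, ← hR, nsmul_eq_mul]
    push_cast
    exact le_refl _
  -- conclusion
  set Q := EE μ' lam (fun q h => G q h * ∏ i ∈ J, c i q h) with hQdef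
  have hfin : |Q| ^ R ≤ ε ^ R := by
    rw [hReven.pow_abs]
    calc Q ^ R ≤ 2 ^ (R - 1) * EE2 μ' lam (fun q h h' => (∏ ω ∈ J.powerset, G q (mix h h' ω)) *
          ∏ j ∈ J, ∏ ω ∈ (J.erase j).powerset, M j q (mix h h' ω)) := hbcs
      _ ≤ 2 ^ (R - 1) * (2 ^ R * η) :=
          mul_le_mul_of_nonneg_left ((le_abs_self _).trans hE2) (by positivity)
      _ ≤ 2 ^ R * (2 ^ R * (ε ^ R / 2 ^ (R + R))) := by
          have h1 : (2 : ℝ) ^ (R - 1) ≤ 2 ^ R := pow_le_pow_right₀ one_le_two (by omega)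
          have h2 : 0 ≤ ε ^ R / 2 ^ (R + R) := by positivity
          have h3 : (2 : ℝ) ^ R * η ≤ 2 ^ R * (ε ^ R / 2 ^ (R + R)) :=
            mul_le_mul_of_nonneg_left hη2 (by positivity)
          exact mul_le_mul h1 h3 (mul_nonneg (by positivity)
            (le_min zero_le_one h2)) (by positivity)
      _ = ε ^ R := by
          rw [pow_add]
          field_simp
  exact (pow_le_pow_iff_left₀ (abs_nonneg _) hε.le hRpos.ne').1 hfin

end Pool.Agent.H16.GPS
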